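import Pool.Agent.Lib_MP_debdb1_cx.Graph

/-!
# Piece ASY: the graph is asymmetric, and the core classes
-/

set_option autoImplicit false

namespace Pool.Agent.QAOA.CX

open Matrix Pool.Agent.QAOA

open Classical in
theorem sum_adj_eq {V : Type*} [Fintype V] (G : SimpleGraph V) (c : V → V) (f g : V → ZMod 2)
    (hg : ∀ z, f z = g (c z)) (x : V) :
    (∑ z, if G.Adj x z then f z else 0) =
      ∑ t, ((Finset.univ.filter (fun z => G.Adj x z ∧ c z = t)).card : ZMod 2) * g t := by
  have h1 : ∀ t, ((Finset.univ.filter (fun z => G.Adj x z ∧ c z = t)).card : ZMod 2) * g t =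
      ∑ z, if G.Adj x z ∧ c z = t then g t else 0 := by
    intro t
    rw [← Finset.sum_filter, Finset.sum_const, nsmul_eq_mul]
  rw [Finset.sum_congr rfl fun t _ => h1 t, Finset.sum_comm]
  refine Finset.sum_congr rfl fun z _ => ?_
  by_cases h : G.Adj x z
  · simp [h, hg]
  · simp [h]

/-- in an equitable partition modulo 2 a vertex in the class of a core vertex `u` is the core vertex `u` of some component -/
theorem equi_core (k : ℕ) (c : VT k → VT k) (hc : Equi (totG k) c) (u : ZMod (mm k)) (x y : VT k) (hxy : c x = c y)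
    (hx : x.2 = Sum.inl u) : y.2 = Sum.inl u := by
  classical
  have h := core_def k {f | ∀ x y, c x = c y → f x = f y} (fun _ _ _ => rfl)
    (fun f hf g hg x y hxy => by simp only [Pi.add_apply]; rw [hf x y hxy, hg x y hxy])
    (fun f hf g hg x y hxy => by simp only [Pi.mul_apply]; rw [hf x y hxy, hg x y hxy])
    (by
      intro f hf x y hxy
      obtain ⟨g, hg⟩ : ∃ g : VT k → ZMod 2, ∀ z, f z = g (c z) := by
        have hfac : Function.FactorsThrough f c := fun a b hab => hf a b hab
        exact ⟨Function.extend c f 0, fun z => (hfac.extend_apply 0 z).symm⟩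
      have e1 := sum_adj_eq (totG k) c f g hg x
      have e2 := sum_adj_eq (totG k) c f g hg y
      have e4 := e1.trans ((Finset.sum_congr rfl fun t _ => by
        congr 1
        rw [ZMod.natCast_eq_natCast_iff']
        exact hc x y hxy t).trans e2.symm)
      convert e4 using 1) u
  have h2 := h x y hxy
  simp only at h2
  by_contra hy
  rw [if_pos hx, if_neg hy] at h2
  exact one_ne_zero h2

theorem sig_adj_fst {Y : Type*} {V : Y → Type*} {G : ∀ y, SimpleGraph (V y)} {x z : Σ y, V y}
    (h : (sigG G).Adj x z) : x.1 = z.1 := by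
  obtain ⟨y, a, b, rfl, rfl, -⟩ := h
  rfl

theorem sig_adj_same {Y : Type*} {V : Y → Type*} {G : ∀ y, SimpleGraph (V y)} {y : Y} {a b : V y} :
    (sigG G).Adj ⟨y, a⟩ ⟨y, b⟩ ↔ (G y).Adj a b := by
  constructor
  · rintro ⟨y', a', b', h1, h2, h⟩
    rw [Sigma.mk.injEq] at h1 h2
    obtain ⟨rfl, h1⟩ := h1
    rw [eq_of_heq h1, eq_of_heq h2.2]
    exact h
  · intro h
    exact ⟨y, a, b, rfl, rfl, h⟩

theorem pos_injective (k : ℕ) : Function.Injective (pos k) := by
  intro i j h
  have h1 : ((12 + (i : ℕ) : ℕ) : ZMod (mm k)).val = ((12 + (j : ℕ) : ℕ) : ZMod (mm k)).val :=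
    congrArg ZMod.val h
  rw [ZMod.val_natCast_of_lt (by have := i.2; unfold mm; omega),
    ZMod.val_natCast_of_lt (by have := j.2; unfold mm; omega)] at h1
  exact Fin.ext (by omega)

theorem totG_asymmetric (k : ℕ) : Asymmetric (totG k) := by
  classical
  intro σ
  -- core vertices keep their name
  have hcore : ∀ (u : ZMod (mm k)) (x : VT k), (σ x).2 = Sum.inl u ↔ x.2 = Sum.inl u := by
    intro u x
    have h := core_def k {f | ∀ x, f (σ x) = f x} (fun _ => rfl)
      (fun f hf g hg x => by simp only [Pi.add_apply]; rw [hf x, hg x])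
      (fun f hf g hg x => by simp only [Pi.mul_apply]; rw [hf x, hg x])
      (by
        intro f hf x
        have e1 : (∑ y, if (totG k).Adj (σ x) y then f y else 0) =
            ∑ y, if (totG k).Adj x y then f y else 0 := by
          rw [← Equiv.sum_comp σ.toEquiv]
          refine Finset.sum_congr rfl fun y _ => ?_
          change (if (totG k).Adj (σ x) (σ y) then f (σ y) else 0) = _
          rw [hf y]
          by_cases hxy : (totG k).Adj x y
          · rw [if_pos hxy, if_pos (σ.map_adj_iff.2 hxy)]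
          · rw [if_neg hxy, if_neg (fun h => hxy (σ.map_adj_iff.1 h))]
        convert e1 using 1) u
    have h2 := h x
    simp only at h2
    by_cases h3 : x.2 = Sum.inl u
    · rw [if_pos h3] at h2
      refine ⟨fun _ => h3, fun _ => ?_⟩
      by_contra h4
      rw [if_neg h4] at h2
      exact zero_ne_one h2
    · rw [if_neg h3] at h2
      refine ⟨fun h4 => ?_, fun h4 => absurd h4 h3⟩
      rw [if_pos h4] at h2
      exact absurd h2 one_ne_zero
  have heta : ∀ (u : ZMod (mm k)) (x : VT k), x.2 = Sum.inl u → x = ⟨x.1, Sum.inl u⟩ := by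
    rintro u ⟨y, a⟩ h
    simp only at h
    rw [h]
  set τ : ZMod (mm k) → Option (Fin k) → Option (Fin k) := fun u y => (σ ⟨y, Sum.inl u⟩).1 with hτ
  have hσ : ∀ u y, σ ⟨y, Sum.inl u⟩ = ⟨τ u y, Sum.inl u⟩ := fun u y =>
    heta u _ ((hcore u _).2 rfl)
  have : Fact (1 < mm k) := ⟨by unfold mm; omega⟩
  have : NeZero (mm k) := ⟨by unfold mm; omega⟩
  have hstep : ∀ u y, τ (u + 1) y = τ u y := by
    intro u y
    have h1 : (totG k).Adj (⟨y, Sum.inl u⟩ : VT k) ⟨y, Sum.inl (u + 1)⟩ := by
      refine sig_adj_same.2 ?_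
      change (coreG (mm k)).Adj u (u + 1)
      refine ⟨?_, Or.inl rfl⟩
      intro h
      have h0 : (1 : ZMod (mm k)) = 0 := by
        have : u + 0 = u + 1 := by rw [add_zero]; exact h
        exact (add_left_cancel this).symm
      exact one_ne_zero h0
    have h2 := σ.map_adj_iff.2 h1
    exact (sig_adj_fst h2).symm
  have hnat : ∀ (n : ℕ) y, τ (n : ZMod (mm k)) y = τ 0 y := by
    intro n y
    induction n with
    | zero => rw [Nat.cast_zero]
    | succ n ih => rw [Nat.cast_succ, hstep, ih]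
  have hall : ∀ u y, τ u y = τ 0 y := by
    intro u y
    have h1 := hnat u.val y
    rwa [ZMod.natCast_zmod_val] at h1
  -- gadget vertices
  have hgad : ∀ (y : Option (Fin k)) (p : {p : ZMod (mm k) // p ∈ fam k y}) (s : Fin 8),
      ∃ (hp : p.1 ∈ fam k (τ 0 y)) (t : Fin 8),
        σ ⟨y, Sum.inr (p, s)⟩ = ⟨τ 0 y, Sum.inr (⟨p.1, hp⟩, t)⟩ := by
    intro y p s
    have h1 : (totG k).Adj (⟨y, Sum.inl p.1⟩ : VT k) ⟨y, Sum.inr (p, s)⟩ :=
      sig_adj_same.2 (show p.1 = p.1 from rfl)
    have h2 := σ.map_adj_iff.2 h1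
    rw [hσ, hall] at h2
    generalize hz : σ ⟨y, Sum.inr (p, s)⟩ = z at h2
    obtain ⟨z1, z2⟩ := z
    have h3 : τ 0 y = z1 := sig_adj_fst h2
    subst h3
    rw [show (totG k).Adj = (sigG fun y => compG (mm k) (fam k y)).Adj from rfl] at h2
    have h4 := sig_adj_same.1 h2
    rcases z2 with w | ⟨q, t⟩
    · exfalso
      have h5 := (hcore w ⟨y, Sum.inr (p, s)⟩).1 (by rw [hz])
      simp at h5
    · have h5 : p.1 = q.1 := h4
      refine ⟨h5 ▸ q.2, t, ?_⟩
      congr 3
      exact Subtype.ext h5.symm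
  have hsub : ∀ y, fam k y ⊆ fam k (τ 0 y) := by
    intro y p hp
    obtain ⟨h, -⟩ := hgad y ⟨p, hp⟩ 0
    exact h
  have hinj : Function.Injective (τ 0) := by
    intro y y' h
    have h1 : σ ⟨y, Sum.inl 0⟩ = σ ⟨y', Sum.inl 0⟩ := by rw [hσ, hσ, h]
    have h2 := σ.injective h1
    exact congrArg Sigma.fst h2
  have hnone : τ 0 none = none := by
    rcases h : τ 0 none with _ | i
    · rfl
    · exfalso
      have h1 := hsub none
      rw [h] at h1
      have h2 : pos k i ∈ fam k none := Finset.mem_image_of_mem _ (Finset.mem_univ i)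
      exact Finset.notMem_erase _ _ (h1 h2)
  have hτid : ∀ y, τ 0 y = y := by
    rintro (_ | i)
    · exact hnone
    · rcases h : τ 0 (some i) with _ | j
      · exfalso
        have := hinj (h.trans hnone.symm)
        simp at this
      · by_contra hne
        have hij : j ≠ i := fun h => hne (by rw [h])
        have h1 := hsub (some i)
        rw [h] at h1
        have h2 : pos k j ∈ fam k (some i) := Finset.mem_erase.2
          ⟨fun h => hij (pos_injective k h), Finset.mem_image_of_mem _ (Finset.mem_univ j)⟩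
        exact Finset.notMem_erase _ _ (h1 h2)
  have hgad2 : ∀ (y : Option (Fin k)) (p : {p : ZMod (mm k) // p ∈ fam k y}) (s : Fin 8),
      ∃ t : Fin 8, σ ⟨y, Sum.inr (p, s)⟩ = ⟨y, Sum.inr (p, t)⟩ := by
    intro y p s
    obtain ⟨hp, t, h⟩ := hgad y p s
    refine ⟨t, ?_⟩
    rw [h]
    have e := hτid y
    generalize τ 0 y = y' at hp e
    subst e
    rfl
  rintro ⟨y, u | ⟨p, s⟩⟩
  · rw [hσ, hall, hτid]
  · choose t ht using hgad2 y p
    have h1 : ∀ s, t s = s := by
      refine GS_rigid t ?_ ?_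
      · intro s s' h
        have h2 : σ ⟨y, Sum.inr (p, s)⟩ = σ ⟨y, Sum.inr (p, s')⟩ := by rw [ht, ht, h]
        have h3 := σ.injective h2
        rw [Sigma.mk.injEq] at h3
        have h4 := eq_of_heq h3.2
        simpa using h4
      · intro s s' h
        have h2 : (totG k).Adj (⟨y, Sum.inr (p, s)⟩ : VT k) ⟨y, Sum.inr (p, s')⟩ :=
          sig_adj_same.2 (show p = p ∧ GS.Adj s s' from ⟨rfl, h⟩)
        have h3 := σ.map_adj_iff.2 h2
        rw [ht, ht] at h3
        exact (sig_adj_same.1 h3).2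
    rw [ht, h1]

end Pool.Agent.QAOA.CX
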