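import Pool.Agent.Lib_MP_debdb1_mp.Pauli

/-!
# MP_debdb1_mp, counterexample: definitions
-/

set_option autoImplicit false

namespace Pool.Agent.QAOA.CX

open Matrix Pool.Agent.QAOA

/-- the smallest complex subspace containing `A` and `B` and closed under commutators -/
noncomputable def genC {R : Type*} [Ring R] [Module ℂ R] (A B : R) : Submodule ℂ R :=
  sInf {S : Submodule ℂ R | A ∈ S ∧ B ∈ S ∧ ∀ M ∈ S, ∀ N ∈ S, M * N - N * M ∈ S}

open Classical in
/-- the operator `a` on the qubits `U`, moved to the qubits in the range of `f` (identity on the others) -/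
noncomputable def emb {U W : Type*} (f : U ↪ W) (a : Op U) : Op W :=
  Matrix.of fun x y => if ∀ w, w ∉ Set.range f → x w = y w then a (fun u => x (f u)) (fun u => y (f u)) else 0

/-- the part of the Lie algebra generated by `(A0, A1)` and `(B0, B1)` which lives in the first factor -/
noncomputable def exK {R₁ R₂ : Type*} [Ring R₁] [Algebra ℂ R₁] [Ring R₂] [Algebra ℂ R₂] (A0 B0 : R₁) (A1 B1 : R₂) :
    Submodule ℂ R₁ :=
  (genC (R := R₁ × R₂) (A0, A1) (B0, B1)).comap (LinearMap.inl ℂ R₁ R₂)

/-! ## the gadget -/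

/-- the edges of the gadget -/
def gE : List (Fin 8 × Fin 8) :=
  [(0, 4), (0, 5), (0, 6), (0, 7), (1, 4), (1, 7), (2, 5), (2, 6), (3, 6), (3, 7), (4, 6), (4, 7)]

/-- the gadget: an asymmetric graph with 8 vertices of even degrees -/
def GS : SimpleGraph (Fin 8) where
  Adj a b := (a, b) ∈ gE ∨ (b, a) ∈ gE
  symm := ⟨fun _ _ h => h.symm⟩
  loopless := ⟨by decide⟩

instance : DecidableRel GS.Adj := fun a b => inferInstanceAs (Decidable ((a, b) ∈ gE ∨ (b, a) ∈ gE))

/-- the hidden state: a product of four singlets -/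
def psi (x : Fin 8 → Bool) : ℂ :=
  (if x 0 = x 1 then 0 else if x 0 then 1 else -1) * (if x 2 = x 7 then 0 else if x 2 then 1 else -1) *
    (if x 3 = x 4 then 0 else if x 3 then 1 else -1) * (if x 5 = x 6 then 0 else if x 5 then 1 else -1)

/-- the algebra of the gadget: the smallest algebra which contains `∑ X_s` and `∑ Z_s` and is closed under the commutator
with `H_P` of the gadget -/
noncomputable def SS : Subalgebra ℂ (Op (Fin 8)) :=
  sInf {B | HM (Fin 8) ∈ B ∧ (∑ s : Fin 8, pz s) ∈ B ∧ ∀ a ∈ B, HP GS * a - a * HP GS ∈ B}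

/-! ## the graph -/

/-- the core: the square of a cycle with two chords -/
def coreG (m : ℕ) : SimpleGraph (ZMod m) where
  Adj u w := u ≠ w ∧ (w = u + 1 ∨ u = w + 1 ∨ w = u + 2 ∨ u = w + 2 ∨ (u = 0 ∧ w = 3) ∨ (u = 3 ∧ w = 0) ∨
    (u = 1 ∧ w = 5) ∨ (u = 5 ∧ w = 1))
  symm := ⟨by
    intro u w h
    refine ⟨h.1.symm, ?_⟩
    tauto⟩
  loopless := ⟨fun u h => h.1 rfl⟩

/-- the vertices of the component with the set `A` of gadget positions -/
abbrev VA (m : ℕ) (A : Finset (ZMod m)) := ZMod m ⊕ ({p : ZMod m // p ∈ A} × Fin 8)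

/-- the component with the set `A` of gadget positions: all vertices of the gadget `p` are joined to the core vertex `p` -/
def compG (m : ℕ) (A : Finset (ZMod m)) : SimpleGraph (VA m A) where
  Adj x y := match x, y with
    | Sum.inl u, Sum.inl w => (coreG m).Adj u w
    | Sum.inl u, Sum.inr p => u = p.1.1
    | Sum.inr p, Sum.inl u => u = p.1.1
    | Sum.inr p, Sum.inr q => p.1 = q.1 ∧ GS.Adj p.2 q.2
  symm := ⟨by
    rintro (u | p) (w | q) h
    · exact SimpleGraph.Adj.symm h
    · exact h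
    · exact h
    · exact ⟨h.1.symm, SimpleGraph.Adj.symm h.2⟩⟩
  loopless := ⟨by
    rintro (u | p) h
    · exact (coreG m).loopless.1 u h
    · exact GS.loopless.1 _ h.2⟩

/-- the disjoint union of a family of graphs -/
def sigG {Y : Type*} {V : Y → Type*} (G : ∀ y, SimpleGraph (V y)) : SimpleGraph (Σ y, V y) where
  Adj x z := ∃ (y : Y) (a b : V y), x = ⟨y, a⟩ ∧ z = ⟨y, b⟩ ∧ (G y).Adj a b
  symm := ⟨by
    rintro x z ⟨y, a, b, hx, hz, h⟩
    exact ⟨y, b, a, hz, hx, SimpleGraph.Adj.symm h⟩⟩
  loopless := ⟨by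
    rintro x ⟨y, a, b, hx, hz, h⟩
    subst hx
    rw [Sigma.mk.injEq] at hz
    have := eq_of_heq hz.2
    subst this
    exact (G y).loopless.1 a h⟩

/-- the number of core vertices -/
abbrev mm (k : ℕ) : ℕ := k + 24

/-- the position of the gadget number `i` -/
def pos (k : ℕ) (i : Fin k) : ZMod (mm k) := ((12 + (i : ℕ) : ℕ) : ZMod (mm k))

/-- the gadget positions of the components: all (`none`), or all except one -/
def fam (k : ℕ) : Option (Fin k) → Finset (ZMod (mm k))
  | none => Finset.univ.image (pos k)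
  | some i => (Finset.univ.image (pos k)).erase (pos k i)

/-- the vertices of the counterexample -/
abbrev VT (k : ℕ) := Σ y : Option (Fin k), VA (mm k) (fam k y)

/-- the counterexample -/
def totG (k : ℕ) : SimpleGraph (VT k) := sigG fun y => compG (mm k) (fam k y)

open Classical in
/-- the hidden intertwiner `ξ ↦ ψ ⊗ ξ` from the component without the gadget `p` to the component with it -/
noncomputable def hid (m : ℕ) (A : Finset (ZMod m)) (p : {p : ZMod m // p ∈ A}) :
    Matrix (VA m A → Bool) (VA m (A.erase p.1) → Bool) ℂ :=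
  Matrix.of fun x y => if (∀ u : ZMod m, x (Sum.inl u) = y (Sum.inl u)) ∧
      (∀ (q : {q : ZMod m // q ∈ A.erase p.1}) (s : Fin 8),
        x (Sum.inr (⟨q.1, Finset.mem_of_mem_erase q.2⟩, s)) = y (Sum.inr (q, s)))
    then psi (fun s => x (Sum.inr (p, s))) else 0

end Pool.Agent.QAOA.CX
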