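import Pool.Agent.Lib_MP_debdb1_cx.Base

/-!
# Piece GAD: facts on the gadget (finite checks)
-/

set_option autoImplicit false

namespace Pool.Agent.QAOA.CX

open Matrix Pool.Agent.QAOA

namespace GadAux

/-- the singlet -/
def sng (a b : Bool) : ℂ := if a = b then 0 else if a then 1 else -1

theorem psi_eq (x : Fin 8 → Bool) :
    psi x = sng (x 0) (x 1) * sng (x 2) (x 7) * sng (x 3) (x 4) * sng (x 5) (x 6) := rfl

theorem sng_flip (a b : Bool) : sng (!a) b + sng a (!b) = 0 := by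
  cases a <;> cases b <;> simp [sng]

theorem sng_sg (a b : Bool) : (sg a + sg b) * sng a b = 0 := by
  cases a <;> cases b <;> simp [sng, sg]

theorem sng_same (a : Bool) : sng a a = 0 := by simp [sng]

theorem px_mulVec {V : Type*} [Fintype V] [DecidableEq V] (a : V) (v : (V → Bool) → ℂ) (x : V → Bool) :
    ((px a : Op V) *ᵥ v) x = v (QAOA.flip x a) := by
  rw [Matrix.mulVec, dotProduct, Finset.sum_eq_single (QAOA.flip x a)]
  · simp [px, QAOA.flip]
  · intro z _ hz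
    have : (px a : Op V) x z = 0 := by
      simp only [px, Matrix.of_apply]
      rw [if_neg]
      exact hz
    rw [this, zero_mul]
  · intro h
    exact absurd (Finset.mem_univ _) h

theorem HM_mulVec {V : Type*} [Fintype V] [DecidableEq V] (v : (V → Bool) → ℂ) (x : V → Bool) :
    (HM V *ᵥ v) x = ∑ a : V, v (QAOA.flip x a) := by
  rw [HM, Matrix.sum_mulVec, Finset.sum_apply]
  exact Finset.sum_congr rfl fun a _ => px_mulVec a v x

end GadAux

open GadAux

theorem psi_ne : ∃ x, psi x ≠ 0 := by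
  refine ⟨![true, false, true, true, false, true, false, false], ?_⟩
  rw [psi_eq]
  simp [sng]

theorem HM_psi : HM (Fin 8) *ᵥ psi = 0 := by
  funext x
  rw [HM_mulVec, Pi.zero_apply, Fin.sum_univ_eight]
  have f0 : ∀ a b : Fin 8, QAOA.flip x a b = if b = a then !(x b) else x b := by
    intro a b
    by_cases h : b = a
    · subst h; simp [QAOA.flip]
    · simp [QAOA.flip, h]
  simp only [psi_eq, f0]
  simp only [Fin.isValue, reduceIte, Fin.reduceEq]
  have h1 := sng_flip (x 0) (x 1)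
  have h2 := sng_flip (x 2) (x 7)
  have h3 := sng_flip (x 3) (x 4)
  have h4 := sng_flip (x 5) (x 6)
  linear_combination (sng (x 2) (x 7) * sng (x 3) (x 4) * sng (x 5) (x 6)) * h1 +
    (sng (x 0) (x 1) * sng (x 3) (x 4) * sng (x 5) (x 6)) * h2 +
    (sng (x 0) (x 1) * sng (x 2) (x 7) * sng (x 5) (x 6)) * h3 +
    (sng (x 0) (x 1) * sng (x 2) (x 7) * sng (x 3) (x 4)) * h4

theorem Jz_psi : (∑ s : Fin 8, pz s : Op (Fin 8)) *ᵥ psi = 0 := by
  funext x
  rw [Matrix.sum_mulVec, Finset.sum_apply, Pi.zero_apply]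
  have h0 : ∀ s : Fin 8, ((pz s : Op (Fin 8)) *ᵥ psi) x = sg (x s) * psi x := by
    intro s
    rw [pz, Matrix.mulVec_diagonal]
  simp only [h0]
  rw [Fin.sum_univ_eight, psi_eq]
  have h1 := sng_sg (x 0) (x 1)
  have h2 := sng_sg (x 2) (x 7)
  have h3 := sng_sg (x 3) (x 4)
  have h4 := sng_sg (x 5) (x 6)
  linear_combination (sng (x 2) (x 7) * sng (x 3) (x 4) * sng (x 5) (x 6)) * h1 +
    (sng (x 0) (x 1) * sng (x 3) (x 4) * sng (x 5) (x 6)) * h2 +
    (sng (x 0) (x 1) * sng (x 2) (x 7) * sng (x 5) (x 6)) * h3 +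
    (sng (x 0) (x 1) * sng (x 2) (x 7) * sng (x 3) (x 4)) * h4

namespace GadAux

/-- the energy of the gadget over the integers (twice) -/
def en (x : Fin 8 → Bool) : ℤ := ∑ j, ∑ k, if GS.Adj j k then si (x j) * si (x k) else 0

set_option maxRecDepth 100000 in
theorem en_zero : ∀ a b c d : Bool, en ![a, !a, b, c, !c, d, !d, !b] = 0 := by
  decide +kernel

theorem HP_GS : HP GS = Matrix.diagonal (fun x => (1 / 2 : ℂ) * ((en x : ℤ) : ℂ)) := by
  rw [HP_eq, Hw_eq]
  congr 1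
  funext x
  rw [hw, en]
  push_cast
  congr 1
  refine Finset.sum_congr rfl fun j _ => Finset.sum_congr rfl fun k _ => ?_
  by_cases h : GS.Adj j k <;> simp [h]

end GadAux

theorem HP_psi : HP GS *ᵥ psi = 0 := by
  funext x
  rw [HP_GS, Matrix.mulVec_diagonal, Pi.zero_apply]
  by_cases h01 : x 0 = x 1
  · rw [psi_eq, h01, sng_same]; ring
  by_cases h27 : x 2 = x 7
  · rw [psi_eq, h27, sng_same]; ring
  by_cases h34 : x 3 = x 4
  · rw [psi_eq, h34, sng_same]; ring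
  by_cases h56 : x 5 = x 6
  · rw [psi_eq, h56, sng_same]; ring
  have hb : ∀ a b : Bool, ¬ a = b → b = !a := by decide
  have hx : x = ![x 0, !(x 0), x 2, x 3, !(x 3), x 5, !(x 5), !(x 2)] := by
    funext i
    fin_cases i
    · rfl
    · exact hb _ _ h01
    · rfl
    · rfl
    · exact hb _ _ h34
    · rfl
    · exact hb _ _ h56
    · exact hb _ _ h27
  have he : en x = 0 := by
    rw [hx]
    exact en_zero _ _ _ _
  rw [he]
  simp

theorem GS_even (s : Fin 8) : (Finset.univ.filter (fun t => GS.Adj s t)).card % 2 = 0 := by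
  revert s; decide

namespace GadAux

set_option maxRecDepth 100000 in
set_option synthInstance.maxSize 4000 in
theorem rigid_search : ∀ a0 a4 : Fin 8, GS.Adj a0 a4 → ∀ a6 : Fin 8, GS.Adj a0 a6 → GS.Adj a4 a6 →
    ∀ a7 : Fin 8, GS.Adj a0 a7 → GS.Adj a4 a7 → a6 ≠ a7 → ∀ a3 : Fin 8, GS.Adj a3 a6 → GS.Adj a3 a7 → a3 ≠ a0 → a3 ≠ a4 →
    ∀ a1 : Fin 8, GS.Adj a1 a4 → GS.Adj a1 a7 → a1 ≠ a0 → a1 ≠ a6 → a1 ≠ a3 →
    ∀ a5 : Fin 8, GS.Adj a0 a5 → a5 ≠ a4 → a5 ≠ a6 → a5 ≠ a7 → a5 ≠ a3 → a5 ≠ a1 →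
    ∀ a2 : Fin 8, GS.Adj a2 a5 → GS.Adj a2 a6 → a2 ≠ a0 → a2 ≠ a4 → a2 ≠ a7 → a2 ≠ a3 → a2 ≠ a1 →
    a0 = 0 ∧ a1 = 1 ∧ a2 = 2 ∧ a3 = 3 ∧ a4 = 4 ∧ a5 = 5 ∧ a6 = 6 ∧ a7 = 7 := by
  decide +kernel

end GadAux

theorem GS_rigid (f : Fin 8 → Fin 8) (hi : Function.Injective f) (hf : ∀ s t, GS.Adj s t → GS.Adj (f s) (f t)) :
    ∀ s, f s = s := by
  have hn : ∀ s t : Fin 8, s ≠ t → f s ≠ f t := fun s t h h' => h (hi h')
  obtain ⟨h0, h1, h2, h3, h4, h5, h6, h7⟩ := rigid_search (f 0) (f 4) (hf _ _ (by decide)) (f 6) (hf _ _ (by decide))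
    (hf _ _ (by decide)) (f 7) (hf _ _ (by decide)) (hf _ _ (by decide)) (hn _ _ (by decide))
    (f 3) (hf _ _ (by decide)) (hf _ _ (by decide)) (hn _ _ (by decide)) (hn _ _ (by decide))
    (f 1) (hf _ _ (by decide)) (hf _ _ (by decide)) (hn _ _ (by decide)) (hn _ _ (by decide)) (hn _ _ (by decide))
    (f 5) (hf _ _ (by decide)) (hn _ _ (by decide)) (hn _ _ (by decide)) (hn _ _ (by decide)) (hn _ _ (by decide))
    (hn _ _ (by decide))
    (f 2) (hf _ _ (by decide)) (hf _ _ (by decide)) (hn _ _ (by decide)) (hn _ _ (by decide)) (hn _ _ (by decide))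
    (hn _ _ (by decide)) (hn _ _ (by decide))
  intro s
  fin_cases s
  · exact h0
  · exact h1
  · exact h2
  · exact h3
  · exact h4
  · exact h5
  · exact h6
  · exact h7

namespace GadAux

/-- the operators which have `ψ` as an eigenvector -/
def eigAlg : Subalgebra ℂ (Op (Fin 8)) where
  carrier := {s | ∃ c : ℂ, s *ᵥ psi = c • psi}
  mul_mem' := by
    rintro s t ⟨c, hc⟩ ⟨d, hd⟩
    refine ⟨c * d, ?_⟩
    rw [← Matrix.mulVec_mulVec, hd, Matrix.mulVec_smul, hc, smul_smul, mul_comm]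
  add_mem' := by
    rintro s t ⟨c, hc⟩ ⟨d, hd⟩
    exact ⟨c + d, by rw [Matrix.add_mulVec, hc, hd, add_smul]⟩
  algebraMap_mem' := by
    intro r
    refine ⟨r, ?_⟩
    rw [Algebra.algebraMap_eq_smul_one, Matrix.smul_mulVec, Matrix.one_mulVec]

theorem SS_le : SS ≤ eigAlg := by
  refine sInf_le ⟨⟨0, ?_⟩, ⟨0, ?_⟩, ?_⟩
  · rw [HM_psi, zero_smul]
  · rw [Jz_psi, zero_smul]
  · rintro a ⟨c, hc⟩
    refine ⟨0, ?_⟩
    rw [Matrix.sub_mulVec, ← Matrix.mulVec_mulVec, ← Matrix.mulVec_mulVec, hc, HP_psi, Matrix.mulVec_smul, HP_psi]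
    simp

theorem HM_mem_SS : HM (Fin 8) ∈ SS := by
  rw [SS, Algebra.mem_sInf]
  exact fun B hB => hB.1

/-- the annihilator of `ψ` in `SS` -/
noncomputable def annS : Submodule ℂ (Op (Fin 8)) where
  carrier := {s | s ∈ SS ∧ s *ᵥ psi = 0}
  add_mem' := by
    rintro s t ⟨h1, h2⟩ ⟨h3, h4⟩
    exact ⟨SS.add_mem h1 h3, by rw [Matrix.add_mulVec, h2, h4, add_zero]⟩
  zero_mem' := ⟨SS.zero_mem, Matrix.zero_mulVec _⟩
  smul_mem' := by
    rintro c s ⟨h1, h2⟩
    exact ⟨SS.smul_mem h1 c, by rw [Matrix.smul_mulVec, h2, smul_zero]⟩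

theorem one_notMem : (1 : Op (Fin 8)) ∉ annS := by
  rintro ⟨-, h⟩
  rw [Matrix.one_mulVec] at h
  obtain ⟨x, hx⟩ := psi_ne
  exact hx (by rw [h]; rfl)

theorem HM_ne_zero : HM (Fin 8) ≠ 0 := by
  intro h
  have h1 : (HM (Fin 8) *ᵥ (fun _ => (1 : ℂ))) (fun _ => false) = 0 := by
    rw [h, Matrix.zero_mulVec]; rfl
  rw [HM_mulVec] at h1
  simp at h1

end GadAux

/-- the annihilator of `ψ` has codimension 1 in the gadget algebra: a basis of `SS` adapted to it -/
theorem SS_basis : ∃ (n : ℕ) (e : Fin (n + 1) → Op (Fin 8)), 1 ≤ n ∧ Module.finrank ℂ SS = n + 1 ∧ LinearIndependent ℂ e ∧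
    Submodule.span ℂ (Set.range e) = Subalgebra.toSubmodule SS ∧ e 0 = 1 ∧ ∀ i : Fin n, e i.succ *ᵥ psi = 0 := by
  classical
  set n := Module.finrank ℂ annS with hn
  let b := Module.finBasis ℂ annS
  let v : Fin n → Op (Fin 8) := fun i => (b i : Op (Fin 8))
  have hv : LinearIndependent ℂ v := b.linearIndependent.map' annS.subtype (Submodule.ker_subtype _)
  have hspan : Submodule.span ℂ (Set.range v) = annS := by
    have h1 : Set.range v = annS.subtype '' Set.range b := by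
      rw [← Set.range_comp]; rfl
    rw [h1, Submodule.span_image, b.span_eq, Submodule.map_top, Submodule.range_subtype]
  have hli : LinearIndependent ℂ (Fin.cons 1 v : Fin (n + 1) → Op (Fin 8)) := by
    rw [linearIndependent_finCons]
    exact ⟨hv, by rw [hspan]; exact one_notMem⟩
  have hsp : Submodule.span ℂ (Set.range (Fin.cons 1 v : Fin (n + 1) → Op (Fin 8))) = Subalgebra.toSubmodule SS := by
    rw [Fin.range_cons]
    apply le_antisymm
    · rw [Submodule.span_le]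
      rintro s hs
      rcases hs with rfl | ⟨i, rfl⟩
      · exact SS.one_mem
      · exact (b i).2.1
    · intro s hs
      have hs' : s ∈ SS := hs
      obtain ⟨c, hc⟩ := SS_le hs'
      have h2 : s - c • (1 : Op (Fin 8)) ∈ annS :=
        ⟨SS.sub_mem hs' (SS.smul_mem SS.one_mem c), by
          rw [Matrix.sub_mulVec, hc, Matrix.smul_mulVec, Matrix.one_mulVec, sub_self]⟩
      rw [← hspan] at h2
      have h3 : s = c • (1 : Op (Fin 8)) + (s - c • (1 : Op (Fin 8))) := by abel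
      rw [h3]
      refine Submodule.add_mem _ (Submodule.smul_mem _ _ (Submodule.subset_span (Set.mem_insert _ _))) ?_
      exact Submodule.span_mono (Set.subset_insert _ _) h2
  refine ⟨n, Fin.cons 1 v, ?_, ?_, hli, hsp, rfl, ?_⟩
  · by_contra h
    have h0 : Module.finrank ℂ annS = 0 := by omega
    rw [Submodule.finrank_eq_zero] at h0
    have h1 : HM (Fin 8) ∈ annS := ⟨HM_mem_SS, HM_psi⟩
    rw [h0, Submodule.mem_bot] at h1
    exact HM_ne_zero h1
  · have h1 := finrank_span_eq_card hli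
    rw [hsp, Fintype.card_fin] at h1
    exact h1
  · intro i
    rw [Fin.cons_succ]
    exact (b i).2.2

end Pool.Agent.QAOA.CX
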