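import Pool.Agent.Lib_MP_debdb1_cx.Base

/-!
# Piece GRAPH, part 1: the adjacency operator and the first ten steps of the parity refinement
-/

set_option autoImplicit false

namespace Pool.Agent.QAOA.CX.G79

open Pool.Agent.QAOA

variable (k : ℕ)

/-- functions on the core -/
abbrev R := ZMod (mm k) → ZMod 2

/-- the function with the value `φ u` at the core vertices `u` and `γ p` at the vertices of the gadget `p` -/
def Fn (φ γ : R k) : VT k → ZMod 2 := fun x => match x.2 with
  | Sum.inl u => φ u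
  | Sum.inr q => γ q.1.1

/-- the adjacency operator of the core -/
def AC (φ : R k) : R k := fun u =>
  φ (u + 2) + φ (u + 1) + φ (u - 1) + φ (u - 2) + (if u = 3 then φ 0 else 0) +
    (if u = 0 then φ 3 else 0) + (if u = 5 then φ 1 else 0) + (if u = 1 then φ 5 else 0)

/-- the indicator of a core vertex -/
def E (j : ℤ) : R k := fun u => if u = ((j : ℤ) : ZMod (mm k)) then 1 else 0

variable {k}

theorem ne_of' {a b : ℤ} (h : a ≠ b) (h1 : |b - a| < k + 24) :
    (a : ZMod (mm k)) ≠ (b : ZMod (mm k)) := by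
  intro h'
  rw [ZMod.intCast_eq_intCast_iff_dvd_sub] at h'
  have := Int.eq_zero_of_abs_lt_dvd h' (lt_of_lt_of_le h1 (by push_cast; omega))
  omega

theorem ne_of {a b : ℤ} (h : a ≠ b) (h1 : |b - a| < 24) :
    (a : ZMod (mm k)) ≠ (b : ZMod (mm k)) := by
  intro h'
  rw [ZMod.intCast_eq_intCast_iff_dvd_sub] at h'
  have := Int.eq_zero_of_abs_lt_dvd h' (lt_of_lt_of_le h1 (by push_cast; omega))
  omega

/-! ### the adjacency of the core -/

/-- the differences -/
def ff : Fin 8 → ℤ := ![2, 1, -1, -2, -3, 3, -4, 4]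

/-- the cases of the adjacency -/
def cc (u w : ZMod (mm k)) : Fin 8 → Prop :=
  ![w = u + 2, w = u + 1, w = u - 1, w = u - 2, u = 3 ∧ w = 0, u = 0 ∧ w = 3, u = 5 ∧ w = 1, u = 1 ∧ w = 5]

theorem cc_diff {u w : ZMod (mm k)} (i : Fin 8) (h : cc u w i) : w = u + ((ff i : ℤ) : ZMod (mm k)) := by
  fin_cases i
  · simpa [cc, ff] using h
  · simpa [cc, ff] using h
  · have h' : w = u - 1 := h
    rw [h']; simp [ff]; ring
  · have h' : w = u - 2 := h
    rw [h']; simp [ff]; ring
  · obtain ⟨rfl, rfl⟩ : u = 3 ∧ w = 0 := h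
    simp [ff]
  · obtain ⟨rfl, rfl⟩ : u = 0 ∧ w = 3 := h
    simp [ff]
  · obtain ⟨rfl, rfl⟩ : u = 5 ∧ w = 1 := h
    simp [ff]; ring
  · obtain ⟨rfl, rfl⟩ : u = 1 ∧ w = 5 := h
    simp [ff]; ring

theorem ff_inj : ∀ i j : Fin 8, ff i = ff j → i = j := by decide

theorem ff_le : ∀ i j : Fin 8, |ff i - ff j| < 24 := by decide

theorem ff_ne : ∀ i : Fin 8, ff i ≠ 0 ∧ |0 - ff i| < 24 := by decide

theorem cc_unique {u w : ZMod (mm k)} {i j : Fin 8} (hi : cc u w i) (hj : cc u w j) : i = j := by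
  by_contra h
  have h1 := cc_diff i hi
  have h2 := cc_diff j hj
  rw [h1] at h2
  exact ne_of (fun h' => h (ff_inj i j h')) (ff_le j i) (add_left_cancel h2)

theorem adj_iff (u w : ZMod (mm k)) : (coreG (mm k)).Adj u w ↔ ∃ i, cc u w i := by
  constructor
  · rintro ⟨h0, h | h | h | h | h | h | h | h⟩
    · exact ⟨1, h⟩
    · exact ⟨2, show w = u - 1 by rw [h]; ring⟩
    · exact ⟨0, h⟩
    · exact ⟨3, show w = u - 2 by rw [h]; ring⟩
    · exact ⟨5, h⟩
    · exact ⟨4, h⟩
    · exact ⟨7, h⟩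
    · exact ⟨6, h⟩
  · rintro ⟨i, hi⟩
    refine ⟨?_, ?_⟩
    · intro h
      have h1 := cc_diff i hi
      rw [← h] at h1
      have h2 : ((ff i : ℤ) : ZMod (mm k)) = ((0 : ℤ) : ZMod (mm k)) := by
        rw [Int.cast_zero]
        exact (add_eq_left.1 h1.symm)
      exact ne_of (ff_ne i).1 (ff_ne i).2 h2
    · fin_cases i
      · exact Or.inr (Or.inr (Or.inl hi))
      · exact Or.inl hi
      · right; left
        have h' : w = u - 1 := hi
        rw [h']; ring
      · right; right; right; left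
        have h' : w = u - 2 := hi
        rw [h']; ring
      · exact Or.inr (Or.inr (Or.inr (Or.inr (Or.inr (Or.inl hi)))))
      · exact Or.inr (Or.inr (Or.inr (Or.inr (Or.inl hi))))
      · exact Or.inr (Or.inr (Or.inr (Or.inr (Or.inr (Or.inr (Or.inr hi))))))
      · exact Or.inr (Or.inr (Or.inr (Or.inr (Or.inr (Or.inr (Or.inl hi))))))

open Classical in
theorem adj_sum (u w : ZMod (mm k)) : (if (coreG (mm k)).Adj u w then (1 : ZMod 2) else 0) =
    ∑ i : Fin 8, if cc u w i then 1 else 0 := by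
  by_cases h : ∃ i, cc u w i
  · obtain ⟨i, hi⟩ := h
    rw [if_pos ((adj_iff u w).2 ⟨i, hi⟩), Finset.sum_eq_single i]
    · rw [if_pos hi]
    · intro j _ hj
      rw [if_neg (fun h => hj (cc_unique h hi))]
    · intro h
      exact absurd (Finset.mem_univ _) h
  · rw [if_neg (fun h' => h ((adj_iff u w).1 h'))]
    symm
    apply Finset.sum_eq_zero
    intro i _
    rw [if_neg (fun h' => h ⟨i, h'⟩)]

open Classical in
theorem core_sum (φ : R k) (u : ZMod (mm k)) :
    ∑ w, (if (coreG (mm k)).Adj u w then φ w else 0) = AC k φ u := by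
  have h1 : ∀ w, (if (coreG (mm k)).Adj u w then φ w else 0) =
      ∑ i : Fin 8, if cc u w i then φ w else 0 := by
    intro w
    have h2 : (if (coreG (mm k)).Adj u w then φ w else 0) =
        (if (coreG (mm k)).Adj u w then (1 : ZMod 2) else 0) * φ w := by split_ifs <;> simp
    rw [h2, adj_sum, Finset.sum_mul]
    apply Finset.sum_congr rfl
    intro i _
    split_ifs <;> simp
  simp_rw [h1]
  rw [Finset.sum_comm]
  have h3 : ∀ (P : ZMod (mm k) → Prop) (a : ZMod (mm k)), (∀ w, P w ↔ w = a) →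
      (∑ w, if P w then φ w else 0) = φ a := by
    intro P a hP
    rw [Finset.sum_eq_single a]
    · exact if_pos ((hP a).2 rfl)
    · intro w _ hw
      exact if_neg (fun h => hw ((hP w).1 h))
    · intro h
      exact absurd (Finset.mem_univ _) h
  have h4 : ∀ (P : ZMod (mm k) → Prop) (a b : ZMod (mm k)), (∀ w, P w ↔ u = a ∧ w = b) →
      (∑ w, if P w then φ w else 0) = if u = a then φ b else 0 := by
    intro P a b hP
    by_cases h : u = a
    · rw [if_pos h]
      exact h3 P b (fun w => ⟨fun h' => ((hP w).1 h').2, fun h' => (hP w).2 ⟨h, h'⟩⟩)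
    · rw [if_neg h]
      exact Finset.sum_eq_zero fun w _ => if_neg (fun h' => h ((hP w).1 h').1)
  rw [Fin.sum_univ_eight]
  have e0 := h3 (fun w => cc u w 0) (u + 2) fun w => Iff.rfl
  have e1 := h3 (fun w => cc u w 1) (u + 1) fun w => Iff.rfl
  have e2 := h3 (fun w => cc u w 2) (u - 1) fun w => Iff.rfl
  have e3 := h3 (fun w => cc u w 3) (u - 2) fun w => Iff.rfl
  have e4 := h4 (fun w => cc u w 4) 3 0 fun w => Iff.rfl
  have e5 := h4 (fun w => cc u w 5) 0 3 fun w => Iff.rfl
  have e6 := h4 (fun w => cc u w 6) 5 1 fun w => Iff.rfl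
  have e7 := h4 (fun w => cc u w 7) 1 5 fun w => Iff.rfl
  rw [e0, e1, e2, e3, e4, e5, e6, e7, AC]

/-! ### the adjacency of the whole graph -/

theorem sigG_same {Y : Type*} {V : Y → Type*} (G : ∀ y, SimpleGraph (V y)) (y : Y) (a b : V y) :
    (sigG G).Adj ⟨y, a⟩ ⟨y, b⟩ ↔ (G y).Adj a b := by
  constructor
  · rintro ⟨y', a', b', h1, h2, h⟩
    rw [Sigma.mk.injEq] at h1 h2
    obtain ⟨rfl, h1⟩ := h1
    have h1 := eq_of_heq h1
    have h2 := eq_of_heq h2.2
    subst h1 h2
    exact h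
  · intro h
    exact ⟨y, a, b, rfl, rfl, h⟩

theorem sigG_diff {Y : Type*} {V : Y → Type*} (G : ∀ y, SimpleGraph (V y)) {y z : Y} (hyz : y ≠ z) (a : V y)
    (b : V z) : ¬ (sigG G).Adj ⟨y, a⟩ ⟨z, b⟩ := by
  rintro ⟨y', a', b', h1, h2, h⟩
  rw [Sigma.mk.injEq] at h1 h2
  exact hyz (h1.1.trans h2.1.symm)

open Classical in
theorem tot_sum (f : VT k → ZMod 2) (y : Option (Fin k)) (a : VA (mm k) (fam k y)) :
    (∑ z, if (totG k).Adj ⟨y, a⟩ z then f z else 0) =
      (∑ w : ZMod (mm k), if (compG (mm k) (fam k y)).Adj a (Sum.inl w) then f ⟨y, Sum.inl w⟩ else 0) +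
      ∑ p : {p : ZMod (mm k) // p ∈ fam k y}, ∑ t : Fin 8,
        if (compG (mm k) (fam k y)).Adj a (Sum.inr (p, t)) then f ⟨y, Sum.inr (p, t)⟩ else 0 := by
  rw [Fintype.sum_sigma, Finset.sum_eq_single y]
  · rw [Fintype.sum_sum_type, Fintype.sum_prod_type]
    congr 1
    · apply Finset.sum_congr rfl
      intro w _
      exact if_congr (sigG_same _ _ _ _) rfl rfl
    · apply Finset.sum_congr rfl
      intro p _
      apply Finset.sum_congr rfl
      intro t _
      exact if_congr (sigG_same _ _ _ _) rfl rfl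
  · intro z _ hz
    apply Finset.sum_eq_zero
    intro b _
    exact if_neg (sigG_diff (V := fun y => VA (mm k) (fam k y)) (fun y => compG (mm k) (fam k y)) hz.symm a b)
  · intro h
    exact absurd (Finset.mem_univ _) h

theorem GS_even' (s : Fin 8) : (∑ t : Fin 8, if GS.Adj s t then (1 : ZMod 2) else 0) = 0 := by
  revert s; decide

open Classical in
/-- the adjacency operator of the whole graph -/
theorem tot_Fn (φ γ : R k) :
    (fun x => ∑ z, if (totG k).Adj x z then Fn k φ γ z else 0) = Fn k (AC k φ) φ := by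
  funext x
  obtain ⟨y, u | ⟨p, s⟩⟩ := x
  · rw [tot_sum]
    have h1 : (∑ w : ZMod (mm k), if (compG (mm k) (fam k y)).Adj (Sum.inl u) (Sum.inl w) then
        Fn k φ γ ⟨y, Sum.inl w⟩ else 0) = AC k φ u := by
      rw [← core_sum]
      exact Finset.sum_congr rfl fun w _ => if_congr Iff.rfl rfl rfl
    have h2 : (∑ p : {p : ZMod (mm k) // p ∈ fam k y}, ∑ t : Fin 8,
        if (compG (mm k) (fam k y)).Adj (Sum.inl u) (Sum.inr (p, t)) then
          Fn k φ γ ⟨y, Sum.inr (p, t)⟩ else 0) = 0 := by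
      apply Finset.sum_eq_zero
      intro p _
      have h3 : ∀ t : Fin 8, (if (compG (mm k) (fam k y)).Adj (Sum.inl u) (Sum.inr (p, t)) then
          Fn k φ γ ⟨y, Sum.inr (p, t)⟩ else 0) = if u = p.1 then γ p.1 else 0 := by
        intro t
        exact if_congr Iff.rfl rfl rfl
      simp_rw [h3]
      rw [Finset.sum_const, Finset.card_univ, Fintype.card_fin, nsmul_eq_mul]
      have h4 : ((8 : ℕ) : ZMod 2) = 0 := by decide
      rw [h4, zero_mul]
    rw [h1, h2, add_zero]
    rfl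
  · rw [tot_sum]
    have h1 : (∑ w : ZMod (mm k), if (compG (mm k) (fam k y)).Adj (Sum.inr (p, s)) (Sum.inl w) then
        Fn k φ γ ⟨y, Sum.inl w⟩ else 0) = φ p.1 := by
      have h3 : ∀ w : ZMod (mm k), (if (compG (mm k) (fam k y)).Adj (Sum.inr (p, s)) (Sum.inl w) then
          Fn k φ γ ⟨y, Sum.inl w⟩ else 0) = if w = p.1 then φ w else 0 := by
        intro w
        exact if_congr Iff.rfl rfl rfl
      simp_rw [h3]
      rw [Finset.sum_ite_eq' Finset.univ p.1]
      simp
    have h2 : (∑ q : {p : ZMod (mm k) // p ∈ fam k y}, ∑ t : Fin 8,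
        if (compG (mm k) (fam k y)).Adj (Sum.inr (p, s)) (Sum.inr (q, t)) then
          Fn k φ γ ⟨y, Sum.inr (q, t)⟩ else 0) = 0 := by
      apply Finset.sum_eq_zero
      intro q _
      have h3 : ∀ t : Fin 8, (if (compG (mm k) (fam k y)).Adj (Sum.inr (p, s)) (Sum.inr (q, t)) then
          Fn k φ γ ⟨y, Sum.inr (q, t)⟩ else 0) =
            (if p = q then γ q.1 else 0) * (if GS.Adj s t then (1 : ZMod 2) else 0) := by
        intro t
        have h5 : (if (compG (mm k) (fam k y)).Adj (Sum.inr (p, s)) (Sum.inr (q, t)) then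
          Fn k φ γ ⟨y, Sum.inr (q, t)⟩ else 0) = if p = q ∧ GS.Adj s t then γ q.1 else 0 :=
          if_congr Iff.rfl rfl rfl
        rw [h5]
        by_cases h6 : p = q <;> by_cases h7 : GS.Adj s t <;> simp [h6, h7]
      simp_rw [h3]
      rw [← Finset.mul_sum]
      have h9 : (∑ t : Fin 8, if GS.Adj s t then (1 : ZMod 2) else 0) = 0 :=
        (Finset.sum_congr rfl fun t _ => if_congr Iff.rfl rfl rfl).trans (GS_even' s)
      exact (congrArg _ h9).trans (mul_zero _)
    rw [h1, h2, add_zero]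
    rfl

/-! ### the algebra of the functions -/

theorem Fn_add (φ γ φ' γ' : R k) : Fn k (φ + φ') (γ + γ') = Fn k φ γ + Fn k φ' γ' := by
  funext x; rcases x with ⟨y, u | q⟩ <;> rfl

theorem Fn_mul (φ γ φ' γ' : R k) : Fn k (φ * φ') (γ * γ') = Fn k φ γ * Fn k φ' γ' := by
  funext x; rcases x with ⟨y, u | q⟩ <;> rfl

theorem Fn_one : Fn k 1 1 = fun _ => 1 := by
  funext x; rcases x with ⟨y, u | q⟩ <;> rfl

theorem mem_fam {y : Option (Fin k)} {p : ZMod (mm k)} (h : p ∈ fam k y) : ∃ i, p = pos k i := by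
  cases y with
  | none =>
    obtain ⟨i, -, hi⟩ := Finset.mem_image.1 (show p ∈ Finset.univ.image (pos k) from h)
    exact ⟨i, hi.symm⟩
  | some j =>
    have h' : p ∈ (Finset.univ.image (pos k)).erase (pos k j) := h
    obtain ⟨i, -, hi⟩ := Finset.mem_image.1 (Finset.mem_of_mem_erase h')
    exact ⟨i, hi.symm⟩

/-- the functions which vanish at the positions of the gadgets -/
def good (φ : R k) : Prop := ∀ i, φ (pos k i) = 0

theorem Fn_good {φ γ : R k} (h : good γ) : Fn k φ γ = Fn k φ 0 := by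
  funext x; rcases x with ⟨y, u | q⟩
  · rfl
  · obtain ⟨i, hi⟩ := mem_fam q.1.2
    change γ q.1.1 = 0
    rw [hi]
    exact h i

theorem good_add {φ ψ : R k} (h1 : good φ) (h2 : good ψ) : good (φ + ψ) := fun i => by
  rw [Pi.add_apply, h1, h2, add_zero]

theorem good_E {j : ℤ} (h1 : -12 ≤ j) (h2 : j ≤ 11) : good (E k j) := by
  intro i
  refine if_neg (fun h => ?_)
  have h' : (((12 + (i : ℕ) : ℕ) : ℤ) : ZMod (mm k)) = ((j : ℤ) : ZMod (mm k)) := by
    rw [← h]
    simp [pos]
  rw [ZMod.intCast_eq_intCast_iff_dvd_sub] at h'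
  have hi := i.2
  have h3 := Int.eq_zero_of_abs_lt_dvd h' (by rw [abs_lt]; push_cast; constructor <;> omega)
  push_cast at h3
  omega

theorem E_mul {i j : ℤ} (h : |j - i| < 24) : E k i * E k j = if i = j then E k i else 0 := by
  funext u
  by_cases hij : i = j
  · subst hij
    rw [if_pos rfl]
    simp only [E, Pi.mul_apply]
    split_ifs <;> simp
  · rw [if_neg hij]
    simp only [E, Pi.mul_apply, Pi.zero_apply]
    split_ifs with h1 h2
    · exact absurd (h1.symm.trans h2) (ne_of hij h)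
    all_goals simp

theorem E_mul_self (i : ℤ) : E k i * E k i = E k i := by
  rw [E_mul (by simp), if_pos rfl]

theorem E_mul_ne (i j : ℤ) (hij : i ≠ j) (h : |j - i| < 24) : E k i * E k j = 0 := by
  rw [E_mul h, if_neg hij]

theorem AC_add (φ ψ : R k) : AC k (φ + ψ) = AC k φ + AC k ψ := by
  funext u
  simp only [AC, Pi.add_apply]
  split_ifs <;> ring

theorem AC_E (j : ℤ) : AC k (E k j) = E k (j - 2) + E k (j - 1) + E k (j + 1) + E k (j + 2) +
    (if (0 : ZMod (mm k)) = (j : ZMod (mm k)) then E k 3 else 0) +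
    (if (3 : ZMod (mm k)) = (j : ZMod (mm k)) then E k 0 else 0) +
    (if (1 : ZMod (mm k)) = (j : ZMod (mm k)) then E k 5 else 0) +
    (if (5 : ZMod (mm k)) = (j : ZMod (mm k)) then E k 1 else 0) := by
  funext u
  have e1 : E k j (u + 2) = E k (j - 2) u := by
    simp only [E]
    exact if_congr (by push_cast; exact (eq_sub_iff_add_eq).symm) rfl rfl
  have e2 : E k j (u + 1) = E k (j - 1) u := by
    simp only [E]
    exact if_congr (by push_cast; exact (eq_sub_iff_add_eq).symm) rfl rfl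
  have e3 : E k j (u - 1) = E k (j + 1) u := by
    simp only [E]
    exact if_congr (by push_cast; exact sub_eq_iff_eq_add) rfl rfl
  have e4 : E k j (u - 2) = E k (j + 2) u := by
    simp only [E]
    exact if_congr (by push_cast; exact sub_eq_iff_eq_add) rfl rfl
  simp only [AC, e1, e2, e3, e4, Pi.add_apply]
  have e5 : ∀ (a : ZMod (mm k)) (b : ℤ), (if u = ((b : ℤ) : ZMod (mm k)) then E k j a else 0) =
      (if a = ((j : ℤ) : ZMod (mm k)) then E k b else 0) u := by
    intro a b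
    by_cases h1 : a = ((j : ℤ) : ZMod (mm k)) <;> by_cases h2 : u = ((b : ℤ) : ZMod (mm k)) <;>
      simp [E, h1, h2]
  have f3 := e5 0 3
  have f0 := e5 3 0
  have f5 := e5 1 5
  have f1 := e5 5 1
  push_cast at f3 f0 f5 f1
  rw [f3, f0, f5, f1]

theorem AC_lit (j : ℤ) (h1 : -12 ≤ j) (h2 : j ≤ 11) : AC k (E k j) =
    E k (j - 2) + E k (j - 1) + E k (j + 1) + E k (j + 2) +
    (if 0 = j then E k 3 else 0) + (if 3 = j then E k 0 else 0) +
    (if 1 = j then E k 5 else 0) + (if 5 = j then E k 1 else 0) := by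
  rw [AC_E]
  have h : ∀ a : ℤ, 0 ≤ a → a ≤ 5 → ((a : ZMod (mm k)) = (j : ZMod (mm k)) ↔ a = j) := by
    intro a ha ha'
    constructor
    · intro h
      by_contra hne
      exact ne_of hne (by rw [abs_lt]; constructor <;> omega) h
    · rintro rfl; rfl
  have g0 := h 0 (by norm_num) (by norm_num)
  have g1 := h 1 (by norm_num) (by norm_num)
  have g3 := h 3 (by norm_num) (by norm_num)
  have g5 := h 5 (by norm_num) (by norm_num)
  push_cast at g0 g1 g3 g5
  simp only [g0, g1, g3, g5]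

theorem two_eq : (2 : R k) = 0 := by
  funext u
  change (2 : ZMod 2) = 0
  decide

theorem AC_one : AC k 1 = E k 0 + E k 1 + E k 3 + E k 5 := by
  funext u
  simp only [AC, E, Pi.add_apply, Pi.one_apply]
  push_cast
  have h : (1 : ZMod 2) + 1 + 1 + 1 = 0 := by decide
  rw [h]
  ring

section chain

variable (D : Set (VT k → ZMod 2)) (h1 : (fun _ => 1) ∈ D) (hadd : ∀ f ∈ D, ∀ g ∈ D, f + g ∈ D)
    (hmul : ∀ f ∈ D, ∀ g ∈ D, f * g ∈ D)

include h1 hadd hmul in
open Classical in
/-- the first ten steps -/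
theorem chain (hA : ∀ f ∈ D, (fun x => ∑ y, if (totG k).Adj x y then f y else 0) ∈ D) :
    (∀ j : ℤ, -2 ≤ j → j ≤ 7 → Fn k (E k j) 0 ∈ D) ∧ Fn k 1 0 ∈ D := by
  let Dp : R k → Prop := fun φ => Fn k φ 0 ∈ D
  have h2 : (2 : R k) = 0 := two_eq
  have hadd' : ∀ {φ ψ : R k}, Dp φ → Dp ψ → Dp (φ + ψ) := by
    intro φ ψ hφ hψ
    have := hadd _ hφ _ hψ
    rwa [← Fn_add, add_zero] at this
  have hmul' : ∀ {φ ψ : R k}, Dp φ → Dp ψ → Dp (φ * ψ) := by
    intro φ ψ hφ hψ
    have := hmul _ hφ _ hψ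
    rwa [← Fn_mul, mul_zero] at this
  have hAg : ∀ {φ γ : R k}, Fn k φ γ ∈ D → Fn k (AC k φ) φ ∈ D := by
    intro φ γ h
    rw [← tot_Fn φ γ]
    exact hA _ h
  have hAC : ∀ {φ : R k}, Dp φ → good φ → Dp (AC k φ) := by
    intro φ h hg
    change Fn k (AC k φ) 0 ∈ D
    rw [← Fn_good hg]
    exact hAg h
  have g : ∀ j : ℤ, -12 ≤ j → j ≤ 11 → good (E k j) := fun j => good_E
  have am2 : AC k (E k (-2)) = E k (-4) + E k (-3) + E k (-1) + E k 0 := by
    rw [AC_lit _ (by norm_num) (by norm_num)]; norm_num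
  have am1 : AC k (E k (-1)) = E k (-3) + E k (-2) + E k 0 + E k 1 := by
    rw [AC_lit _ (by norm_num) (by norm_num)]; norm_num
  have a0 : AC k (E k 0) = E k (-2) + E k (-1) + E k 1 + E k 2 + E k 3 := by
    rw [AC_lit _ (by norm_num) (by norm_num)]; norm_num
  have a1 : AC k (E k 1) = E k (-1) + E k 0 + E k 2 + E k 3 + E k 5 := by
    rw [AC_lit _ (by norm_num) (by norm_num)]; norm_num
  have a2 : AC k (E k 2) = E k 0 + E k 1 + E k 3 + E k 4 := by
    rw [AC_lit _ (by norm_num) (by norm_num)]; norm_num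
  have a3 : AC k (E k 3) = E k 1 + E k 2 + E k 4 + E k 5 + E k 0 := by
    rw [AC_lit _ (by norm_num) (by norm_num)]; norm_num
  have a4 : AC k (E k 4) = E k 2 + E k 3 + E k 5 + E k 6 := by
    rw [AC_lit _ (by norm_num) (by norm_num)]; norm_num
  have a5 : AC k (E k 5) = E k 3 + E k 4 + E k 6 + E k 7 + E k 1 := by
    rw [AC_lit _ (by norm_num) (by norm_num)]; norm_num
  have a6 : AC k (E k 6) = E k 4 + E k 5 + E k 7 + E k 8 := by
    rw [AC_lit _ (by norm_num) (by norm_num)]; norm_num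
  have a7 : AC k (E k 7) = E k 5 + E k 6 + E k 8 + E k 9 := by
    rw [AC_lit _ (by norm_num) (by norm_num)]; norm_num
  have m : ∀ i : ℤ, E k i * E k i = E k i := E_mul_self
  have z : ∀ i j : ℤ, i ≠ j → |j - i| < 24 → E k i * E k j = 0 := E_mul_ne
  have hone : Fn k 1 1 ∈ D := by rw [Fn_one]; exact h1
  have hDg : Fn k (E k 0 + E k 1 + E k 3 + E k 5) 1 ∈ D := by
    rw [← AC_one]
    exact hAg hone
  have c1 : Dp (E k (-2) + E k 1 + E k 2 + E k 3 + E k 6 + E k 7) := by
    have h := hAg hDg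
    rw [Fn_good (good_add (good_add (good_add (g 0 (by norm_num) (by norm_num)) (g 1 (by norm_num) (by norm_num)))
      (g 3 (by norm_num) (by norm_num))) (g 5 (by norm_num) (by norm_num)))] at h
    refine Eq.subst (motive := Dp) ?_ h
    simp only [AC_add, a0, a1, a3, a5]
    linear_combination (E k (-1) + E k 0 + E k 1 + E k 2 + E k 3 + E k 4 + E k 5) * h2
  have c2 : Dp (E k 1 + E k 3) := by
    have h := hmul _ hDg _ c1
    rw [← Fn_mul, mul_zero] at h
    refine Eq.subst (motive := Dp) ?_ h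
    simp [add_mul, mul_add, m, z]
  have c3 : Dp (E k (-2) + E k 2 + E k 6 + E k 7) := by
    refine Eq.subst (motive := Dp) ?_ (hadd' c1 c2)
    linear_combination (E k 1 + E k 3) * h2
  have c4 : Dp (E k (-1) + E k 1 + E k 3 + E k 4) := by
    refine Eq.subst (motive := Dp) ?_ (hAC c2 (good_add (g (1) (by norm_num) (by norm_num)) (g (3) (by norm_num) (by norm_num))))
    simp only [AC_add, a1, a3]
    linear_combination (E k 0 + E k 2 + E k 5) * h2
  have c5 : Dp (E k (-1) + E k 4) := by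
    refine Eq.subst (motive := Dp) ?_ (hadd' c4 c2)
    linear_combination (E k 1 + E k 3) * h2
  have c6 : Dp (E k (-4) + E k (-3) + E k (-1) + E k 1 + E k 3 + E k 6 + E k 7 + E k 9) := by
    refine Eq.subst (motive := Dp) ?_ (hAC c3 (good_add (good_add (good_add (g (-2) (by norm_num) (by norm_num)) (g (2) (by norm_num) (by norm_num))) (g (6) (by norm_num) (by norm_num))) (g (7) (by norm_num) (by norm_num))))
    simp only [AC_add, am2, a2, a6, a7]
    linear_combination (E k 0 + E k 4 + E k 5 + E k 8) * h2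
  have c7 : Dp (E k (-1)) := by
    refine Eq.subst (motive := Dp) ?_ (hmul' c6 c5)
    simp [add_mul, mul_add, m, z]
  have c8 : Dp (E k 4) := by
    refine Eq.subst (motive := Dp) ?_ (hadd' c5 c7)
    linear_combination (E k (-1)) * h2
  have c9 : Dp (E k 6 + E k 7) := by
    refine Eq.subst (motive := Dp) ?_ (hmul' c6 c3)
    simp [add_mul, mul_add, m, z]
  have c10 : Dp (E k (-2) + E k 2) := by
    refine Eq.subst (motive := Dp) ?_ (hadd' c3 c9)
    linear_combination (E k 6 + E k 7) * h2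
  have c11 : Dp (E k (-3) + E k (-2) + E k 0 + E k 1) := by
    refine Eq.subst (motive := Dp) ?_ (hAC c7 (g (-1) (by norm_num) (by norm_num)))
    simp only [am1]
    
  have c12 : Dp (E k (-2)) := by
    refine Eq.subst (motive := Dp) ?_ (hmul' c11 c10)
    simp [add_mul, mul_add, m, z]
  have c13 : Dp (E k 2) := by
    refine Eq.subst (motive := Dp) ?_ (hadd' c10 c12)
    linear_combination (E k (-2)) * h2
  have c14 : Dp (E k 1) := by
    refine Eq.subst (motive := Dp) ?_ (hmul' c11 c2)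
    simp [add_mul, mul_add, m, z]
  have c15 : Dp (E k 3) := by
    refine Eq.subst (motive := Dp) ?_ (hadd' c2 c14)
    linear_combination (E k 1) * h2
  have c16 : Dp (E k 2 + E k 3 + E k 5 + E k 6) := by
    refine Eq.subst (motive := Dp) ?_ (hAC c8 (g (4) (by norm_num) (by norm_num)))
    simp only [a4]
    
  have c17 : Dp (E k 6) := by
    refine Eq.subst (motive := Dp) ?_ (hmul' c16 c9)
    simp [add_mul, mul_add, m, z]
  have c18 : Dp (E k 7) := by
    refine Eq.subst (motive := Dp) ?_ (hadd' c9 c17)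
    linear_combination (E k 6) * h2
  have c19 : Dp (E k 5) := by
    refine Eq.subst (motive := Dp) ?_ (hadd' (hadd' (hadd' c16 c13) c15) c17)
    linear_combination (E k 2 + E k 3 + E k 6) * h2
  have c20 : Dp (E k 0 + E k 1 + E k 3 + E k 4) := by
    refine Eq.subst (motive := Dp) ?_ (hAC c13 (g (2) (by norm_num) (by norm_num)))
    simp only [a2]
    
  have c21 : Dp (E k 0) := by
    refine Eq.subst (motive := Dp) ?_ (hadd' (hadd' (hadd' c20 c14) c15) c8)
    linear_combination (E k 1 + E k 3 + E k 4) * h2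
  refine ⟨?_, ?_⟩
  · intro j hj1 hj2
    interval_cases j
    · exact c12
    · exact c7
    · exact c21
    · exact c14
    · exact c13
    · exact c15
    · exact c8
    · exact c19
    · exact c17
    · exact c18
  · have c22 : Dp (E k 0 + E k 1 + E k 3 + E k 5) := hadd' (hadd' (hadd' c21 c14) c15) c19
    have c23 := hadd _ hDg _ c22
    have c24 := hadd _ hone _ c23
    rw [← Fn_add, ← Fn_add] at c24
    have e1 : (1 : R k) + ((E k 0 + E k 1 + E k 3 + E k 5) + (E k 0 + E k 1 + E k 3 + E k 5)) = 1 := by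
      linear_combination (E k 0 + E k 1 + E k 3 + E k 5) * h2
    have e2 : (1 : R k) + (1 + 0) = 0 := by
      linear_combination h2
    rwa [e1, e2] at c24

include h1 hadd hmul in
open Classical in
/-- all core vertices -/
theorem chain_all (hA : ∀ f ∈ D, (fun x => ∑ y, if (totG k).Adj x y then f y else 0) ∈ D) (u : ZMod (mm k)) :
    ∃ j : ℤ, ((j : ℤ) : ZMod (mm k)) = u ∧ Fn k (E k j) 0 ∈ D := by
  obtain ⟨hs, hc⟩ := chain D h1 hadd hmul hA
  have h2 : (2 : R k) = 0 := two_eq
  have hP : ∀ n : ℕ, n ≤ k + 14 → ∀ j : ℤ, -2 ≤ j → j ≤ n + 7 → Fn k (E k j) 0 ∈ D := by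
    intro n
    induction n with
    | zero => intro _ j hj1 hj2; exact hs j hj1 (by simpa using hj2)
    | succ n ih =>
      intro hn j hj1 hj2
      by_cases hj : j ≤ n + 7
      · exact ih (by omega) j hj1 hj
      · have hj' : j = ((n : ℤ) + 6) + 2 := by push_cast at hj2; omega
        have i0 := ih (by omega) ((n : ℤ) + 6) (by omega) (by omega)
        have i1 := ih (by omega) ((n : ℤ) + 6 - 2) (by omega) (by omega)
        have i2 := ih (by omega) ((n : ℤ) + 6 - 1) (by omega) (by omega)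
        have i3 := ih (by omega) ((n : ℤ) + 6 + 1) (by omega) (by omega)
        have a0 : ((0 : ℤ) : ZMod (mm k)) ≠ (((n : ℤ) + 6 : ℤ) : ZMod (mm k)) :=
          ne_of' (by omega) (by rw [abs_lt]; constructor <;> omega)
        have a1 : ((1 : ℤ) : ZMod (mm k)) ≠ (((n : ℤ) + 6 : ℤ) : ZMod (mm k)) :=
          ne_of' (by omega) (by rw [abs_lt]; constructor <;> omega)
        have a3 : ((3 : ℤ) : ZMod (mm k)) ≠ (((n : ℤ) + 6 : ℤ) : ZMod (mm k)) :=
          ne_of' (by omega) (by rw [abs_lt]; constructor <;> omega)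
        have a5 : ((5 : ℤ) : ZMod (mm k)) ≠ (((n : ℤ) + 6 : ℤ) : ZMod (mm k)) :=
          ne_of' (by omega) (by rw [abs_lt]; constructor <;> omega)
        rw [Int.cast_zero] at a0
        rw [Int.cast_one] at a1
        rw [Int.cast_ofNat] at a3 a5
        have hac := AC_E (k := k) ((n : ℤ) + 6)
        rw [if_neg a0, if_neg a1, if_neg a3, if_neg a5] at hac
        have q1 := hA _ i0
        rw [tot_Fn, hac] at q1
        have q2 := hmul _ q1 _ hc
        rw [← Fn_mul] at q2
        have q3 := hadd _ (hadd _ (hadd _ q2 _ i1) _ i2) _ i3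
        rw [← Fn_add, ← Fn_add, ← Fn_add] at q3
        rw [hj']
        convert q3 using 2
        · linear_combination (-E k ((n : ℤ) + 6 - 2) - E k ((n : ℤ) + 6 - 1) - E k ((n : ℤ) + 6 + 1)) * h2
        · simp
  have hu : u.val < k + 24 := ZMod.val_lt u
  by_cases h : u.val ≤ k + 21
  · refine ⟨(u.val : ℤ), ?_, hP (k + 14) le_rfl _ (by omega) (by push_cast; omega)⟩
    rw [Int.cast_natCast, ZMod.natCast_zmod_val]
  · have hm : ((k : ZMod (mm k)) + 24) = 0 := by
      have := ZMod.natCast_self (mm k)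
      push_cast at this
      exact this
    have h3 : u.val = k + 22 ∨ u.val = k + 23 := by omega
    have h4 : ((u.val : ℕ) : ZMod (mm k)) = u := ZMod.natCast_zmod_val u
    rcases h3 with h3 | h3
    · refine ⟨-2, ?_, hs (-2) (by norm_num) (by norm_num)⟩
      rw [← h4, h3]
      push_cast
      linear_combination (-1 : ZMod (mm k)) * hm
    · refine ⟨-1, ?_, hs (-1) (by norm_num) (by norm_num)⟩
      rw [← h4, h3]
      push_cast
      linear_combination (-1 : ZMod (mm k)) * hm

end chain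

open Classical in
theorem core_def' (k : ℕ) (D : Set (VT k → ZMod 2)) (h1 : (fun _ => 1) ∈ D) (hadd : ∀ f ∈ D, ∀ g ∈ D, f + g ∈ D)
    (hmul : ∀ f ∈ D, ∀ g ∈ D, f * g ∈ D)
    (hA : ∀ f ∈ D, (fun x => ∑ y, if (totG k).Adj x y then f y else 0) ∈ D) (u : ZMod (mm k)) :
    (fun x : VT k => if x.2 = Sum.inl u then (1 : ZMod 2) else 0) ∈ D := by
  obtain ⟨j, hj, h⟩ := chain_all D h1 hadd hmul hA u
  convert h using 1
  funext x; rcases x with ⟨y, v | q⟩
  · change (if (Sum.inl v : VA (mm k) (fam k y)) = Sum.inl u then (1 : ZMod 2) else 0) =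
      if v = ((j : ℤ) : ZMod (mm k)) then 1 else 0
    rw [hj]
    exact if_congr Sum.inl_injective.eq_iff rfl rfl
  · exact if_neg (fun hu => by cases hu)

open Classical in
/-- the indicator of the core and the indicators of the core vertices `-2, ..., 7` -/
theorem first_steps (k : ℕ) (D : Set (VT k → ZMod 2)) (h1 : (fun _ => 1) ∈ D) (hadd : ∀ f ∈ D, ∀ g ∈ D, f + g ∈ D)
    (hmul : ∀ f ∈ D, ∀ g ∈ D, f * g ∈ D)
    (hA : ∀ f ∈ D, (fun x => ∑ y, if (totG k).Adj x y then f y else 0) ∈ D) :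
    (fun x : VT k => if ∃ u, x.2 = Sum.inl u then (1 : ZMod 2) else 0) ∈ D ∧
    ∀ j : ℤ, -2 ≤ j → j ≤ 7 →
      (fun x : VT k => if x.2 = Sum.inl ((j : ℤ) : ZMod (mm k)) then (1 : ZMod 2) else 0) ∈ D := by
  obtain ⟨h, h'⟩ := chain D h1 hadd hmul hA
  constructor
  · convert h' using 1
    funext x; rcases x with ⟨y, u | q⟩
    · exact if_pos ⟨u, rfl⟩
    · exact if_neg (fun ⟨u, hu⟩ => by cases hu)
  · intro j hj1 hj2
    convert h j hj1 hj2 using 1
    funext x; rcases x with ⟨y, u | q⟩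
    · change (if (Sum.inl u : VA (mm k) (fam k y)) = Sum.inl ((j : ℤ) : ZMod (mm k)) then (1 : ZMod 2) else 0) =
        if u = ((j : ℤ) : ZMod (mm k)) then 1 else 0
      exact if_congr Sum.inl_injective.eq_iff rfl rfl
    · exact if_neg (fun hu => by cases hu)

end Pool.Agent.QAOA.CX.G79
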