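import Pool.Agent.Lib_MP_debdb1_cx.Gad
import Pool.Agent.Lib_MP_debdb1_cx.Graph1

/-!
# Piece GRAPH: the core vertices are determined by parity refinement
-/

set_option autoImplicit false

namespace Pool.Agent.QAOA.CX

open Matrix Pool.Agent.QAOA

open Classical in
theorem core_def (k : ℕ) (D : Set (VT k → ZMod 2)) (h1 : (fun _ => 1) ∈ D) (hadd : ∀ f ∈ D, ∀ g ∈ D, f + g ∈ D)
    (hmul : ∀ f ∈ D, ∀ g ∈ D, f * g ∈ D)
    (hA : ∀ f ∈ D, (fun x => ∑ y, if (totG k).Adj x y then f y else 0) ∈ D) (u : ZMod (mm k)) :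
    (fun x : VT k => if x.2 = Sum.inl u then (1 : ZMod 2) else 0) ∈ D :=
  G79.core_def' k D h1 hadd hmul hA u

end Pool.Agent.QAOA.CX
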