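import Pool.Agent.Lib_MP_debdb1_cx.Base

/-!
# Piece GRAPH, second half: propagation along the core
-/

set_option autoImplicit false

namespace Pool.Agent.QAOA.CX

open Matrix Pool.Agent.QAOA

namespace Prop2

theorem ne0 (k : ℕ) (a : ℕ) (h0 : 0 < a) (h1 : a < 24) : ((a : ℕ) : ZMod (mm k)) ≠ 0 := by
  intro h
  rw [ZMod.natCast_eq_zero_iff] at h
  have := Nat.le_of_dvd h0 h
  simp only [mm] at this
  omega

open Classical in
/-- indicator of a set of core vertices -/
noncomputable def ind {k : ℕ} (S : Set (ZMod (mm k))) (x : VT k) : ZMod 2 :=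
  if ∃ w ∈ S, x.2 = Sum.inl w then 1 else 0

theorem ind_inl {k : ℕ} (S : Set (ZMod (mm k))) [DecidablePred (· ∈ S)] (c : Option (Fin k))
    (w : ZMod (mm k)) : ind S ⟨c, Sum.inl w⟩ = if w ∈ S then 1 else 0 := by
  rw [ind]
  by_cases h : w ∈ S
  · rw [if_pos h, if_pos ⟨w, h, rfl⟩]
  · rw [if_neg h, if_neg]
    rintro ⟨v, hv, hw⟩
    exact h (Sum.inl_injective hw ▸ hv)

theorem ind_inr {k : ℕ} (S : Set (ZMod (mm k))) (c : Option (Fin k))
    (p : {p : ZMod (mm k) // p ∈ fam k c} × Fin 8) : ind S ⟨c, Sum.inr p⟩ = 0 := by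
  rw [ind, if_neg]
  rintro ⟨v, _, hw⟩
  cases hw

open Classical in
/-- the adjacency formula for a core vertex -/
theorem adj_sum (k : ℕ) (u : ZMod (mm k)) (x : VT k) :
    (∑ y, if (totG k).Adj x y then ind {u} y else 0) =
      if (compG (mm k) (fam k x.1)).Adj x.2 (Sum.inl u) then 1 else 0 := by
  rw [Finset.sum_eq_single (⟨x.1, Sum.inl u⟩ : VT k)]
  · have h1 : ind {u} (⟨x.1, Sum.inl u⟩ : VT k) = 1 := by
      rw [ind_inl, if_pos (Set.mem_singleton _)]
    rw [h1]
    have h2 : (totG k).Adj x ⟨x.1, Sum.inl u⟩ ↔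
        (compG (mm k) (fam k x.1)).Adj x.2 (Sum.inl u) := by
      constructor
      · rintro ⟨c, a, b, hx, hb, h⟩
        subst hx
        rw [Sigma.mk.injEq] at hb
        have := eq_of_heq hb.2
        subst this
        exact h
      · intro h
        exact ⟨x.1, x.2, Sum.inl u, rfl, rfl, h⟩
    by_cases h3 : (totG k).Adj x ⟨x.1, Sum.inl u⟩
    · rw [if_pos h3, if_pos (h2.1 h3)]
    · rw [if_neg h3, if_neg (fun h => h3 (h2.2 h))]
  · rintro ⟨c, b⟩ _ hne
    by_cases h : (totG k).Adj x ⟨c, b⟩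
    · rw [if_pos h]
      obtain ⟨c', a', b', hx, hb, _⟩ := h
      rw [Sigma.mk.injEq] at hb
      obtain ⟨hb1, hb2⟩ := hb
      subst hb1
      have hxc : x.1 = c := by rw [hx]
      rcases b with w | p
      · rw [ind_inl, if_neg]
        intro hw
        apply hne
        rw [Set.mem_singleton_iff] at hw
        subst hw
        subst hxc
        rfl
      · exact ind_inr _ _ _
    · rw [if_neg h]
  · intro h
    exact absurd (Finset.mem_univ _) h

end Prop2

open Prop2

open Classical in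
theorem prop_step (k : ℕ) (D : Set (VT k → ZMod 2)) (h1 : (fun _ => 1) ∈ D)
    (hadd : ∀ f ∈ D, ∀ g ∈ D, f + g ∈ D) (hmul : ∀ f ∈ D, ∀ g ∈ D, f * g ∈ D)
    (hA : ∀ f ∈ D, (fun x => ∑ y, if (totG k).Adj x y then f y else 0) ∈ D)
    (hcore : (fun x : VT k => if ∃ u, x.2 = Sum.inl u then (1 : ZMod 2) else 0) ∈ D)
    (h0 : ∀ j : ℤ, -2 ≤ j → j ≤ 7 →
      (fun x : VT k => if x.2 = Sum.inl ((j : ℤ) : ZMod (mm k)) then (1 : ZMod 2) else 0) ∈ D)
    (u : ZMod (mm k)) :
    (fun x : VT k => if x.2 = Sum.inl u then (1 : ZMod 2) else 0) ∈ D := by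
  have hsing : ∀ u : ZMod (mm k),
      (fun x : VT k => if x.2 = Sum.inl u then (1 : ZMod 2) else 0) = ind {u} := by
    intro u
    funext x
    rw [ind]
    by_cases h : x.2 = Sum.inl u
    · rw [if_pos h, if_pos ⟨u, rfl, h⟩]
    · rw [if_neg h, if_neg]
      rintro ⟨w, hw, h2⟩
      rw [Set.mem_singleton_iff] at hw
      exact h (hw ▸ h2)
  have huniv : (fun x : VT k => if ∃ u, x.2 = Sum.inl u then (1 : ZMod 2) else 0) =
      ind Set.univ := by
    funext x
    rw [ind]
    by_cases h : ∃ u, x.2 = Sum.inl u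
    · rw [if_pos h, if_pos (by obtain ⟨u, hu⟩ := h; exact ⟨u, Set.mem_univ _, hu⟩)]
    · rw [if_neg h, if_neg]
      rintro ⟨w, _, h2⟩
      exact h ⟨w, h2⟩
  rw [huniv] at hcore
  have hdiff : ∀ S T : Set (ZMod (mm k)), ind S ∈ D → ind T ∈ D → ind (S \ T) ∈ D := by
    intro S T hS hT
    have e : (ind (S \ T) : VT k → ZMod 2) = ind S * (ind Set.univ + ind T) := by
      funext x
      obtain ⟨c, w | p⟩ := x
      · rw [Pi.mul_apply, Pi.add_apply, ind_inl, ind_inl, ind_inl, ind_inl]
        by_cases hs : w ∈ S <;> by_cases ht : w ∈ T <;> simp [hs, ht]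
        decide
      · rw [Pi.mul_apply, Pi.add_apply, ind_inr, ind_inr, ind_inr, ind_inr]
        decide
    rw [e]
    exact hmul _ hS _ (hadd _ hcore _ hT)
  have hN : ∀ u : ZMod (mm k), ind {u} ∈ D → ind {w | (coreG (mm k)).Adj w u} ∈ D := by
    intro u hu
    have h2 := hmul _ (hA _ hu) _ hcore
    have e : (ind {w | (coreG (mm k)).Adj w u} : VT k → ZMod 2) =
        (fun x => ∑ y, if (totG k).Adj x y then ind {u} y else 0) * ind Set.univ := by
      funext x
      rw [Pi.mul_apply, adj_sum]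
      obtain ⟨c, w | p⟩ := x
      · rw [ind_inl, ind_inl, if_pos (Set.mem_univ _), mul_one]
        rfl
      · rw [ind_inr, ind_inr, mul_zero]
    rw [e]
    exact h2
  have hstart : ∀ j : ℤ, -2 ≤ j → j ≤ 7 → ind {((j : ℤ) : ZMod (mm k))} ∈ D := by
    intro j hj hj'
    rw [← hsing]
    exact h0 j hj hj'
  have hstep : ∀ u : ZMod (mm k), ind {u - 2} ∈ D → ind {u - 1} ∈ D → ind {u} ∈ D →
      ind {u + 1} ∈ D → ind {u + 2} ∈ D := by
    intro u ha hb hc hd
    have hremove : ∀ (S : Set (ZMod (mm k))) (s : ZMod (mm k)), ind S ∈ D → ind {s} ∈ D →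
        ind (S \ ({s} \ {u + 2})) ∈ D := by
      intro S s hS hs
      by_cases h : s = u + 2
      · have : S \ ({s} \ {u + 2}) = S := by
          rw [h, Set.sdiff_self, Set.sdiff_empty]
        rw [this]
        exact hS
      · have : ({s} : Set (ZMod (mm k))) \ {u + 2} = {s} := by
          ext w
          simp only [Set.mem_sdiff, Set.mem_singleton_iff]
          constructor
          · exact fun h => h.1
          · exact fun h2 => ⟨h2, fun h3 => h (h2.symm.trans h3)⟩
        rw [this]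
        exact hdiff _ _ hS hs
    have e0 : ind {(0 : ZMod (mm k))} ∈ D := by
      have := hstart 0 (by norm_num) (by norm_num)
      simpa using this
    have e1 : ind {(1 : ZMod (mm k))} ∈ D := by
      have := hstart 1 (by norm_num) (by norm_num)
      simpa using this
    have e3 : ind {(3 : ZMod (mm k))} ∈ D := by
      have := hstart 3 (by norm_num) (by norm_num)
      simpa using this
    have e5 : ind {(5 : ZMod (mm k))} ∈ D := by
      have := hstart 5 (by norm_num) (by norm_num)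
      simpa using this
    have key := hremove _ 5 (hremove _ 3 (hremove _ 1 (hremove _ 0 (hdiff _ _ (hdiff _ _
      (hdiff _ _ (hN u hc) ha) hb) hd) e0) e1) e3) e5
    have n1 : (1 : ZMod (mm k)) ≠ 0 := by simpa using ne0 k 1 (by norm_num) (by norm_num)
    have n2 : (2 : ZMod (mm k)) ≠ 0 := by simpa using ne0 k 2 (by norm_num) (by norm_num)
    have n3 : (3 : ZMod (mm k)) ≠ 0 := by simpa using ne0 k 3 (by norm_num) (by norm_num)
    have n4 : (4 : ZMod (mm k)) ≠ 0 := by simpa using ne0 k 4 (by norm_num) (by norm_num)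
    have hset : (({u + 2} : Set (ZMod (mm k)))) =
        (((((((({w | (coreG (mm k)).Adj w u} : Set (ZMod (mm k))) \ {u - 2}) \ {u - 1}) \ {u + 1}) \
          ({0} \ {u + 2})) \ ({1} \ {u + 2})) \ ({3} \ {u + 2})) \ ({5} \ {u + 2})) := by
      ext w
      simp only [Set.mem_sdiff, Set.mem_singleton_iff, Set.mem_ofPred_eq]
      constructor
      · rintro rfl
        refine ⟨⟨⟨⟨⟨⟨⟨⟨?_, Or.inr (Or.inr (Or.inr (Or.inl rfl)))⟩, ?_⟩, ?_⟩, ?_⟩, ?_⟩, ?_⟩, ?_⟩, ?_⟩
        · intro h
          exact n2 (by linear_combination h)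
        · intro h
          exact n4 (by linear_combination h)
        · intro h
          exact n3 (by linear_combination h)
        · intro h
          exact n1 (by linear_combination h)
        all_goals exact fun h => h.2 rfl
      · rintro ⟨⟨⟨⟨⟨⟨⟨⟨_, hadj⟩, m2⟩, m1⟩, p1⟩, q0⟩, q1⟩, q3⟩, q5⟩
        by_contra hw
        rcases hadj with h | h | h | h | h | h | h | h
        · exact m1 (by linear_combination -h)
        · exact p1 h
        · exact m2 (by linear_combination -h)
        · exact hw h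
        · exact q0 ⟨h.1, hw⟩
        · exact q3 ⟨h.1, hw⟩
        · exact q1 ⟨h.1, hw⟩
        · exact q5 ⟨h.1, hw⟩
    rw [hset]
    exact key
  have hall : ∀ n : ℕ, ind {((n : ℕ) : ZMod (mm k)) - 2} ∈ D ∧ ind {((n : ℕ) : ZMod (mm k)) - 1} ∈ D ∧
      ind {((n : ℕ) : ZMod (mm k))} ∈ D ∧ ind {((n : ℕ) : ZMod (mm k)) + 1} ∈ D := by
    intro n
    induction n with
    | zero =>
      refine ⟨?_, ?_, ?_, ?_⟩
      · have := hstart (-2) (by norm_num) (by norm_num)
        simpa using this
      · have := hstart (-1) (by norm_num) (by norm_num)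
        simpa using this
      · have := hstart 0 (by norm_num) (by norm_num)
        simpa using this
      · have := hstart 1 (by norm_num) (by norm_num)
        simpa using this
    | succ n ih =>
      obtain ⟨ha, hb, hc, hd⟩ := ih
      have he := hstep _ ha hb hc hd
      have q1 : ((n + 1 : ℕ) : ZMod (mm k)) - 2 = (n : ZMod (mm k)) - 1 := by push_cast; ring
      have q2 : ((n + 1 : ℕ) : ZMod (mm k)) - 1 = (n : ZMod (mm k)) := by push_cast; ring
      have q3 : ((n + 1 : ℕ) : ZMod (mm k)) = (n : ZMod (mm k)) + 1 := by push_cast; ring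
      have q4 : ((n + 1 : ℕ) : ZMod (mm k)) + 1 = (n : ZMod (mm k)) + 2 := by push_cast; ring
      rw [q1, q2, q4, q3]
      exact ⟨hb, hc, hd, he⟩
  rw [hsing]
  have := (hall u.val).2.2.1
  rwa [ZMod.natCast_zmod_val] at this

end Pool.Agent.QAOA.CX
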