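import Pool.Agent.Lib_MP_debdb1_cx.Gad

/-!
# Piece INT: the hidden intertwiner
-/

set_option autoImplicit false

namespace Pool.Agent.QAOA.CX

open Matrix Pool.Agent.QAOA

section general

variable {V : Type*} [Fintype V] [DecidableEq V]

open Classical in
/-- the diagonal entries of `H_P` -/
private noncomputable def en (G : SimpleGraph V) (x : V → Bool) : ℂ :=
  (1 / 2 : ℂ) * ∑ j, ∑ k, if G.Adj j k then sg (x j) * sg (x k) else 0

private theorem HP_eq (G : SimpleGraph V) : HP G = Matrix.diagonal (en G) := by
  classical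
  unfold HP en
  ext x y
  by_cases h : x = y
  · subst h
    rw [Matrix.diagonal_apply_eq, Matrix.smul_apply, smul_eq_mul, Matrix.sum_apply]
    congr 1
    refine Finset.sum_congr rfl fun j _ => ?_
    rw [Matrix.sum_apply]
    refine Finset.sum_congr rfl fun k _ => ?_
    split_ifs
    · rw [pz, pz, Matrix.diagonal_mul_diagonal, Matrix.diagonal_apply_eq]
    · rfl
  · rw [Matrix.diagonal_apply_ne _ h, Matrix.smul_apply, smul_eq_mul, Matrix.sum_apply]
    rw [Finset.sum_eq_zero, mul_zero]
    intro j _
    rw [Matrix.sum_apply]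
    refine Finset.sum_eq_zero fun k _ => ?_
    split_ifs
    · rw [pz, pz, Matrix.diagonal_mul_diagonal, Matrix.diagonal_apply_ne _ h]
    · rfl

private theorem flip_iff (x y : V → Bool) (v : V) :
    y = Function.update x v (!(x v)) ↔ x = Function.update y v (!(y v)) := by
  constructor
  · rintro rfl
    funext w
    by_cases h : w = v
    · subst h
      simp
    · rw [Function.update_of_ne h, Function.update_of_ne h]
  · rintro rfl
    funext w
    by_cases h : w = v
    · subst h
      simp
    · rw [Function.update_of_ne h, Function.update_of_ne h]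

end general

section
variable (m : ℕ) [NeZero m] (A : Finset (ZMod m)) (p : {p : ZMod m // p ∈ A})

/-- the other vertices -/
private def io : VA m (A.erase p.1) → VA m A
  | Sum.inl u => Sum.inl u
  | Sum.inr (q, s) => Sum.inr (⟨q.1, Finset.mem_of_mem_erase q.2⟩, s)

private theorem io_ne (v : VA m (A.erase p.1)) (s : Fin 8) : io m A p v ≠ Sum.inr (p, s) := by
  rcases v with u | ⟨q, t⟩
  · exact Sum.inl_ne_inr
  · intro h
    have h1 : (⟨q.1, Finset.mem_of_mem_erase q.2⟩ : {p : ZMod m // p ∈ A}) = p := by
      have := Sum.inr_injective h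
      exact congrArg Prod.fst this
    exact Finset.ne_of_mem_erase q.2 (congrArg Subtype.val h1)

private theorem io_injective : Function.Injective (io m A p) := by
  rintro (u | ⟨q, t⟩) (w | ⟨r, t'⟩) h
  · simpa [io] using h
  · simp [io] at h
  · simp [io] at h
  · have h1 := Sum.inr_injective h
    have h2 := congrArg Prod.fst h1
    have h3 := congrArg Prod.snd h1
    have h4 : q.1 = r.1 := congrArg (fun z : {p : ZMod m // p ∈ A} => z.1) h2
    have h5 : q = r := Subtype.ext h4
    have h6 : t = t' := h3
    rw [h5, h6]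

private theorem sum_VA (f : VA m A → ℂ) :
    ∑ v, f v = ∑ v, f (io m A p v) + ∑ s : Fin 8, f (Sum.inr (p, s)) := by
  rw [Fintype.sum_sum_type, Fintype.sum_sum_type, add_assoc]
  congr 1
  rw [Fintype.sum_prod_type, Fintype.sum_prod_type]
  have h1 : ∀ g : {p : ZMod m // p ∈ A} → ℂ, ∑ q, g q =
      ∑ q : {q : ZMod m // q ∈ A.erase p.1}, g ⟨q.1, Finset.mem_of_mem_erase q.2⟩ + g p := by
    intro g
    rw [← Finset.add_sum_erase Finset.univ g (Finset.mem_univ p), add_comm]
    congr 1
    symm
    refine Finset.sum_bij (fun q _ => ⟨q.1, Finset.mem_of_mem_erase q.2⟩) ?_ ?_ ?_ ?_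
    · intro q _
      rw [Finset.mem_erase]
      exact ⟨fun h => Finset.ne_of_mem_erase q.2 (congrArg Subtype.val h), Finset.mem_univ _⟩
    · intro a _ b _ h
      exact Subtype.ext (congrArg (fun z : {p : ZMod m // p ∈ A} => z.1) h)
    · intro b hb
      rw [Finset.mem_erase] at hb
      refine ⟨⟨b.1, Finset.mem_erase.mpr ⟨fun h => hb.1 (Subtype.ext h), b.2⟩⟩, Finset.mem_univ _, rfl⟩
    · intro a _
      rfl
  exact h1 _

private theorem hid_apply (x : VA m A → Bool) (y : VA m (A.erase p.1) → Bool) :
    hid m A p x y = if y = x ∘ io m A p then psi (fun s => x (Sum.inr (p, s))) else 0 := by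
  unfold hid
  rw [Matrix.of_apply]
  by_cases h : y = x ∘ io m A p
  · rw [if_pos h, if_pos]
    subst h
    exact ⟨fun _ => rfl, fun _ _ => rfl⟩
  · rw [if_neg h, if_neg]
    rintro ⟨h1, h2⟩
    apply h
    funext v
    rcases v with u | ⟨q, s⟩
    · exact (h1 u).symm
    · exact (h2 q s).symm

private theorem en_eq (x : VA m A → Bool) :
    en (compG m A) x = en (compG m (A.erase p.1)) (x ∘ io m A p) +
      sg (x (Sum.inl p.1)) * ∑ s : Fin 8, sg (x (Sum.inr (p, s))) +
      en GS (fun s => x (Sum.inr (p, s))) := by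
  classical
  unfold en
  rw [sum_VA m A p]
  simp only [sum_VA m A p (fun k => if (compG m A).Adj _ k then sg (x _) * sg (x k) else 0)]
  rw [Finset.sum_add_distrib, Finset.sum_add_distrib]
  have h1 : ∀ v w : VA m (A.erase p.1), (compG m A).Adj (io m A p v) (io m A p w) ↔
      (compG m (A.erase p.1)).Adj v w := by
    rintro (u | ⟨q, s⟩) (w | ⟨r, t⟩)
    · exact Iff.rfl
    · exact Iff.rfl
    · exact Iff.rfl
    · change ((⟨q.1, Finset.mem_of_mem_erase q.2⟩ : {p : ZMod m // p ∈ A}) =
        ⟨r.1, Finset.mem_of_mem_erase r.2⟩ ∧ GS.Adj s t) ↔ q = r ∧ GS.Adj s t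
      rw [Subtype.mk.injEq, ← Subtype.ext_iff]
  have h2 : ∀ (v : VA m (A.erase p.1)) (s : Fin 8),
      (compG m A).Adj (io m A p v) (Sum.inr (p, s)) ↔ v = Sum.inl p.1 := by
    rintro (u | ⟨q, t⟩) s
    · change u = p.1 ↔ _
      rw [Sum.inl.injEq]
    · constructor
      · intro h
        exact absurd (congrArg Subtype.val h.1) (Finset.ne_of_mem_erase q.2)
      · intro h
        exact absurd h Sum.inr_ne_inl
  have h2' : ∀ (v : VA m (A.erase p.1)) (s : Fin 8),
      (compG m A).Adj (Sum.inr (p, s)) (io m A p v) ↔ v = Sum.inl p.1 := fun v s => by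
    rw [SimpleGraph.adj_comm]
    exact h2 v s
  have h3 : ∀ s t : Fin 8, (compG m A).Adj (Sum.inr (p, s)) (Sum.inr (p, t)) ↔ GS.Adj s t := by
    intro s t
    constructor
    · exact fun h => h.2
    · exact fun h => ⟨rfl, h⟩
  have e1 : ∑ v : VA m (A.erase p.1), ∑ w : VA m (A.erase p.1),
      (if (compG m A).Adj (io m A p v) (io m A p w) then
        sg (x (io m A p v)) * sg (x (io m A p w)) else 0) =
      ∑ v, ∑ w, (if (compG m (A.erase p.1)).Adj v w then
        sg ((x ∘ io m A p) v) * sg ((x ∘ io m A p) w) else 0) := by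
    refine Finset.sum_congr rfl fun v _ => Finset.sum_congr rfl fun w _ => ?_
    exact if_congr (h1 v w) rfl rfl
  have e2 : ∑ v : VA m (A.erase p.1), ∑ s : Fin 8,
      (if (compG m A).Adj (io m A p v) (Sum.inr (p, s)) then
        sg (x (io m A p v)) * sg (x (Sum.inr (p, s))) else 0) =
      sg (x (Sum.inl p.1)) * ∑ s : Fin 8, sg (x (Sum.inr (p, s))) := by
    rw [Finset.sum_comm, Finset.mul_sum]
    refine Finset.sum_congr rfl fun s _ => ?_
    rw [Finset.sum_congr rfl fun v _ => if_congr (h2 v s) rfl rfl, Finset.sum_ite_eq',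
      if_pos (Finset.mem_univ _)]
    rfl
  have e3 : ∑ s : Fin 8, ∑ v : VA m (A.erase p.1),
      (if (compG m A).Adj (Sum.inr (p, s)) (io m A p v) then
        sg (x (Sum.inr (p, s))) * sg (x (io m A p v)) else 0) =
      sg (x (Sum.inl p.1)) * ∑ s : Fin 8, sg (x (Sum.inr (p, s))) := by
    rw [Finset.mul_sum]
    refine Finset.sum_congr rfl fun s _ => ?_
    rw [Finset.sum_congr rfl fun v _ => if_congr (h2' v s) rfl rfl, Finset.sum_ite_eq',
      if_pos (Finset.mem_univ _), mul_comm]
    rfl
  have e4 : ∑ s : Fin 8, ∑ t : Fin 8,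
      (if (compG m A).Adj (Sum.inr (p, s)) (Sum.inr (p, t)) then
        sg (x (Sum.inr (p, s))) * sg (x (Sum.inr (p, t))) else 0) =
      ∑ s : Fin 8, ∑ t : Fin 8, (if GS.Adj s t then
        sg (x (Sum.inr (p, s))) * sg (x (Sum.inr (p, t))) else 0) := by
    refine Finset.sum_congr rfl fun s _ => Finset.sum_congr rfl fun t _ => ?_
    exact if_congr (h3 s t) rfl rfl
  rw [e1, e2, e3, e4]
  ring

theorem hid_HP : HP (compG m A) * hid m A p = hid m A p * HP (compG m (A.erase p.1)) := by
  rw [HP_eq, HP_eq]
  ext x y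
  rw [Matrix.diagonal_mul, Matrix.mul_diagonal, hid_apply]
  split_ifs with h
  · rw [h, en_eq m A p x]
    set w : Fin 8 → Bool := fun s => x (Sum.inr (p, s)) with hw
    have h1 : (∑ s : Fin 8, sg (w s)) * psi w = 0 := by
      have := congrFun Jz_psi w
      rw [Matrix.mulVec, dotProduct, Pi.zero_apply] at this
      rw [← this]
      rw [Finset.sum_eq_single w]
      · congr 1
        rw [Matrix.sum_apply]
        refine Finset.sum_congr rfl fun s _ => ?_
        rw [pz, Matrix.diagonal_apply_eq]
      · intro b _ hb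
        rw [Matrix.sum_apply, Finset.sum_eq_zero, zero_mul]
        intro s _
        rw [pz, Matrix.diagonal_apply_ne _ (Ne.symm hb)]
      · exact fun h => absurd (Finset.mem_univ _) h
    have h2 : en GS w * psi w = 0 := by
      have := congrFun HP_psi w
      rw [HP_eq, Matrix.mulVec_diagonal, Pi.zero_apply] at this
      exact this
    linear_combination sg (x (Sum.inl p.1)) * h1 + h2
  · rw [mul_zero, zero_mul]

private theorem px_mul_apply {V W : Type*} [Fintype V] [DecidableEq V] (v : V)
    (N : Matrix (V → Bool) W ℂ) (x : V → Bool) (y : W) :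
    (px v * N) x y = N (Function.update x v (!(x v))) y := by
  rw [Matrix.mul_apply, Finset.sum_eq_single (Function.update x v (!(x v)))]
  · rw [px, Matrix.of_apply, if_pos rfl, one_mul]
  · intro b _ hb
    rw [px, Matrix.of_apply, if_neg hb, zero_mul]
  · exact fun h => absurd (Finset.mem_univ _) h

private theorem mul_px_apply {V W : Type*} [Fintype V] [DecidableEq V] (v : V)
    (N : Matrix W (V → Bool) ℂ) (x : W) (y : V → Bool) :
    (N * px v) x y = N x (Function.update y v (!(y v))) := by
  rw [Matrix.mul_apply, Finset.sum_eq_single (Function.update y v (!(y v)))]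
  · rw [px, Matrix.of_apply, if_pos ((flip_iff _ _ _).mp rfl), mul_one]
  · intro b _ hb
    rw [px, Matrix.of_apply, if_neg (fun h => hb ((flip_iff _ _ _).mp h)), mul_zero]
  · exact fun h => absurd (Finset.mem_univ _) h

theorem hid_HM : HM (VA m A) * hid m A p = hid m A p * HM (VA m (A.erase p.1)) := by
  ext x y
  unfold HM
  rw [Matrix.sum_mul, Matrix.mul_sum, Matrix.sum_apply, Matrix.sum_apply,
    Finset.sum_congr rfl (fun v _ => px_mul_apply v _ x y),
    Finset.sum_congr rfl (fun v _ => mul_px_apply v _ x y),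
    sum_VA m A p (fun v => hid m A p (Function.update x v (!(x v))) y)]
  have e1 : ∑ v : VA m (A.erase p.1),
      hid m A p (Function.update x (io m A p v) (!(x (io m A p v)))) y =
      ∑ v, hid m A p x (Function.update y v (!(y v))) := by
    refine Finset.sum_congr rfl fun v _ => ?_
    rw [hid_apply, hid_apply]
    have h1 : (Function.update x (io m A p v) (!(x (io m A p v)))) ∘ io m A p =
        Function.update (x ∘ io m A p) v (!((x ∘ io m A p) v)) := by
      funext w
      by_cases h : w = v
      · subst h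
        simp
      · rw [Function.update_of_ne h, Function.comp_apply, Function.comp_apply,
          Function.update_of_ne (fun h' => h (io_injective m A p h'))]
    have h2 : (fun s => Function.update x (io m A p v) (!(x (io m A p v))) (Sum.inr (p, s))) =
        fun s => x (Sum.inr (p, s)) := by
      funext s
      rw [Function.update_of_ne (io_ne m A p v s).symm]
    rw [h1, h2]
    refine if_congr ?_ rfl rfl
    rw [flip_iff, eq_comm]
  have e2 : ∑ s : Fin 8,
      hid m A p (Function.update x (Sum.inr (p, s)) (!(x (Sum.inr (p, s))))) y = 0 := by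
    have h1 : ∀ s : Fin 8,
        hid m A p (Function.update x (Sum.inr (p, s)) (!(x (Sum.inr (p, s))))) y =
        if y = x ∘ io m A p then ((px s : Op (Fin 8)) *ᵥ psi) (fun s => x (Sum.inr (p, s)))
          else 0 := by
      intro s
      rw [hid_apply]
      have h2 : (Function.update x (Sum.inr (p, s)) (!(x (Sum.inr (p, s))))) ∘ io m A p =
          x ∘ io m A p := by
        funext w
        rw [Function.comp_apply, Function.comp_apply, Function.update_of_ne (io_ne m A p w s)]
      have h3 : (fun t => Function.update x (Sum.inr (p, s)) (!(x (Sum.inr (p, s)))) (Sum.inr (p, t))) =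
          Function.update (fun t => x (Sum.inr (p, t))) s (!((fun t => x (Sum.inr (p, t))) s)) := by
        funext t
        by_cases h : t = s
        · subst h
          simp
        · rw [Function.update_of_ne h, Function.update_of_ne]
          intro h'
          exact h (congrArg Prod.snd (Sum.inr_injective h'))
      rw [h2, h3]
      refine if_congr Iff.rfl ?_ rfl
      rw [Matrix.mulVec, dotProduct, Finset.sum_eq_single
        (Function.update (fun t => x (Sum.inr (p, t))) s (!((fun t => x (Sum.inr (p, t))) s)))]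
      · rw [px, Matrix.of_apply, if_pos rfl, one_mul]
      · intro b _ hb
        rw [px, Matrix.of_apply, if_neg hb, zero_mul]
      · exact fun h => absurd (Finset.mem_univ _) h
    rw [Finset.sum_congr rfl fun s _ => h1 s]
    by_cases hy : y = x ∘ io m A p
    · have h4 := congrFun HM_psi (fun s => x (Sum.inr (p, s)))
      unfold HM at h4
      rw [Matrix.sum_mulVec, Finset.sum_apply, Pi.zero_apply] at h4
      rw [← h4]
      exact Finset.sum_congr rfl fun s _ => if_pos hy
    · exact Finset.sum_eq_zero fun s _ => if_neg hy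
  rw [e1, e2, add_zero]

theorem hid_cancel (M : Op (VA m (A.erase p.1))) (h : hid m A p * M = 0) : M = 0 := by
  classical
  obtain ⟨w, hw⟩ := psi_ne
  ext y z
  let x : VA m A → Bool := fun v => match v with
    | Sum.inl u => y (Sum.inl u)
    | Sum.inr (q, s) => if hq : q = p then w s
        else y (Sum.inr (⟨q.1, Finset.mem_erase.mpr ⟨fun h => hq (Subtype.ext h), q.2⟩⟩, s))
  have h1 : x ∘ io m A p = y := by
    funext v
    rcases v with u | ⟨q, s⟩
    · rfl
    · have hq : (⟨q.1, Finset.mem_of_mem_erase q.2⟩ : {p : ZMod m // p ∈ A}) ≠ p := fun h =>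
        Finset.ne_of_mem_erase q.2 (congrArg Subtype.val h)
      change (if hq : (⟨q.1, Finset.mem_of_mem_erase q.2⟩ : {p : ZMod m // p ∈ A}) = p then w s
        else y (Sum.inr (⟨q.1, _⟩, s))) = _
      rw [dif_neg hq]
  have h2 : (fun s => x (Sum.inr (p, s))) = w := by
    funext s
    change (if hq : p = p then w s else _) = _
    rw [dif_pos rfl]
  have h3 : (hid m A p * M) x z = 0 := by rw [h]; rfl
  rw [Matrix.mul_apply, Finset.sum_eq_single y] at h3
  · rw [hid_apply, if_pos h1.symm, h2] at h3
    rcases mul_eq_zero.mp h3 with h4 | h4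
    · exact absurd h4 hw
    · exact h4
  · intro b _ hb
    rw [hid_apply, if_neg (fun h' => hb (h'.trans h1)), zero_mul]
  · exact fun h => absurd (Finset.mem_univ _) h

end

end Pool.Agent.QAOA.CX
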