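import Pool.Agent.Lib_MP_debdb1_cx.Base

/-!
# Abstract ring lemmas for the piece LBGEN
-/

set_option autoImplicit false
set_option linter.unusedSectionVars false
set_option linter.unusedSimpArgs false

namespace Pool.Agent.QAOA.CX

open Matrix Pool.Agent.QAOA

section abs

variable {R : Type*} [Ring R] [Algebra ℂ R] {K : Submodule ℂ R}

/-- relations between the Pauli operators of two qubits -/
structure Rel4 (xa za xb zb : R) : Prop where
  xx : xa * xa = 1
  zz : za * za = 1
  zx : za * xa = -(xa * za)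
  xx' : xb * xb = 1
  zz' : zb * zb = 1
  zx' : zb * xb = -(xb * zb)
  c1 : xb * xa = xa * xb
  c2 : xb * za = za * xb
  c3 : zb * xa = xa * zb
  c4 : zb * za = za * zb

/-- `q` commutes with the four operators -/
structure Com4 (xa za xb zb q : R) : Prop where
  a : q * xa = xa * q
  b : q * za = za * q
  c : q * xb = xb * q
  d : q * zb = zb * q

theorem mem_of_two {t : R} (h : t + t ∈ K) : t ∈ K := by
  have h1 := K.smul_mem (1 / 2 : ℂ) h
  rw [← two_smul ℂ t, smul_smul] at h1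
  norm_num at h1
  exact h1

theorem mem_of_neg_two {t : R} (h : -(t + t) ∈ K) : t ∈ K := mem_of_two (by simpa using K.neg_mem h)





theorem asc {u v w : R} (h : u * v = w) (t : R) : u * (v * t) = w * t := by rw [← mul_assoc, h]

theorem Rel4.symm {xa za xb zb : R} (h : Rel4 xa za xb zb) : Rel4 xb zb xa za where
  xx := h.xx'
  zz := h.zz'
  zx := h.zx'
  xx' := h.xx
  zz' := h.zz
  zx' := h.zx
  c1 := h.c1.symm
  c2 := h.c3.symm
  c3 := h.c2.symm
  c4 := h.c4.symm

theorem Com4.symm {xa za xb zb q : R} (h : Com4 xa za xb zb q) : Com4 xb zb xa za q :=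
  ⟨h.c, h.d, h.a, h.b⟩

theorem Com4.mul {xa za xb zb q r : R} (h : Com4 xa za xb zb q) (h' : Com4 xa za xb zb r) :
    Com4 xa za xb zb (q * r) where
  a := by rw [mul_assoc, h'.a, ← mul_assoc, h.a, mul_assoc]
  b := by rw [mul_assoc, h'.b, ← mul_assoc, h.b, mul_assoc]
  c := by rw [mul_assoc, h'.c, ← mul_assoc, h.c, mul_assoc]
  d := by rw [mul_assoc, h'.d, ← mul_assoc, h.d, mul_assoc]

theorem Com4.one (xa za xb zb : R) : Com4 xa za xb zb 1 := ⟨by simp, by simp, by simp, by simp⟩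

/-- the operators of the two qubits are in `K` -/
structure In5 (K : Submodule ℂ R) (xa za xb zb : R) : Prop where
  br : ∀ M ∈ K, ∀ N ∈ K, M * N - N * M ∈ K
  a : xa ∈ K
  b : za ∈ K
  c : xb ∈ K
  d : zb ∈ K
  e : za * zb ∈ K

theorem In5.symm {xa za xb zb : R} (h : Rel4 xa za xb zb) (k : In5 K xa za xb zb) : In5 K xb zb xa za :=
  ⟨k.br, k.c, k.d, k.a, k.b, by rw [h.c4]; exact k.e⟩

section

variable {xa za xb zb q r : R} (h : Rel4 xa za xb zb) (k : In5 K xa za xb zb) (hq : Com4 xa za xb zb q)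
include h k hq

theorem abs_xz (m : za * q ∈ K) : xa * (za * q) ∈ K := by
  refine mem_of_two ?_
  have := k.br _ k.a _ m
  convert this using 1
  (simp only [mul_assoc, hq.a, hq.b, hq.c, hq.d, asc hq.a, asc hq.b, asc hq.c, asc hq.d, h.xx,
    asc h.xx, h.zz, asc h.zz, h.zx, asc h.zx, h.xx', asc h.xx', h.zz', asc h.zz', h.zx', asc
    h.zx', h.c1, asc h.c1, h.c2, asc h.c2, h.c3, asc h.c3, h.c4, asc h.c4, neg_mul, mul_neg,
    one_mul, mul_one, neg_neg] <;> abel)

theorem abs_x (m : za * q ∈ K) : xa * q ∈ K := by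
  refine mem_of_two ?_
  have := k.br _ (abs_xz h k hq m) _ k.b
  convert this using 1
  (simp only [mul_assoc, hq.a, hq.b, hq.c, hq.d, asc hq.a, asc hq.b, asc hq.c, asc hq.d, h.xx,
    asc h.xx, h.zz, asc h.zz, h.zx, asc h.zx, h.xx', asc h.xx', h.zz', asc h.zz', h.zx', asc
    h.zx', h.c1, asc h.c1, h.c2, asc h.c2, h.c3, asc h.c3, h.c4, asc h.c4, neg_mul, mul_neg,
    one_mul, mul_one, neg_neg] <;> abel)

theorem abs_z_of_x (m : xa * q ∈ K) : za * q ∈ K := by
  have h1 : xa * (za * q) ∈ K := by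
    refine mem_of_neg_two ?_
    have := k.br _ k.b _ m
    convert this using 1
    (simp only [mul_assoc, hq.a, hq.b, hq.c, hq.d, asc hq.a, asc hq.b, asc hq.c, asc hq.d, h.xx,
      asc h.xx, h.zz, asc h.zz, h.zx, asc h.zx, h.xx', asc h.xx', h.zz', asc h.zz', h.zx', asc
      h.zx', h.c1, asc h.c1, h.c2, asc h.c2, h.c3, asc h.c3, h.c4, asc h.c4, neg_mul, mul_neg,
      one_mul, mul_one, neg_neg] <;> abel)
  refine mem_of_neg_two ?_
  have := k.br _ h1 _ k.a
  convert this using 1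
  (simp only [mul_assoc, hq.a, hq.b, hq.c, hq.d, asc hq.a, asc hq.b, asc hq.c, asc hq.d, h.xx,
    asc h.xx, h.zz, asc h.zz, h.zx, asc h.zx, h.xx', asc h.xx', h.zz', asc h.zz', h.zx', asc
    h.zx', h.c1, asc h.c1, h.c2, asc h.c2, h.c3, asc h.c3, h.c4, asc h.c4, neg_mul, mul_neg,
    one_mul, mul_one, neg_neg] <;> abel)

/-- `X_a Z_b ∈ K` -/
theorem abs_xazb : xa * zb ∈ K := by
  have h1 : xa * za ∈ K := by
    refine mem_of_two ?_
    have := k.br _ k.a _ k.b
    convert this using 1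
    (simp only [mul_assoc, hq.a, hq.b, hq.c, hq.d, asc hq.a, asc hq.b, asc hq.c, asc hq.d, h.xx,
      asc h.xx, h.zz, asc h.zz, h.zx, asc h.zx, h.xx', asc h.xx', h.zz', asc h.zz', h.zx', asc
      h.zx', h.c1, asc h.c1, h.c2, asc h.c2, h.c3, asc h.c3, h.c4, asc h.c4, neg_mul, mul_neg,
      one_mul, mul_one, neg_neg] <;> abel)
  refine mem_of_two ?_
  have := k.br _ h1 _ k.e
  convert this using 1
  (simp only [mul_assoc, hq.a, hq.b, hq.c, hq.d, asc hq.a, asc hq.b, asc hq.c, asc hq.d, h.xx,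
    asc h.xx, h.zz, asc h.zz, h.zx, asc h.zx, h.xx', asc h.xx', h.zz', asc h.zz', h.zx', asc
    h.zx', h.c1, asc h.c1, h.c2, asc h.c2, h.c3, asc h.c3, h.c4, asc h.c4, neg_mul, mul_neg,
    one_mul, mul_one, neg_neg] <;> abel)

theorem abs_zz (m : za * q ∈ K) : za * (zb * q) ∈ K := by
  refine mem_of_two ?_
  have := k.br _ (abs_xazb h k hq) _ (abs_xz h k hq m)
  convert this using 1
  (simp only [mul_assoc, hq.a, hq.b, hq.c, hq.d, asc hq.a, asc hq.b, asc hq.c, asc hq.d, h.xx,
    asc h.xx, h.zz, asc h.zz, h.zx, asc h.zx, h.xx', asc h.xx', h.zz', asc h.zz', h.zx', asc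
    h.zx', h.c1, asc h.c1, h.c2, asc h.c2, h.c3, asc h.c3, h.c4, asc h.c4, neg_mul, mul_neg,
    one_mul, mul_one, neg_neg] <;> abel)

theorem abs_xzz (m : za * q ∈ K) : xa * (za * (zb * q)) ∈ K := by
  refine mem_of_two ?_
  have := k.br _ k.a _ (abs_zz h k hq m)
  convert this using 1
  (simp only [mul_assoc, hq.a, hq.b, hq.c, hq.d, asc hq.a, asc hq.b, asc hq.c, asc hq.d, h.xx,
    asc h.xx, h.zz, asc h.zz, h.zx, asc h.zx, h.xx', asc h.xx', h.zz', asc h.zz', h.zx', asc
    h.zx', h.c1, asc h.c1, h.c2, asc h.c2, h.c3, asc h.c3, h.c4, asc h.c4, neg_mul, mul_neg,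
    one_mul, mul_one, neg_neg] <;> abel)

theorem abs_zaxbzb (m : za * q ∈ K) : za * (xb * (zb * q)) ∈ K := by
  refine mem_of_two ?_
  have := k.br _ k.c _ (abs_zz h k hq m)
  convert this using 1
  (simp only [mul_assoc, hq.a, hq.b, hq.c, hq.d, asc hq.a, asc hq.b, asc hq.c, asc hq.d, h.xx,
    asc h.xx, h.zz, asc h.zz, h.zx, asc h.zx, h.xx', asc h.xx', h.zz', asc h.zz', h.zx', asc
    h.zx', h.c1, asc h.c1, h.c2, asc h.c2, h.c3, asc h.c3, h.c4, asc h.c4, neg_mul, mul_neg,
    one_mul, mul_one, neg_neg] <;> abel)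

theorem abs_zaxb (m : za * q ∈ K) : za * (xb * q) ∈ K := by
  refine mem_of_two ?_
  have := k.br _ (abs_zaxbzb h k hq m) _ k.d
  convert this using 1
  (simp only [mul_assoc, hq.a, hq.b, hq.c, hq.d, asc hq.a, asc hq.b, asc hq.c, asc hq.d, h.xx,
    asc h.xx, h.zz, asc h.zz, h.zx, asc h.zx, h.xx', asc h.xx', h.zz', asc h.zz', h.zx', asc
    h.zx', h.c1, asc h.c1, h.c2, asc h.c2, h.c3, asc h.c3, h.c4, asc h.c4, neg_mul, mul_neg,
    one_mul, mul_one, neg_neg] <;> abel)

theorem abs_zb (m : za * q ∈ K) : zb * q ∈ K := by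
  have h1 : za * (xb * (zb * 1)) ∈ K := abs_zaxbzb h k (Com4.one _ _ _ _) (by rw [mul_one]; exact k.b)
  rw [mul_one] at h1
  refine mem_of_two ?_
  have := k.br _ (abs_zaxb h k hq m) _ h1
  convert this using 1
  (simp only [mul_assoc, hq.a, hq.b, hq.c, hq.d, asc hq.a, asc hq.b, asc hq.c, asc hq.d, h.xx,
    asc h.xx, h.zz, asc h.zz, h.zx, asc h.zx, h.xx', asc h.xx', h.zz', asc h.zz', h.zx', asc
    h.zx', h.c1, asc h.c1, h.c2, asc h.c2, h.c3, asc h.c3, h.c4, asc h.c4, neg_mul, mul_neg,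
    one_mul, mul_one, neg_neg] <;> abel)

theorem abs_mul (hr : Com4 xa za xb zb r) (m : za * q ∈ K) (m' : za * r ∈ K) : za * (q * r) ∈ K := by
  have h1 := k.br _ (abs_x h k hq m) _ (abs_xz h k hr m')
  have h2 := k.br _ (abs_zb h k hq m) _ (abs_zz h k hr m')
  have e1 : xa * q * (xa * (za * r)) - xa * (za * r) * (xa * q) = za * (q * r) + za * (r * q) := by
    (simp only [mul_assoc, hr.a, hr.b, hr.c, hr.d, asc hr.a, asc hr.b, asc hr.c, asc hr.d, hq.a,
      hq.b, hq.c, hq.d, asc hq.a, asc hq.b, asc hq.c, asc hq.d, h.xx, asc h.xx, h.zz, asc h.zz,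
      h.zx, asc h.zx, h.xx', asc h.xx', h.zz', asc h.zz', h.zx', asc h.zx', h.c1, asc h.c1, h.c2,
      asc h.c2, h.c3, asc h.c3, h.c4, asc h.c4, neg_mul, mul_neg, one_mul, mul_one, neg_neg] <;>
      abel)
  have e2 : zb * q * (za * (zb * r)) - za * (zb * r) * (zb * q) = za * (q * r) - za * (r * q) := by
    (simp only [mul_assoc, hr.a, hr.b, hr.c, hr.d, asc hr.a, asc hr.b, asc hr.c, asc hr.d, hq.a,
      hq.b, hq.c, hq.d, asc hq.a, asc hq.b, asc hq.c, asc hq.d, h.xx, asc h.xx, h.zz, asc h.zz,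
      h.zx, asc h.zx, h.xx', asc h.xx', h.zz', asc h.zz', h.zx', asc h.zx', h.c1, asc h.c1, h.c2,
      asc h.c2, h.c3, asc h.c3, h.c4, asc h.c4, neg_mul, mul_neg, one_mul, mul_one, neg_neg] <;>
      abel)
  rw [e1] at h1
  rw [e2] at h2
  refine mem_of_two ?_
  have := K.add_mem h1 h2
  convert this using 1
  abel

end

/-- the double commutator with `x` of `z S + T` is `4 z S` -/
theorem abs_dbl {x z S T : R} (hxx : x * x = 1) (hzx : z * x = -(x * z)) (hS : S * x = x * S) (hT : T * x = x * T) :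
    ((z * S + T) * x - x * (z * S + T)) * x - x * ((z * S + T) * x - x * (z * S + T)) =
      (z * S + z * S) + (z * S + z * S) := by
  simp only [mul_add, add_mul, mul_sub, sub_mul, mul_assoc, hS, asc hS, hT, asc hT, hxx, asc hxx, hzx, asc hzx, neg_mul,
    mul_neg, one_mul, mul_one, neg_neg]
  abel

theorem mem_of_four {t : R} (h : (t + t) + (t + t) ∈ K) : t ∈ K := mem_of_two (mem_of_two h)

theorem dbl_mem {x z S T : R} (hX : ∀ M ∈ K, x * M - M * x ∈ K) (hxx : x * x = 1) (hzx : z * x = -(x * z))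
    (hS : S * x = x * S) (hT : T * x = x * T) (hM : z * S + T ∈ K) : z * S ∈ K := by
  refine mem_of_four ?_
  rw [← abs_dbl hxx hzx hS hT]
  have := hX _ (hX _ hM)
  convert this using 1
  noncomm_ring

theorem dbl_mem' {x z S T : R} (hX : ∀ M ∈ K, x * M - M * x ∈ K) (hxx : x * x = 1) (hzx : z * x = -(x * z))
    (hS : S * x = x * S) (hT : T * x = x * T) (hM : (z * S + T) * x - x * (z * S + T) ∈ K) : z * S ∈ K := by
  refine mem_of_four ?_
  rw [← abs_dbl hxx hzx hS hT]
  have := K.neg_mem (hX _ hM)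
  convert this using 1
  noncomm_ring

/-- the triangle rule -/
theorem abs_tri {xa za xb zb zc : R} (h : Rel4 xa za xb zb) (hcc : zc * zc = 1) (h1 : zc * xa = xa * zc)
    (h2 : zc * za = za * zc) (h3 : zc * xb = xb * zc) (h4 : zc * zb = zb * zc)
    (br : ∀ M ∈ K, ∀ N ∈ K, M * N - N * M ∈ K) (hX : ∀ M ∈ K, xb * M - M * xb ∈ K) (ma : za ∈ K) (mx : xa ∈ K)
    (mab : za * zb ∈ K) (mac : za * zc ∈ K) (mbc : xb ∈ K → zb * zc ∈ K) : zb ∈ K := by
  have e1 : za * (xb * zb) ∈ K := by
    refine mem_of_two ?_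
    have := hX _ mab
    convert this using 1
    simp only [mul_assoc, h.c2, asc h.c2, h.zx', neg_mul, mul_neg]
    abel
  have mxb : xb ∈ K := by
    refine mem_of_neg_two ?_
    have := br _ mab _ e1
    convert this using 1
    simp only [mul_assoc, h.c2, asc h.c2, h.c4, asc h.c4, h.zz, asc h.zz, h.zx', asc h.zx', h.zz', asc h.zz', neg_mul,
      mul_neg, mul_one, one_mul]
    abel
  have mbc' := mbc mxb
  have e2 : za * (zc * xb) ∈ K := by
    refine mem_of_neg_two ?_
    have := br _ mbc' _ e1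
    convert this using 1
    simp only [mul_assoc, h1, asc h1, h2, asc h2, h3, asc h3, h4, asc h4, h.c2, asc h.c2, h.c4, asc h.c4, h.zx',
      asc h.zx', h.zz', asc h.zz', neg_mul, mul_neg, mul_one, one_mul]
    abel
  have e3 : xa * za ∈ K := by
    refine mem_of_two ?_
    have := br _ mx _ ma
    convert this using 1
    simp only [h.zx]
    abel
  have e4 : xa * zc ∈ K := by
    refine mem_of_two ?_
    have := br _ e3 _ mac
    convert this using 1
    simp only [mul_assoc, h1, asc h1, h2, asc h2, h.zz, asc h.zz, h.zx, asc h.zx, neg_mul, mul_neg, mul_one, one_mul]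
    abel
  have e5 : xa * (za * xb) ∈ K := by
    refine mem_of_neg_two ?_
    have := br _ e2 _ e4
    convert this using 1
    simp only [mul_assoc, h1, asc h1, h2, asc h2, h3, asc h3, h.c1, asc h.c1, h.c2, asc h.c2, h.zz, asc h.zz, h.zx,
      asc h.zx, hcc, asc hcc, neg_mul, mul_neg, mul_one, one_mul]
    abel
  have e6 : xa * (za * zb) ∈ K := by
    refine mem_of_two ?_
    have := br _ mx _ mab
    convert this using 1
    simp only [mul_assoc, h.c3, asc h.c3, h.c4, asc h.c4, h.zx, asc h.zx, neg_mul, mul_neg, mul_one, one_mul]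
    abel
  have e7 : xb * zb ∈ K := by
    refine mem_of_neg_two ?_
    have := br _ e5 _ e6
    convert this using 1
    simp only [mul_assoc, h.c1, asc h.c1, h.c2, asc h.c2, h.c3, asc h.c3, h.c4, asc h.c4, h.zx, asc h.zx, h.zx',
      asc h.zx', h.xx, asc h.xx, h.zz, asc h.zz, neg_mul, mul_neg, mul_one, one_mul, neg_neg]
    abel
  refine mem_of_two ?_
  have := br _ mxb _ e7
  convert this using 1
  simp only [mul_assoc, h.zx', asc h.zx', h.xx', asc h.xx', neg_mul, mul_neg, mul_one, one_mul]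
  abel

end abs

section conc

variable {W : Type*} [Fintype W] [DecidableEq W]

theorem pz_px_self (a : W) : (pz a * px a : Op W) = -(px a * pz a) := by
  have h : (px a * pz a : Op W) = -(pz a * px a) := by
    rw [pz, px_diag, ← neg_mul, Matrix.diagonal_neg]
    congr 2
    funext x
    simp [sg_flip]
  rw [h, neg_neg]

theorem px_pz_ne (a b : W) (h : b ≠ a) : (px a * pz b : Op W) = pz b * px a := by
  rw [pz, px_diag]
  congr 2
  funext x
  simp [sg_flip, h]

theorem pz_mul_comm (j k : W) : (pz j * pz k : Op W) = pz k * pz j := by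
  unfold pz
  rw [Matrix.diagonal_mul_diagonal, Matrix.diagonal_mul_diagonal]
  congr 1
  funext x
  rw [mul_comm]

theorem pz_mul_self (j : W) : (pz j * pz j : Op W) = 1 := by
  unfold pz
  rw [Matrix.diagonal_mul_diagonal, ← Matrix.diagonal_one]
  congr 1
  funext x
  unfold sg
  split_ifs <;> simp

theorem rel4 {a b : W} (h : a ≠ b) : Rel4 (px a : Op W) (pz a) (px b) (pz b) where
  xx := px_sq a
  zz := pz_mul_self a
  zx := pz_px_self a
  xx' := px_sq b
  zz' := pz_mul_self b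
  zx' := pz_px_self b
  c1 := px_comm b a
  c2 := px_pz_ne b a h
  c3 := (px_pz_ne a b h.symm).symm
  c4 := pz_mul_comm b a

theorem com4_pz {a b c : W} (ha : c ≠ a) (hb : c ≠ b) : Com4 (px a : Op W) (pz a) (px b) (pz b) (pz c) where
  a := (px_pz_ne a c ha).symm
  b := pz_mul_comm c a
  c := (px_pz_ne b c hb).symm
  d := pz_mul_comm c b

theorem com4_px {a b c : W} (ha : c ≠ a) (hb : c ≠ b) : Com4 (px a : Op W) (pz a) (px b) (pz b) (px c) where
  a := px_comm c a
  b := px_pz_ne c a ha.symm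
  c := px_comm c b
  d := px_pz_ne c b hb.symm

theorem com4_sum {a b : W} {ι : Type*} (s : Finset ι) (f : ι → Op W)
    (h : ∀ i ∈ s, Com4 (px a : Op W) (pz a) (px b) (pz b) (f i)) : Com4 (px a : Op W) (pz a) (px b) (pz b) (∑ i ∈ s, f i) where
  a := by rw [Finset.sum_mul, Finset.mul_sum]; exact Finset.sum_congr rfl fun i hi => (h i hi).a
  b := by rw [Finset.sum_mul, Finset.mul_sum]; exact Finset.sum_congr rfl fun i hi => (h i hi).b
  c := by rw [Finset.sum_mul, Finset.mul_sum]; exact Finset.sum_congr rfl fun i hi => (h i hi).c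
  d := by rw [Finset.sum_mul, Finset.mul_sum]; exact Finset.sum_congr rfl fun i hi => (h i hi).d

open Classical in
theorem HP_split (G : SimpleGraph W) (u : W) : ∃ T : Op W, T * px u = px u * T ∧
    HP G = pz u * (∑ w : W, if G.Adj u w then pz w else 0) + T := by
  set f : W → W → Op W := fun j k => if G.Adj j k then pz j * pz k else 0 with hf
  refine ⟨(1 / 2 : ℂ) • ∑ j ∈ Finset.univ.erase u, ∑ k ∈ Finset.univ.erase u, f j k, ?_, ?_⟩
  · rw [smul_mul_assoc, mul_smul_comm]
    congr 1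
    rw [Finset.sum_mul, Finset.mul_sum]
    refine Finset.sum_congr rfl fun j hj => ?_
    rw [Finset.sum_mul, Finset.mul_sum]
    refine Finset.sum_congr rfl fun k hk => ?_
    simp only [hf]
    split_ifs
    · exact (px_zz_out u j k (Finset.ne_of_mem_erase hj) (Finset.ne_of_mem_erase hk)).symm
    · simp
  · have e1 : (∑ j, ∑ k, f j k : Op W) = (∑ k, f u k + ∑ k, f u k) +
        ∑ j ∈ Finset.univ.erase u, ∑ k ∈ Finset.univ.erase u, f j k := by
      rw [← Finset.add_sum_erase _ _ (Finset.mem_univ u)]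
      have e2 : ∀ j ∈ Finset.univ.erase u, ∑ k, f j k = f u j + ∑ k ∈ Finset.univ.erase u, f j k := by
        intro j _
        rw [← Finset.add_sum_erase _ _ (Finset.mem_univ u)]
        congr 1
        simp only [hf, G.adj_comm j u, pz_mul_comm j u]
      rw [Finset.sum_congr rfl e2, Finset.sum_add_distrib]
      have e3 : (∑ j ∈ Finset.univ.erase u, f u j : Op W) = ∑ k, f u k := by
        rw [← Finset.add_sum_erase _ _ (Finset.mem_univ u)]
        simp [hf]
      rw [e3]
      abel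
    have e4 : (∑ k, f u k : Op W) = pz u * (∑ w : W, if G.Adj u w then pz w else 0) := by
      rw [Finset.mul_sum]
      refine Finset.sum_congr rfl fun k _ => ?_
      simp only [hf]
      split_ifs <;> simp
    have e5 : HP G = (1 / 2 : ℂ) • ∑ j, ∑ k, f j k := rfl
    rw [e5, e1, smul_add, e4, ← two_smul ℂ (pz u * _), smul_smul]
    norm_num

open Classical in
theorem HPr_split {V : Type*} [Fintype V] [DecidableEq V] (G : SimpleGraph V) (v : V) (u : {w : V // w ≠ v}) :
    ∃ T : Op {w : V // w ≠ v}, T * px u = px u * T ∧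
    HPr G v = pz u * ((∑ w : {w : V // w ≠ v}, if G.Adj u w then pz w else 0) + (if G.Adj v u then 1 else 0)) + T := by
  obtain ⟨T, hT, hH⟩ := HP_split (G.comap (Subtype.val : {w : V // w ≠ v} → V)) u
  set Q : Op {w : V // w ≠ v} := ∑ w ∈ Finset.univ.erase u, (if G.Adj v w then pz w else 0) with hQ
  have hQc : Q * px u = px u * Q := by
    rw [hQ, Finset.sum_mul, Finset.mul_sum]
    refine Finset.sum_congr rfl fun w hw => ?_
    by_cases hw' : G.Adj v w
    · rw [if_pos hw']
      exact (px_pz_ne u w (Finset.ne_of_mem_erase hw)).symm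
    · rw [if_neg hw', zero_mul, mul_zero]
  have e1 : (∑ w : {w : V // w ≠ v}, if G.Adj v w then pz w else 0 : Op {w : V // w ≠ v}) =
      (if G.Adj v u then pz u else 0) + Q :=
    (Finset.add_sum_erase Finset.univ (fun w : {w : V // w ≠ v} => (if G.Adj v w then pz w else 0 :
      Op {w : V // w ≠ v})) (Finset.mem_univ u)).symm
  have e2 : HPr G v = HP (G.comap (Subtype.val : {w : V // w ≠ v} → V)) +
      ∑ w : {w : V // w ≠ v}, if G.Adj v w then pz w else 0 := rfl
  refine ⟨T + Q, ?_, ?_⟩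
  · rw [add_mul, mul_add, hT, hQc]
  · rw [e2, hH, e1, mul_add]
    have e3 : (pz u * (if G.Adj v u then 1 else 0) : Op {w : V // w ≠ v}) = if G.Adj v u then pz u else 0 := by
      by_cases h : G.Adj v u
      · rw [if_pos h, if_pos h, mul_one]
      · rw [if_neg h, if_neg h, mul_zero]
    rw [e3]
    have key : ∀ S1 S2 Z : Op {w : V // w ≠ v}, S1 = S2 → pz u * S1 + T + (Z + Q) = pz u * S2 + Z + (T + Q) := by
      rintro S1 _ Z rfl
      abel
    exact key _ _ _ (Finset.sum_congr rfl fun w _ => if_congr Iff.rfl rfl rfl)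

theorem sum_commute {ι : Type*} (s : Finset ι) (f : ι → Op W) (x : Op W) (h : ∀ i ∈ s, f i * x = x * f i) :
    (∑ i ∈ s, f i) * x = x * ∑ i ∈ s, f i := by
  rw [Finset.sum_mul, Finset.mul_sum]
  exact Finset.sum_congr rfl h

end conc

end Pool.Agent.QAOA.CX
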