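import Pool.Agent.Lib_MP_debdb1_cx.LbGen

/-!
# Piece LBAPP, part (iv): the gadget algebra `SS` is inside the coefficient algebra
-/

set_option autoImplicit false

namespace Pool.Agent.QAOA.CX

open Matrix Pool.Agent.QAOA

namespace G4

section
variable {U W : Type*} [Fintype U] [DecidableEq U] [Fintype W] [DecidableEq W]

/-- one qubit as a range -/
def oneE (w : W) : Unit ↪ W := ⟨fun _ => w, fun _ _ _ => rfl⟩

theorem emb_px_out (f : U ↪ W) (w : W) (hw : ∀ u, f u ≠ w) (s : Op U) : px w * emb f s = emb f s * px w := by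
  have h := emb_commute f (oneE w) (fun u _ => hw u) s (px ())
  rw [emb_px] at h
  exact h.symm

theorem emb_pz_out (f : U ↪ W) (w : W) (hw : ∀ u, f u ≠ w) (s : Op U) : pz w * emb f s = emb f s * pz w := by
  have h := emb_commute f (oneE w) (fun u _ => hw u) s (pz ())
  rw [emb_pz] at h
  exact h.symm

open Classical in
/-- a sum over all vertices is the sum over the range of `f` and the rest -/
theorem sum_split {M : Type*} [AddCommMonoid M] (f : U ↪ W) (F : W → M) :
    ∑ w, F w = ∑ u, F (f u) + ∑ w, if w ∈ Set.range f then 0 else F w := by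
  have h1 : ∑ w, F w = (∑ w, if w ∈ Set.range f then F w else 0) + ∑ w, if w ∈ Set.range f then 0 else F w := by
    rw [← Finset.sum_add_distrib]
    refine Finset.sum_congr rfl fun w _ => ?_
    split_ifs <;> simp
  rw [h1]
  congr 1
  symm
  refine Fintype.sum_of_injective f f.injective _ _ ?_ ?_
  · intro w hw
    rw [if_neg hw]
  · intro u
    rw [if_pos (Set.mem_range_self u)]

open Classical in
theorem HM_split (f : U ↪ W) : (HM W : Op W) = emb f (HM U) + ∑ w, if w ∈ Set.range f then 0 else px w := by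
  unfold HM
  rw [sum_split f, emb_sum]
  congr 1
  exact Finset.sum_congr rfl fun u _ => (emb_px f u).symm

theorem comm_HM (f : U ↪ W) (s : Op U) : (HM W * emb f s - emb f s * HM W : Op W) = emb f (HM U * s - s * HM U) := by
  classical
  have h2 : (∑ w, if w ∈ Set.range f then 0 else px w : Op W) * emb f s = emb f s * ∑ w, if w ∈ Set.range f then 0 else px w := by
    rw [Finset.sum_mul, Finset.mul_sum]
    refine Finset.sum_congr rfl fun w _ => ?_
    split_ifs with hw
    · simp
    · exact emb_px_out f w (fun u hu => hw ⟨u, hu⟩) s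
  have h3 : emb f (HM U * s - s * HM U) = emb f (HM U) * emb f s - emb f s * emb f (HM U) := by
    rw [sub_eq_add_neg, emb_add, ← neg_one_smul ℂ, emb_smul, emb_mul, emb_mul, neg_one_smul, ← sub_eq_add_neg]
  rw [h3, HM_split f, add_mul, mul_add, h2]
  abel

/-- the Hamiltonian near the gadget -/
theorem HP_split (G : SimpleGraph W) (H : SimpleGraph U) (f : U ↪ W) (c : W) (hfc : ∀ u, f u ≠ c)
    (hfG : ∀ s t, G.Adj (f s) (f t) ↔ H.Adj s t) (hfk : ∀ s, ∀ k, k ∉ Set.range f → (G.Adj (f s) k ↔ k = c)) :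
    ∃ R : Op W, HP G = emb f (HP H) + pz c * emb f (∑ u, pz u) + R ∧ ∀ s : Op U, R * emb f s = emb f s * R := by
  classical
  have hc : c ∉ Set.range f := fun ⟨u, hu⟩ => hfc u hu
  -- rows inside
  have r1 : ∀ s : U, (∑ k, if G.Adj (f s) k then (pz (f s) * pz k : Op W) else 0) =
      (∑ t, if H.Adj s t then (pz (f s) * pz (f t) : Op W) else 0) + pz c * pz (f s) := by
    intro s
    rw [sum_split f]
    congr 1
    · refine Finset.sum_congr rfl fun t _ => ?_
      by_cases h : H.Adj s t
      · rw [if_pos h, if_pos ((hfG s t).2 h)]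
      · rw [if_neg h, if_neg (fun h2 => h ((hfG s t).1 h2))]
    · rw [Finset.sum_eq_single c]
      · rw [if_neg hc, if_pos ((hfk s c hc).2 rfl), pz_mul_comm]
      · intro k _ hk
        by_cases hkr : k ∈ Set.range f
        · rw [if_pos hkr]
        · rw [if_neg hkr, if_neg (fun h => hk ((hfk s k hkr).1 h))]
      · intro h
        exact absurd (Finset.mem_univ _) h
  -- rows outside
  have r2 : ∀ j : W, j ∉ Set.range f → (∑ k, if G.Adj j k then (pz j * pz k : Op W) else 0) =
      (if j = c then pz c * ∑ t, pz (f t) else 0) + ∑ k, if k ∈ Set.range f then 0 else (if G.Adj j k then (pz j * pz k : Op W) else 0) := by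
    intro j hj
    rw [sum_split f]
    congr 1
    by_cases hjc : j = c
    · subst hjc
      rw [if_pos rfl, Finset.mul_sum]
      refine Finset.sum_congr rfl fun t _ => ?_
      rw [if_pos ((hfk t j hj).2 rfl).symm]
    · rw [if_neg hjc]
      refine Finset.sum_eq_zero fun t _ => ?_
      rw [if_neg (fun h => hjc ((hfk t j hj).1 h.symm))]
  refine ⟨(1 / 2 : ℂ) • ∑ j, if j ∈ Set.range f then 0 else
    ∑ k, if k ∈ Set.range f then 0 else (if G.Adj j k then (pz j * pz k : Op W) else 0), ?_, ?_⟩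
  · have e1 : emb f (HP H) = (1 / 2 : ℂ) • ∑ s, ∑ t, if H.Adj s t then (pz (f s) * pz (f t) : Op W) else 0 := by
      unfold HP
      rw [emb_smul, emb_sum]
      congr 1
      refine Finset.sum_congr rfl fun s _ => ?_
      rw [emb_sum]
      refine Finset.sum_congr rfl fun t _ => ?_
      split_ifs
      · rw [emb_mul, emb_pz, emb_pz]
      · exact emb_zero f
    have e2 : emb f (∑ u, pz u) = ∑ u, pz (f u) := by
      rw [emb_sum]
      exact Finset.sum_congr rfl fun u _ => emb_pz f u
    have e3 : (∑ j, ∑ k, if G.Adj j k then (pz j * pz k : Op W) else 0) =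
        (∑ s, ∑ t, if H.Adj s t then (pz (f s) * pz (f t) : Op W) else 0) + (pz c * ∑ t, pz (f t)) + (pz c * ∑ t, pz (f t)) +
        ∑ j, if j ∈ Set.range f then 0 else ∑ k, if k ∈ Set.range f then 0 else (if G.Adj j k then (pz j * pz k : Op W) else 0) := by
      rw [sum_split f, Finset.sum_congr rfl fun s _ => r1 s, Finset.sum_add_distrib, ← Finset.mul_sum]
      have e4 : (∑ j, if j ∈ Set.range f then 0 else (∑ k, if G.Adj j k then (pz j * pz k : Op W) else 0)) =
          (pz c * ∑ t, pz (f t)) + ∑ j, if j ∈ Set.range f then 0 else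
            ∑ k, if k ∈ Set.range f then 0 else (if G.Adj j k then (pz j * pz k : Op W) else 0) := by
        have e5 : ∀ j : W, (if j ∈ Set.range f then 0 else (∑ k, if G.Adj j k then (pz j * pz k : Op W) else 0)) =
            (if j = c then pz c * ∑ t, pz (f t) else 0) + if j ∈ Set.range f then 0 else
            ∑ k, if k ∈ Set.range f then 0 else (if G.Adj j k then (pz j * pz k : Op W) else 0) := by
          intro j
          by_cases hj : j ∈ Set.range f
          · rw [if_pos hj, if_pos hj, if_neg, add_zero]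
            rintro rfl
            exact hc hj
          · rw [if_neg hj, if_neg hj, r2 j hj]
        rw [Finset.sum_congr rfl fun j _ => e5 j, Finset.sum_add_distrib, Finset.sum_ite_eq', if_pos (Finset.mem_univ _)]
      rw [e4]
      abel
    have e0 : (HP G : Op W) = (1 / 2 : ℂ) • ∑ j, ∑ k, if G.Adj j k then (pz j * pz k : Op W) else 0 := rfl
    rw [e0, e1, e2, e3]
    simp only [smul_add]
    have e6 : (pz c * ∑ t, pz (f t) : Op W) = (1 / 2 : ℂ) • (pz c * ∑ t, pz (f t)) + (1 / 2 : ℂ) • (pz c * ∑ t, pz (f t)) := by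
      rw [← add_smul]
      norm_num
    nth_rewrite 3 [e6]
    abel
  · intro s
    rw [Matrix.smul_mul, Matrix.mul_smul]
    congr 1
    rw [Finset.sum_mul, Finset.mul_sum]
    refine Finset.sum_congr rfl fun j _ => ?_
    split_ifs with hj
    · simp
    · rw [Finset.sum_mul, Finset.mul_sum]
      refine Finset.sum_congr rfl fun k _ => ?_
      split_ifs with hk hjk
      · simp
      · rw [mul_assoc, emb_pz_out f k (fun u hu => hk ⟨u, hu⟩), ← mul_assoc, emb_pz_out f j (fun u hu => hj ⟨u, hu⟩), mul_assoc]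
      · simp

end

theorem emb_sub {U W : Type*} [Fintype U] [DecidableEq U] [Fintype W] [DecidableEq W] (f : U ↪ W) (a b : Op U) :
    emb f (a - b) = emb f a - emb f b := by
  rw [sub_eq_add_neg, emb_add, ← neg_one_smul ℂ, emb_smul, neg_one_smul, ← sub_eq_add_neg]

/-- `[J_z, [H_M, J_z]] = -4 H_M` -/
theorem zxz {W : Type*} [Fintype W] [DecidableEq W] : ((∑ s : W, pz s) * (HM W * (∑ s : W, pz s) - (∑ s : W, pz s) * HM W) -
    (HM W * (∑ s : W, pz s) - (∑ s : W, pz s) * HM W) * (∑ s : W, pz s) : Op W) =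
    (-4 : ℂ) • HM W := by
  have h1 : (HM W * (∑ s : W, pz s) - (∑ s : W, pz s) * HM W : Op W) = ∑ s : W, (2 : ℂ) • (px s * pz s) := by
    have e1 : (HM W * (∑ s : W, pz s) : Op W) = ∑ s : W, ∑ t : W, px s * pz t := by
      unfold HM
      rw [Finset.sum_mul_sum]
    have e2 : ((∑ s : W, pz s) * HM W : Op W) = ∑ s : W, ∑ t : W, pz t * px s := by
      unfold HM
      rw [Finset.sum_mul_sum, Finset.sum_comm]
    rw [e1, e2, ← Finset.sum_sub_distrib]
    refine Finset.sum_congr rfl fun j _ => ?_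
    rw [← Finset.sum_sub_distrib, Finset.sum_eq_single j]
    · rw [pz_px_self, sub_neg_eq_add, two_smul]
    · intro k _ hk
      rw [px_pz_ne j k hk, sub_self]
    · intro h
      exact absurd (Finset.mem_univ _) h
  rw [h1]
  have e3 : ((∑ s : W, pz s) * (∑ s : W, (2 : ℂ) • (px s * pz s)) : Op W) = ∑ s : W, ∑ t : W, pz t * ((2 : ℂ) • (px s * pz s)) := by
    rw [Finset.sum_mul_sum, Finset.sum_comm]
  have e4 : ((∑ s : W, (2 : ℂ) • (px s * pz s)) * (∑ s : W, pz s) : Op W) = ∑ s : W, ∑ t : W, ((2 : ℂ) • (px s * pz s)) * pz t := by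
    rw [Finset.sum_mul_sum]
  unfold HM
  rw [e3, e4, ← Finset.sum_sub_distrib, Finset.smul_sum]
  refine Finset.sum_congr rfl fun j _ => ?_
  rw [← Finset.sum_sub_distrib, Finset.sum_eq_single j]
  · rw [Matrix.mul_smul, Matrix.smul_mul, ← mul_assoc, pz_px_self, neg_mul, mul_assoc, pz_mul_self, mul_one, smul_neg]
    module
  · intro k _ hk
    rw [Matrix.mul_smul, Matrix.smul_mul, ← mul_assoc, ← px_pz_ne j k hk, mul_assoc, pz_mul_comm k j, mul_assoc, sub_self]
  · intro h
    exact absurd (Finset.mem_univ _) h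

end G4

open G4

section
variable {V : Type*} [Fintype V] [DecidableEq V] {G : SimpleGraph V} {v : V} {C : {w : V // w ≠ v} → Prop}
  {K : Submodule ℂ (Op {w : V // w ≠ v})}

/-- the coefficients form a subalgebra -/
def QQalg (h : IdH G v C K) {a b : {w : V // w ≠ v}} (pr : Pr G v C K a b) : Subalgebra ℂ (Op {w : V // w ≠ v}) where
  carrier := QQ K a b
  mul_mem' := fun hq hr => q_mul h pr hq hr
  one_mem' := q_one h pr
  add_mem' := fun hq hr => q_add hq hr
  algebraMap_mem' := fun c => by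
    rw [Algebra.algebraMap_eq_smul_one]
    exact q_smul c (q_one h pr)

/-- the operators on the qubits of `f` which are coefficients -/
def gadAlg (h : IdH G v C K) {a b : {w : V // w ≠ v}} (pr : Pr G v C K a b) (f : Fin 8 ↪ {w : V // w ≠ v}) :
    Subalgebra ℂ (Op (Fin 8)) where
  carrier := {s | emb f s ∈ QQalg h pr}
  mul_mem' := fun {s t} hs ht => by
    show emb f (s * t) ∈ QQalg h pr
    rw [emb_mul]
    exact mul_mem hs ht
  one_mem' := by
    show emb f 1 ∈ QQalg h pr
    rw [emb_one]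
    exact one_mem _
  add_mem' := fun {s t} hs ht => by
    show emb f (s + t) ∈ QQalg h pr
    rw [emb_add]
    exact add_mem hs ht
  algebraMap_mem' := fun c => by
    show emb f (algebraMap ℂ (Op (Fin 8)) c) ∈ QQalg h pr
    rw [Algebra.algebraMap_eq_smul_one, emb_smul, emb_one]
    exact Subalgebra.smul_mem _ (one_mem _) c

theorem gad_QQ (h : IdH G v C K) {a b : {w : V // w ≠ v}} (pr : Pr G v C K a b) (f : Fin 8 ↪ {w : V // w ≠ v})
    (c : {w : V // w ≠ v}) (hc : C c) (hca : c ≠ a) (hcb : c ≠ b) (hzc : pz c ∈ K) (h1 : pz c ∈ QQ K a b) (h2 : px c ∈ QQ K a b)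
    (hfa : ∀ s, f s ≠ a) (hfb : ∀ s, f s ≠ b) (hfc : ∀ s, f s ≠ c) (hfC : ∀ s, ¬ C (f s))
    (hcn : ∀ w : {w : V // w ≠ v}, G.Adj c w → ¬ C w → w ∈ Set.range f)
    (hfG : ∀ s t, G.Adj (f s) (f t) ↔ GS.Adj s t)
    (hfk : ∀ s, ∀ k : {w : V // w ≠ v}, k ∉ Set.range f → (G.Adj (f s) k ↔ k = c))
    (hfv : ∀ s, ¬ G.Adj v (f s))
    (hna : ∀ w : {w : V // w ≠ v}, G.Adj a w → w ≠ b → pz w ∈ QQ K a b) :
    ∀ s ∈ SS, emb f s ∈ QQ K a b := by
  classical
  have hcr : c ∉ Set.range f := fun ⟨s, hs⟩ => hfc s hs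
  have hJ : (∑ s : Fin 8, pz s) ∈ gadAlg h pr f := by
    show emb f _ ∈ QQ K a b
    have e := q_unc h pr c hc hca hcb hzc pr.ca pr.cb h1 h2
    have e2 : emb f (∑ s : Fin 8, pz s) = ∑ w : {w : V // w ≠ v}, if G.Adj c w ∧ ¬ C w then pz w else 0 := by
      rw [emb_sum]
      refine Fintype.sum_of_injective f f.injective _ _ ?_ ?_
      · intro w hw
        rw [if_neg]
        rintro ⟨h3, h4⟩
        exact hw (hcn w h3 h4)
      · intro s
        rw [emb_pz, if_pos ⟨((hfk s c hcr).2 rfl).symm, hfC s⟩]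
    rw [e2]
    exact e
  have hHJ : HM (Fin 8) * (∑ s : Fin 8, pz s) - (∑ s : Fin 8, pz s) * HM (Fin 8) ∈ gadAlg h pr f := by
    show emb f _ ∈ QQ K a b
    rw [← comm_HM]
    exact q_HM h pr hJ
  have hHM : HM (Fin 8) ∈ gadAlg h pr f := by
    have e := sub_mem (mul_mem hJ hHJ) (mul_mem hHJ hJ)
    rw [zxz] at e
    have e2 := Subalgebra.smul_mem (gadAlg h pr f) e (-1 / 4 : ℂ)
    rw [smul_smul] at e2
    norm_num at e2
    exact e2
  have hcl : ∀ s ∈ gadAlg h pr f, HP GS * s - s * HP GS ∈ gadAlg h pr f := by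
    intro s hs
    obtain ⟨R, hR, hRc⟩ := G4.HP_split (G.comap (Subtype.val : {w : V // w ≠ v} → V)) GS f c hfc
      (fun s t => by rw [SimpleGraph.comap_adj]; exact hfG s t)
      (fun s k hk => by rw [SimpleGraph.comap_adj]; exact hfk s k hk)
    have hN : (∑ w : {w : V // w ≠ v}, if G.Adj v w then pz w else 0 : Op {w : V // w ≠ v}) * emb f s =
        emb f s * ∑ w : {w : V // w ≠ v}, if G.Adj v w then pz w else 0 := by
      rw [Finset.sum_mul, Finset.mul_sum]
      refine Finset.sum_congr rfl fun w _ => ?_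
      split_ifs with hw
      · exact emb_pz_out f w (fun u hu => hfv u (by rw [hu]; exact hw)) s
      · simp
    have ht : HPr G v * emb f s - emb f s * HPr G v = emb f (HP GS * s - s * HP GS) +
        pz c * emb f ((∑ u : Fin 8, pz u) * s - s * ∑ u : Fin 8, pz u) := by
      have e0 : (HPr G v : Op {w : V // w ≠ v}) = HP (G.comap (Subtype.val : {w : V // w ≠ v} → V)) +
        ∑ w : {w : V // w ≠ v}, if G.Adj v w then pz w else 0 := rfl
      rw [e0, hR, emb_sub, emb_sub, emb_mul, emb_mul, emb_mul, emb_mul]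
      simp only [add_mul, mul_add, mul_sub]
      rw [hN, hRc s, mul_assoc (pz c), ← mul_assoc (emb f s) (pz c), ← emb_pz_out f c hfc s, mul_assoc (pz c)]
      abel
    have hpc : ∀ x : Op {w : V // w ≠ v}, (∀ t : Op (Fin 8), x * emb f t = emb f t * x) → x * pz c = pz c * x →
        (HPr G v * emb f s - emb f s * HPr G v) * x = x * (HPr G v * emb f s - emb f s * HPr G v) := by
      intro x hx hxc
      rw [ht, add_mul, mul_add, ← hx, mul_assoc (pz c), ← hx, ← mul_assoc (pz c) x, ← hxc, mul_assoc x (pz c)]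
    have hm := q_HP h pr hs hna (hpc _ (emb_px_out f a hfa) (px_pz_ne a c hca))
      (hpc _ (emb_pz_out f a hfa) (pz_mul_comm a c)) (hpc _ (emb_px_out f b hfb) (px_pz_ne b c hcb))
      (hpc _ (emb_pz_out f b hfb) (pz_mul_comm b c))
    have hm2 : pz c * emb f ((∑ u : Fin 8, pz u) * s - s * ∑ u : Fin 8, pz u) ∈ QQalg h pr :=
      mul_mem (show pz c ∈ QQalg h pr from h1) (show _ ∈ gadAlg h pr f from sub_mem (mul_mem hJ hs) (mul_mem hs hJ))
    have hm3 : HPr G v * emb f s - emb f s * HPr G v ∈ QQalg h pr := hm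
    have hm4 := sub_mem hm3 hm2
    rw [ht, add_sub_cancel_right] at hm4
    exact hm4
  have hle : SS ≤ gadAlg h pr f := sInf_le ⟨hHM, hJ, hcl⟩
  intro s hs
  exact hle hs

end

end Pool.Agent.QAOA.CX
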