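import Pool.Agent.Lib_MP_debdb1_cx.LbApp

/-!
# Piece LBDIM: dimension of the coefficient algebra
-/

set_option autoImplicit false

namespace Pool.Agent.QAOA.CX

open Matrix Pool.Agent.QAOA

section
variable {U W I : Type*} [Fintype U] [DecidableEq U] [Fintype W] [DecidableEq W] [Fintype I] [DecidableEq I]

omit [DecidableEq U] [DecidableEq I] in
theorem TP_add (f : U ↪ W) (g : I → Fin 8 ↪ W) (O O' : Op U) (a : I → Op (Fin 8)) :
    TP f g (O + O') a = TP f g O a + TP f g O' a := by
  ext x y
  simp only [TP, Matrix.of_apply, Matrix.add_apply]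
  split_ifs
  · ring
  · simp

omit [DecidableEq U] [DecidableEq I] in
theorem TP_smul (f : U ↪ W) (g : I → Fin 8 ↪ W) (c : ℂ) (O : Op U) (a : I → Op (Fin 8)) :
    TP f g (c • O) a = c • TP f g O a := by
  ext x y
  simp only [TP, Matrix.of_apply, Matrix.smul_apply, smul_eq_mul]
  split_ifs
  · ring
  · simp

end

theorem lower2 (m : ℕ) [NeZero m] (A : Finset (ZMod m)) (v : VA m A) (K : Submodule ℂ (Op {w : VA m A // w ≠ v}))
    (a b : ZMod m) (ha : (Sum.inl a : VA m A) ≠ v) (hab : a ≠ b)
    (h : ∀ q ∈ Algebra.adjoin ℂ (coefGen v a b), pz (⟨Sum.inl a, ha⟩ : {w : VA m A // w ≠ v}) * q ∈ K) :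
    4 ^ (m - 3) * Module.finrank ℂ SS ^ (A.card - 1) ≤ Module.finrank ℂ K := by
  classical
  let U : Type := {u : ZMod m // (Sum.inl u : VA m A) ≠ v ∧ u ≠ a ∧ u ≠ b}
  let I : Type := {p : {p : ZMod m // p ∈ A} // p.1 ≠ posn v}
  let f : U ↪ {w : VA m A // w ≠ v} := ⟨fun u => ⟨Sum.inl u.1, u.2.1⟩, fun u u' h => by
    have h1 := congrArg Subtype.val h
    exact Subtype.ext (Sum.inl.inj h1)⟩
  let g : I → Fin 8 ↪ {w : VA m A // w ≠ v} := fun p => gadE v p.1 p.2
  have hd : Dj f g := by
    constructor
    · intro u i s hc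
      have h1 := congrArg Subtype.val hc
      exact Sum.inl_ne_inr h1
    · intro i j s t hc
      have h1 := congrArg Subtype.val hc
      have h2 := congrArg Prod.fst (Sum.inr.inj h1)
      exact Subtype.ext h2
  let n := Module.finrank ℂ SS
  let e : Module.Basis (Fin n) ℂ SS := Module.finBasis ℂ SS
  have he : LinearIndependent ℂ (fun i => (e i : Op (Fin 8))) := by
    have h1 := e.linearIndependent
    exact h1.map' SS.val.toLinearMap (LinearMap.ker_eq_bot.2 Subtype.val_injective)
  have hmem : ∀ (O : Op U) (α : I → Fin n), TP f g O (fun i => (e (α i) : Op (Fin 8))) ∈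
      Algebra.adjoin ℂ (coefGen v a b) := by
    intro O α
    apply TP_mem f g hd
    · refine Algebra.adjoin_mono ?_ (emb_mem_adjoin f O)
      rintro q ⟨u, hu⟩
      exact Or.inl ⟨u.1, u.2.1, u.2.2.1, u.2.2.2, hu⟩
    · intro i
      exact Algebra.subset_adjoin (Or.inr ⟨i.1, i.2, _, (e (α i)).2, rfl⟩)
  let L : ((I → Fin n) → Op U) →ₗ[ℂ] K :=
    { toFun := fun O => ⟨pz (⟨Sum.inl a, ha⟩ : {w : VA m A // w ≠ v}) *
        ∑ α, TP f g (O α) (fun i => (e (α i) : Op (Fin 8))),
        h _ (Subalgebra.sum_mem _ fun α _ => hmem (O α) α)⟩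
      map_add' := by
        intro O O'
        apply Subtype.ext
        simp only [Pi.add_apply, TP_add, Finset.sum_add_distrib, mul_add, Submodule.coe_add]
      map_smul' := by
        intro c O
        apply Subtype.ext
        simp only [Pi.smul_apply, TP_smul, RingHom.id_apply, Submodule.coe_smul]
        rw [← Finset.smul_sum, mul_smul_comm] }
  have hLinj : Function.Injective L := by
    rw [← LinearMap.ker_eq_bot, LinearMap.ker_eq_bot']
    intro O hO
    have h1 := congrArg Subtype.val hO
    have h2 : pz (⟨Sum.inl a, ha⟩ : {w : VA m A // w ≠ v}) *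
        ∑ α, TP f g (O α) (fun i => (e (α i) : Op (Fin 8))) = 0 := h1
    have h3 : pz (⟨Sum.inl a, ha⟩ : {w : VA m A // w ≠ v}) * pz (⟨Sum.inl a, ha⟩ : {w : VA m A // w ≠ v}) = 1 := by
      have h5 : ∀ b : Bool, sg b * sg b = 1 := by
        intro b
        cases b <;> norm_num [sg]
      rw [pz, Matrix.diagonal_mul_diagonal]
      simp only [h5]
      exact Matrix.diagonal_one
    have h4 : ∑ α, TP f g (O α) (fun i => (e (α i) : Op (Fin 8))) = 0 := by
      have := congrArg (fun M => pz (⟨Sum.inl a, ha⟩ : {w : VA m A // w ≠ v}) * M) h2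
      simpa only [← mul_assoc, h3, one_mul, mul_zero] using this
    funext α
    exact TP_indep f g hd (fun i => (e i : Op (Fin 8))) he O h4 α
  have hfin := LinearMap.finrank_le_finrank_of_injective hLinj
  have hdim : Module.finrank ℂ ((I → Fin n) → Op U) = n ^ Fintype.card I * 4 ^ Fintype.card U := by
    rw [Module.finrank_pi_fintype]
    simp only [Module.finrank_matrix, Module.finrank_self, mul_one, Finset.sum_const, Finset.card_univ,
      smul_eq_mul, Fintype.card_fun, Fintype.card_bool, Fintype.card_fin]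
    congr 1
    rw [← mul_pow]
    norm_num
  rw [hdim] at hfin
  have hn : 1 ≤ n := by
    have : 0 < Module.finrank ℂ SS := Module.finrank_pos
    exact this
  have hI : A.card - 1 ≤ Fintype.card I := by
    have h1 : Fintype.card I = ((Finset.univ : Finset {p : ZMod m // p ∈ A}).filter fun p => p.1 ≠ posn v).card :=
      Fintype.card_subtype _
    rw [h1]
    have h2 : ((Finset.univ : Finset {p : ZMod m // p ∈ A}).filter fun p => p.1 ≠ posn v).card =
        (A.erase (posn v)).card := by
      apply Finset.card_bij (fun p _ => p.1)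
      · intro p hp
        exact Finset.mem_erase.2 ⟨(Finset.mem_filter.1 hp).2, p.2⟩
      · intro p _ q _ hpq
        exact Subtype.ext hpq
      · intro p hp
        exact ⟨⟨p, Finset.mem_of_mem_erase hp⟩, Finset.mem_filter.2 ⟨Finset.mem_univ _,
          Finset.ne_of_mem_erase hp⟩, rfl⟩
    rw [h2]
    exact Finset.pred_card_le_card_erase
  have hU : m - 3 ≤ Fintype.card U := by
    have h1 : Fintype.card U = (Finset.univ.filter fun u : ZMod m => (Sum.inl u : VA m A) ≠ v ∧ u ≠ a ∧ u ≠ b).card :=
      Fintype.card_subtype _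
    have h2 : Finset.univ \ ({posn v, a, b} : Finset (ZMod m)) ⊆
        Finset.univ.filter fun u : ZMod m => (Sum.inl u : VA m A) ≠ v ∧ u ≠ a ∧ u ≠ b := by
      intro u hu
      simp only [Finset.mem_sdiff, Finset.mem_univ, true_and, Finset.mem_insert, Finset.mem_singleton,
        not_or] at hu
      refine Finset.mem_filter.2 ⟨Finset.mem_univ _, fun hc => hu.1 ?_, hu.2⟩
      rw [← hc]
      rfl
    have h3 := Finset.card_le_card h2
    have h4 := Finset.le_card_sdiff ({posn v, a, b} : Finset (ZMod m)) Finset.univ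
    have h5 : ({posn v, a, b} : Finset (ZMod m)).card ≤ 3 := Finset.card_le_three
    have h6 : (Finset.univ : Finset (ZMod m)).card = m := by
      rw [Finset.card_univ, ZMod.card]
    omega
  calc 4 ^ (m - 3) * Module.finrank ℂ SS ^ (A.card - 1)
      ≤ 4 ^ Fintype.card U * n ^ Fintype.card I :=
        Nat.mul_le_mul (Nat.pow_le_pow_right (by norm_num) hU) (Nat.pow_le_pow_right hn hI)
    _ = n ^ Fintype.card I * 4 ^ Fintype.card U := mul_comm _ _
    _ ≤ _ := hfin

end Pool.Agent.QAOA.CX
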