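import Pool.Agent.Lib_MP_debdb1_cx.Ten
import Pool.Agent.Lib_MP_debdb1_cx.LbAbs

/-!
# Piece LBGEN: generic facts on an ideal `K` of the reduced Lie algebra (no specific graph)

`C` is the set of the controlled vertices (those `u` with `X_u` available).
-/

set_option autoImplicit false
set_option linter.unusedSimpArgs false
set_option linter.unusedVariables false

namespace Pool.Agent.QAOA.CX

open Matrix Pool.Agent.QAOA

open Classical in
/-- the hypotheses on the ideal -/
structure IdH {V : Type*} [Fintype V] [DecidableEq V] (G : SimpleGraph V) (v : V) (C : {w : V // w ≠ v} → Prop)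
    (K : Submodule ℂ (Op {w : V // w ≠ v})) : Prop where
  br : ∀ M ∈ K, ∀ N ∈ K, M * N - N * M ∈ K
  hP : ∀ M ∈ K, HPr G v * M - M * HPr G v ∈ K
  hM : ∀ M ∈ K, HM {w : V // w ≠ v} * M - M * HM {w : V // w ≠ v} ∈ K
  hX : ∀ u, C u → ∀ M ∈ K, px u * M - M * px u ∈ K
  hN : (∑ w : {w : V // w ≠ v}, if G.Adj v w then pz w else 0) ∈ K

/-- the coefficients `q` (commuting with the qubits `a`, `b`) such that `Z_a q ∈ K` -/
def QQ {W : Type*} [Fintype W] [DecidableEq W] (K : Submodule ℂ (Op W)) (a b : W) : Set (Op W) :=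
  {q | q * px a = px a * q ∧ q * pz a = pz a * q ∧ q * px b = px b * q ∧ q * pz b = pz b * q ∧ pz a * q ∈ K}

section
variable {V : Type*} [Fintype V] [DecidableEq V] {G : SimpleGraph V} {v : V} {C : {w : V // w ≠ v} → Prop}
  {K : Submodule ℂ (Op {w : V // w ≠ v})}

theorem g1 (h : IdH G v C K) (u : {w : V // w ≠ v}) (hu : C u) (ha : G.Adj v u) : pz u ∈ K := by
  classical
  have e1 : (∑ w : {w : V // w ≠ v}, if G.Adj v w then pz w else 0 : Op {w : V // w ≠ v}) =
      pz u * 1 + ∑ w ∈ Finset.univ.erase u, (if G.Adj v w then pz w else 0) := by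
    rw [← Finset.add_sum_erase Finset.univ _ (Finset.mem_univ u), if_pos ha, mul_one]
  have h1 := h.hN
  have e2 : (∑ w : {w : V // w ≠ v}, if G.Adj v w then pz w else 0 : Op {w : V // w ≠ v}) ∈ K := by
    convert h1
  rw [e1] at e2
  have h2 := dbl_mem (h.hX u hu) (px_sq u) (pz_px_self u) (by rw [one_mul, mul_one])
    (sum_commute _ _ _ fun w hw => by
      by_cases hw' : G.Adj v w
      · rw [if_pos hw']
        exact (px_pz_ne u w (Finset.ne_of_mem_erase hw)).symm
      · rw [if_neg hw', zero_mul, mul_zero]) e2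
  rwa [mul_one] at h2

theorem g2 (h : IdH G v C K) (u : {w : V // w ≠ v}) (hu : C u) (hz : pz u ∈ K) : px u ∈ K := by
  have h1 : px u * pz u ∈ K := by
    refine mem_of_two ?_
    have := h.hX u hu _ hz
    convert this using 1
    rw [pz_px_self]
    abel
  refine mem_of_two ?_
  have := h.br _ h1 _ hz
  convert this using 1
  rw [← mul_assoc (pz u), pz_px_self, neg_mul, mul_assoc, pz_mul_self, mul_one]
  abel

open Classical in
/-- `Z_u S_u ∈ K`, where `S_u` is the sum over the neighbours of `u` -/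
theorem g_zS (h : IdH G v C K) (u : {w : V // w ≠ v}) (hu : C u) (hx : px u ∈ K) :
    pz u * ((∑ w : {w : V // w ≠ v}, if G.Adj u w then pz w else 0) + (if G.Adj v u then 1 else 0)) ∈ K := by
  obtain ⟨T, hT, hH⟩ := HPr_split G v u
  have h1 := h.hP _ hx
  rw [hH] at h1
  refine dbl_mem' (h.hX u hu) (px_sq u) (pz_px_self u) ?_ hT h1
  rw [add_mul, mul_add]
  congr 1
  · refine sum_commute _ _ _ fun x hx => ?_
    by_cases hx' : G.Adj u x
    · rw [if_pos hx']
      refine (px_pz_ne u x ?_).symm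
      rintro rfl
      exact G.loopless.1 _ hx'
    · rw [if_neg hx', zero_mul, mul_zero]
  · by_cases hv : G.Adj v u
    · rw [if_pos hv, one_mul, mul_one]
    · rw [if_neg hv, zero_mul, mul_zero]

theorem g3 (h : IdH G v C K) (u w : {w : V // w ≠ v}) (hu : C u) (hw : C w) (hx : px u ∈ K) (ha : G.Adj u w) :
    pz u * pz w ∈ K := by
  classical
  have h1 := g_zS h u hu hx
  have hne : u ≠ w := by
    rintro rfl
    exact G.loopless.1 _ ha
  have e1 : ((∑ w : {w : V // w ≠ v}, if G.Adj u w then pz w else 0) + (if G.Adj v u then 1 else 0) :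
      Op {w : V // w ≠ v}) = pz w + ((∑ x ∈ Finset.univ.erase w, if G.Adj u x then pz x else 0) +
        (if G.Adj v u then 1 else 0)) := by
    rw [← Finset.add_sum_erase Finset.univ _ (Finset.mem_univ w), if_pos ha, add_assoc]
  rw [e1, mul_add, pz_mul_comm] at h1
  have h2 := dbl_mem (h.hX w hw) (px_sq w) (pz_px_self w) (px_pz_ne w u hne).symm (by
    have c1 : ((∑ x ∈ Finset.univ.erase w, if G.Adj u x then pz x else 0) + (if G.Adj v u then 1 else 0) :
        Op {w : V // w ≠ v}) * px w = px w * ((∑ x ∈ Finset.univ.erase w, if G.Adj u x then pz x else 0) +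
        (if G.Adj v u then 1 else 0)) := by
      rw [add_mul, mul_add]
      congr 1
      · refine sum_commute _ _ _ fun x hx => ?_
        by_cases hx' : G.Adj u x
        · rw [if_pos hx']
          exact (px_pz_ne w x (Finset.ne_of_mem_erase hx)).symm
        · rw [if_neg hx', zero_mul, mul_zero]
      · by_cases hv : G.Adj v u
        · rw [if_pos hv, one_mul, mul_one]
        · rw [if_neg hv, zero_mul, mul_zero]
    rw [mul_assoc, c1, ← mul_assoc, ← mul_assoc, px_pz_ne w u hne]) h1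
  rwa [pz_mul_comm]

/-- triangle rule -/
theorem g4 (h : IdH G v C K) (a b c : {w : V // w ≠ v}) (ha : C a) (hb : C b) (hc : C c) (hab : G.Adj a b) (hac : G.Adj a c)
    (hbc : G.Adj b c) (hz : pz a ∈ K) : pz b ∈ K := by
  have nab : a ≠ b := by
    rintro rfl
    exact G.loopless.1 _ hab
  have nac : a ≠ c := by
    rintro rfl
    exact G.loopless.1 _ hac
  have nbc : b ≠ c := by
    rintro rfl
    exact G.loopless.1 _ hbc
  have mx := g2 h a ha hz
  exact abs_tri (rel4 nab) (pz_mul_self c) (px_pz_ne a c nac.symm).symm (pz_mul_comm c a) (px_pz_ne b c nbc.symm).symm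
    (pz_mul_comm c b) h.br (h.hX b hb) hz mx (g3 h a b ha hb mx hab) (g3 h a c ha hc mx hac)
    (fun hb' => g3 h b c hb hc hb' hbc)

/-- `a`, `b` adjacent controlled vertices with `Z_a, Z_b ∈ K` -/
structure Pr (G : SimpleGraph V) (v : V) (C : {w : V // w ≠ v} → Prop) (K : Submodule ℂ (Op {w : V // w ≠ v}))
    (a b : {w : V // w ≠ v}) : Prop where
  ca : C a
  cb : C b
  ab : G.Adj a b
  za : pz a ∈ K
  zb : pz b ∈ K

theorem Pr.ne {a b : {w : V // w ≠ v}} (p : Pr G v C K a b) : a ≠ b := by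
  rintro rfl
  exact G.loopless.1 _ p.ab

theorem Pr.in5 (h : IdH G v C K) {a b : {w : V // w ≠ v}} (p : Pr G v C K a b) :
    In5 K (px a) (pz a) (px b) (pz b) where
  br := h.br
  a := g2 h a p.ca p.za
  b := p.za
  c := g2 h b p.cb p.zb
  d := p.zb
  e := g3 h a b p.ca p.cb (g2 h a p.ca p.za) p.ab

theorem QQ_com {a b : {w : V // w ≠ v}} {q : Op {w : V // w ≠ v}} (hq : q ∈ QQ K a b) :
    Com4 (px a) (pz a) (px b) (pz b) q := ⟨hq.1, hq.2.1, hq.2.2.1, hq.2.2.2.1⟩

theorem QQ_mem {a b : {w : V // w ≠ v}} {q : Op {w : V // w ≠ v}} (hq : q ∈ QQ K a b) : pz a * q ∈ K := hq.2.2.2.2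

theorem QQ_mk {a b : {w : V // w ≠ v}} {q : Op {w : V // w ≠ v}} (hq : Com4 (px a) (pz a) (px b) (pz b) q)
    (hm : pz a * q ∈ K) : q ∈ QQ K a b := ⟨hq.a, hq.b, hq.c, hq.d, hm⟩

theorem q_one (h : IdH G v C K) {a b : {w : V // w ≠ v}} (p : Pr G v C K a b) : 1 ∈ QQ K a b := by
  refine ⟨by simp, by simp, by simp, by simp, ?_⟩
  rw [mul_one]
  exact p.za

theorem q_add {a b : {w : V // w ≠ v}} {q r : Op {w : V // w ≠ v}} (hq : q ∈ QQ K a b) (hr : r ∈ QQ K a b) :
    q + r ∈ QQ K a b := by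
  refine ⟨by rw [add_mul, mul_add, hq.1, hr.1], by rw [add_mul, mul_add, hq.2.1, hr.2.1],
    by rw [add_mul, mul_add, hq.2.2.1, hr.2.2.1], by rw [add_mul, mul_add, hq.2.2.2.1, hr.2.2.2.1], ?_⟩
  rw [mul_add]
  exact K.add_mem hq.2.2.2.2 hr.2.2.2.2

theorem q_smul {a b : {w : V // w ≠ v}} {q : Op {w : V // w ≠ v}} (t : ℂ) (hq : q ∈ QQ K a b) : t • q ∈ QQ K a b := by
  refine ⟨by rw [smul_mul_assoc, mul_smul_comm, hq.1], by rw [smul_mul_assoc, mul_smul_comm, hq.2.1],
    by rw [smul_mul_assoc, mul_smul_comm, hq.2.2.1], by rw [smul_mul_assoc, mul_smul_comm, hq.2.2.2.1], ?_⟩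
  rw [mul_smul_comm]
  exact K.smul_mem _ hq.2.2.2.2

theorem q_mul (h : IdH G v C K) {a b : {w : V // w ≠ v}} (p : Pr G v C K a b) {q r : Op {w : V // w ≠ v}}
    (hq : q ∈ QQ K a b) (hr : r ∈ QQ K a b) : q * r ∈ QQ K a b := by
  exact QQ_mk ((QQ_com hq).mul (QQ_com hr))
    (abs_mul (rel4 p.ne) (p.in5 h) (QQ_com hq) (QQ_com hr) (QQ_mem hq) (QQ_mem hr))

/-- from `Z_c` to `X_c` -/
theorem q_px (h : IdH G v C K) {a b : {w : V // w ≠ v}} (p : Pr G v C K a b) (c : {w : V // w ≠ v}) (hc : C c)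
    (hca : c ≠ a) (hcb : c ≠ b) (h1 : pz c ∈ QQ K a b) : px c ∈ QQ K a b := by
  have hcx : Com4 (px a : Op {w : V // w ≠ v}) (pz a) (px b) (pz b) (px c) := com4_px hca hcb
  have h2 : px c * pz c ∈ QQ K a b := by
    refine QQ_mk (hcx.mul (QQ_com h1)) ?_
    refine mem_of_two ?_
    have := h.hX c hc _ (QQ_mem h1)
    convert this using 1
    rw [← mul_assoc (px c) (pz a), hcx.b, mul_assoc, mul_assoc, pz_px_self, mul_neg]
    abel
  have h3 := q_mul h p h2 h1
  rwa [mul_assoc, pz_mul_self, mul_one] at h3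

/-- a controlled vertex with `Z_c ∈ K` adjacent to `a` or `b` -/
theorem q_first (h : IdH G v C K) {a b : {w : V // w ≠ v}} (p : Pr G v C K a b) (c : {w : V // w ≠ v}) (hc : C c)
    (hca : c ≠ a) (hcb : c ≠ b) (hz : pz c ∈ K) (hadj : G.Adj a c ∨ G.Adj b c) : pz c ∈ QQ K a b ∧ px c ∈ QQ K a b := by
  have hx := g2 h c hc hz
  have h5 := p.in5 h
  have hcom : Com4 (px a : Op {w : V // w ≠ v}) (pz a) (px b) (pz b) (pz c) := com4_pz hca hcb
  have h1 : pz c ∈ QQ K a b := by
    refine QQ_mk hcom ?_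
    rcases hadj with hadj | hadj
    · exact g3 h a c p.ca hc h5.a hadj
    · exact abs_zb (rel4 p.ne).symm (h5.symm (rel4 p.ne)) hcom.symm (g3 h b c p.cb hc h5.c hadj)
  exact ⟨h1, q_px h p c hc hca hcb h1⟩

/-- propagation along an edge -/
theorem q_next (h : IdH G v C K) {a b : {w : V // w ≠ v}} (p : Pr G v C K a b) (c d : {w : V // w ≠ v}) (hc : C c) (hd : C d)
    (hda : d ≠ a) (hdb : d ≠ b) (hzc : pz c ∈ K) (hadj : G.Adj c d) (h1 : pz c ∈ QQ K a b) (h2 : px c ∈ QQ K a b) :
    pz d ∈ QQ K a b ∧ px d ∈ QQ K a b := by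
  have hne : d ≠ c := by
    rintro rfl
    exact G.loopless.1 _ hadj
  have m1 := g3 h c d hc hd (g2 h c hc hzc) hadj
  have cd : Com4 (px a : Op {w : V // w ≠ v}) (pz a) (px b) (pz b) (pz d) := com4_pz hda hdb
  have c1 := QQ_com h1
  have c2 := QQ_com h2
  have m2 : px c * (pz c * pz d) ∈ QQ K a b := by
    refine QQ_mk (c2.mul (c1.mul cd)) ?_
    refine mem_of_two ?_
    have := h.br _ (QQ_mem h2) _ m1
    convert this using 1
    have r1 : (pz d * px c : Op {w : V // w ≠ v}) = px c * pz d := (px_pz_ne c d hne).symm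
    simp only [mul_assoc, cd.b, asc cd.b, c1.b, asc c1.b, r1, asc r1, pz_px_self c, asc (pz_px_self c), neg_mul, mul_neg]
    abel
  have m3 := q_mul h p (q_mul h p h1 h2) m2
  have e : (pz c * px c * (px c * (pz c * pz d)) : Op {w : V // w ≠ v}) = pz d := by
    rw [mul_assoc, asc (px_sq c), one_mul, asc (pz_mul_self c), one_mul]
  rw [e] at m3
  exact ⟨m3, q_px h p d hd hda hdb m3⟩

open Classical in
/-- the sum of `Z_w` over the uncontrolled neighbours of `c` -/
theorem q_unc (h : IdH G v C K) {a b : {w : V // w ≠ v}} (p : Pr G v C K a b) (c : {w : V // w ≠ v}) (hc : C c)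
    (hca : c ≠ a) (hcb : c ≠ b) (hzc : pz c ∈ K) (hua : C a) (hub : C b) (h1 : pz c ∈ QQ K a b) (h2 : px c ∈ QQ K a b) :
    (∑ w : {w : V // w ≠ v}, if G.Adj c w ∧ ¬ C w then pz w else 0) ∈ QQ K a b := by
  set T : Op {w : V // w ≠ v} := ∑ w : {w : V // w ≠ v}, if G.Adj c w ∧ ¬ C w then pz w else 0 with hT
  have hx := g2 h c hc hzc
  have m1 := g_zS h c hc hx
  have e1 : ((∑ w : {w : V // w ≠ v}, if G.Adj c w then pz w else 0) : Op {w : V // w ≠ v}) =
      (∑ w : {w : V // w ≠ v}, if G.Adj c w ∧ C w then pz w else 0) + T := by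
    rw [hT, ← Finset.sum_add_distrib]
    refine Finset.sum_congr rfl fun w _ => ?_
    by_cases h1 : G.Adj c w <;> by_cases h2 : C w <;> simp [h1, h2]
  have m2 : pz c * (∑ w : {w : V // w ≠ v}, if G.Adj c w ∧ C w then pz w else 0 : Op {w : V // w ≠ v}) ∈ K := by
    rw [Finset.mul_sum]
    refine K.sum_mem fun w _ => ?_
    by_cases hw : G.Adj c w ∧ C w
    · rw [if_pos hw]
      exact g3 h c w hc hw.2 hx hw.1
    · rw [if_neg hw, mul_zero]
      exact K.zero_mem
  have m3 : pz c * (if G.Adj v c then 1 else 0 : Op {w : V // w ≠ v}) ∈ K := by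
    by_cases hv : G.Adj v c
    · rw [if_pos hv, mul_one]
      exact hzc
    · rw [if_neg hv, mul_zero]
      exact K.zero_mem
  have m4 : pz c * T ∈ K := by
    have := K.sub_mem (K.sub_mem m1 m2) m3
    convert this using 1
    rw [e1]
    noncomm_ring
  have cT : Com4 (px a : Op {w : V // w ≠ v}) (pz a) (px b) (pz b) T := by
    rw [hT]
    refine com4_sum _ _ fun w _ => ?_
    by_cases hw : G.Adj c w ∧ ¬ C w
    · rw [if_pos hw]
      refine com4_pz ?_ ?_
      · rintro rfl
        exact hw.2 hua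
      · rintro rfl
        exact hw.2 hub
    · rw [if_neg hw]
      exact ⟨by simp, by simp, by simp, by simp⟩
  have rT : T * px c = px c * T := by
    rw [hT]
    refine sum_commute _ _ _ fun w _ => ?_
    by_cases hw : G.Adj c w ∧ ¬ C w
    · rw [if_pos hw]
      refine (px_pz_ne c w ?_).symm
      rintro rfl
      exact G.loopless.1 _ hw.1
    · rw [if_neg hw, zero_mul, mul_zero]
  have c1 := QQ_com h1
  have c2 := QQ_com h2
  have m5 : px c * (pz c * T) ∈ QQ K a b := by
    refine QQ_mk (c2.mul (c1.mul cT)) ?_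
    refine mem_of_two ?_
    have := h.br _ (QQ_mem h2) _ m4
    convert this using 1
    simp only [mul_assoc, cT.b, asc cT.b, c1.b, asc c1.b, rT, asc rT, pz_px_self c, asc (pz_px_self c), neg_mul, mul_neg]
    abel
  have m6 := q_mul h p (q_mul h p h1 h2) m5
  have e : (pz c * px c * (px c * (pz c * T)) : Op {w : V // w ≠ v}) = T := by
    rw [mul_assoc, asc (px_sq c), one_mul, asc (pz_mul_self c), one_mul]
  rwa [e] at m6

/-- commutator with `H_M` -/
theorem q_HM (h : IdH G v C K) {a b : {w : V // w ≠ v}} (p : Pr G v C K a b) {q : Op {w : V // w ≠ v}} (hq : q ∈ QQ K a b) :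
    HM {w : V // w ≠ v} * q - q * HM {w : V // w ≠ v} ∈ QQ K a b := by
  have c := QQ_com hq
  have hs : ∀ u : {w : V // w ≠ v}, (HM {w : V // w ≠ v} * px u : Op {w : V // w ≠ v}) = px u * HM {w : V // w ≠ v} :=
    fun u => sum_commute _ _ _ fun w _ => px_comm w u
  have hz : ∀ u : {w : V // w ≠ v}, (HM {w : V // w ≠ v} * pz u : Op {w : V // w ≠ v}) =
      pz u * HM {w : V // w ≠ v} + (px u * pz u + px u * pz u) := by
    intro u
    have e1 : HM {w : V // w ≠ v} = px u + ∑ w ∈ Finset.univ.erase u, px w :=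
      (Finset.add_sum_erase Finset.univ (fun w : {w : V // w ≠ v} => (px w : Op {w : V // w ≠ v}))
        (Finset.mem_univ u)).symm
    have e2 : (∑ w ∈ Finset.univ.erase u, px w : Op {w : V // w ≠ v}) * pz u =
        pz u * ∑ w ∈ Finset.univ.erase u, px w :=
      sum_commute _ _ _ fun w hw => px_pz_ne w u (Finset.ne_of_mem_erase hw).symm
    rw [e1, add_mul, mul_add, e2, pz_px_self]
    abel
  refine QQ_mk ⟨?_, ?_, ?_, ?_⟩ ?_
  · rw [sub_mul, mul_sub, mul_assoc, mul_assoc, c.a, hs, ← mul_assoc, ← mul_assoc, hs, c.a, mul_assoc, mul_assoc]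
  · have e1 : (HM {w : V // w ≠ v} * q - q * HM {w : V // w ≠ v}) * pz a =
        (HM {w : V // w ≠ v} * pz a) * q - q * (HM {w : V // w ≠ v} * pz a) := by
      rw [sub_mul, mul_assoc, c.b, mul_assoc, mul_assoc]
    rw [e1, hz]
    simp only [mul_sub, mul_add, add_mul, mul_assoc, c.a, asc c.a, c.b, asc c.b]
    abel
  · rw [sub_mul, mul_sub, mul_assoc, mul_assoc, c.c, hs, ← mul_assoc, ← mul_assoc, hs, c.c, mul_assoc, mul_assoc]
  · have e1 : (HM {w : V // w ≠ v} * q - q * HM {w : V // w ≠ v}) * pz b =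
        (HM {w : V // w ≠ v} * pz b) * q - q * (HM {w : V // w ≠ v} * pz b) := by
      rw [sub_mul, mul_assoc, c.d, mul_assoc, mul_assoc]
    rw [e1, hz]
    simp only [mul_sub, mul_add, add_mul, mul_assoc, c.c, asc c.c, c.d, asc c.d]
    abel
  · have m1 := h.hM _ (QQ_mem hq)
    have m2 := abs_xz (rel4 p.ne) (p.in5 h) c (QQ_mem hq)
    have := K.sub_mem m1 (K.add_mem m2 m2)
    convert this using 1
    rw [← mul_assoc (HM {w : V // w ≠ v}), hz]
    simp only [mul_sub, add_mul, mul_assoc]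
    abel

/-- commutator with `H_P`, if it commutes with the qubits `a`, `b` -/
theorem q_HP (h : IdH G v C K) {a b : {w : V // w ≠ v}} (p : Pr G v C K a b) {q : Op {w : V // w ≠ v}} (hq : q ∈ QQ K a b)
    (hnb : ∀ w : {w : V // w ≠ v}, G.Adj a w → w ≠ b → pz w ∈ QQ K a b)
    (h1 : (HPr G v * q - q * HPr G v) * px a = px a * (HPr G v * q - q * HPr G v))
    (h2 : (HPr G v * q - q * HPr G v) * pz a = pz a * (HPr G v * q - q * HPr G v))
    (h3 : (HPr G v * q - q * HPr G v) * px b = px b * (HPr G v * q - q * HPr G v))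
    (h4 : (HPr G v * q - q * HPr G v) * pz b = pz b * (HPr G v * q - q * HPr G v)) :
    HPr G v * q - q * HPr G v ∈ QQ K a b := by
  classical
  have c := QQ_com hq
  have h5 := p.in5 h
  have r4 : Rel4 (px a : Op {w : V // w ≠ v}) (pz a) (px b) (pz b) := rel4 p.ne
  obtain ⟨T, hT, hH⟩ := HPr_split G v a
  set S : Op {w : V // w ≠ v} := (∑ w : {w : V // w ≠ v}, if G.Adj a w then pz w else 0) + (if G.Adj v a then 1 else 0)
    with hS
  have mX : px a * q ∈ K := abs_x r4 h5 c (QQ_mem hq)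
  have mH := h.hP _ mX
  have hSx : S * px a = px a * S := by
    rw [hS, add_mul, mul_add]
    congr 1
    · refine sum_commute _ _ _ fun x hx => ?_
      by_cases hx' : G.Adj a x
      · rw [if_pos hx']
        refine (px_pz_ne a x ?_).symm
        rintro rfl
        exact G.loopless.1 _ hx'
      · rw [if_neg hx', zero_mul, mul_zero]
    · by_cases hv : G.Adj v a
      · rw [if_pos hv, one_mul, mul_one]
      · rw [if_neg hv, zero_mul, mul_zero]
  have hHx : HPr G v * px a = px a * HPr G v - (px a * (pz a * S) + px a * (pz a * S)) := by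
    rw [hH]
    simp only [add_mul, mul_add, mul_assoc, hSx, hT, asc (pz_px_self a), neg_mul]
    abel
  have mS : px a * (pz a * (S * q)) ∈ K := by
    have e : px a * (pz a * (S * q)) = (∑ w : {w : V // w ≠ v}, px a * (pz a * ((if G.Adj a w then pz w else 0) * q))) +
        px a * (pz a * ((if G.Adj v a then 1 else 0) * q)) := by
      rw [hS, add_mul, Finset.sum_mul, mul_add, Finset.mul_sum, mul_add, Finset.mul_sum]
    rw [e]
    refine K.add_mem (K.sum_mem fun w _ => ?_) ?_
    · by_cases hw : G.Adj a w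
      · rw [if_pos hw]
        by_cases hwb : w = b
        · subst hwb
          exact abs_xzz r4 h5 c (QQ_mem hq)
        · have := q_mul h p (hnb w hw hwb) hq
          exact abs_xz r4 h5 (QQ_com this) (QQ_mem this)
      · rw [if_neg hw, zero_mul, mul_zero, mul_zero]
        exact K.zero_mem
    · by_cases hv : G.Adj v a
      · rw [if_pos hv, one_mul]
        exact abs_xz r4 h5 c (QQ_mem hq)
      · rw [if_neg hv, zero_mul, mul_zero, mul_zero]
        exact K.zero_mem
  have mXp : px a * (HPr G v * q - q * HPr G v) ∈ K := by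
    have := K.add_mem mH (K.add_mem mS mS)
    convert this using 1
    rw [← mul_assoc (HPr G v), hHx]
    simp only [mul_sub, sub_mul, add_mul, mul_assoc]
    abel
  exact QQ_mk ⟨h1, h2, h3, h4⟩ (abs_z_of_x r4 h5 ⟨h1, h2, h3, h4⟩ mXp)

end

end Pool.Agent.QAOA.CX
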