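import Pool.Agent.Lib_MP_debdb1_mp.Part

/-!
# Piece ROOT: an equitable partition modulo 2 whose classes lie in the reduced Lie algebra
-/

set_option autoImplicit false

namespace Pool.Agent.QAOA.CX

open Matrix Pool.Agent.QAOA

section linear

variable {V : Type*} [Fintype V] [DecidableEq V]

theorem root_px_z_in (j : V) : (px j * pz j : Op V) = -(pz j * px j) := by
  rw [pz, px_diag, ← neg_mul]
  congr 1
  rw [Matrix.diagonal_neg]
  congr 1
  funext x
  simp [sg_flip]

theorem root_px_z_out (a j : V) (h : j ≠ a) : (px a * pz j : Op V) = pz j * px a := by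
  rw [pz, px_diag]
  congr 1
  congr 1
  funext x
  simp [sg_flip, h]

theorem root_ad_z (A : Finset V) (j : V) (hj : j ∈ A) :
    ad A (pz j) = (2 : ℂ) • (px j * pz j) := by
  rw [ad_apply, Finset.sum_mul, Finset.mul_sum, ← Finset.sum_sub_distrib]
  have e : ∀ a ∈ A, (px a * pz j - pz j * px a : Op V) =
      (if a = j then (2 : ℂ) • (px j * pz j) else 0) := by
    intro a _
    by_cases h1 : a = j
    · subst h1
      rw [if_pos rfl, two_smul]
      have := root_px_z_in a
      rw [sub_eq_add_neg, ← this]
    · rw [if_neg h1, root_px_z_out a j (Ne.symm h1), sub_self]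
  rw [Finset.sum_congr rfl e, Finset.sum_ite_eq', if_pos hj]

theorem root_ad2_z (A : Finset V) (j : V) (hj : j ∈ A) :
    ad A (ad A (pz j)) = (4 : ℂ) • (pz j : Op V) := by
  have hc : (∑ a ∈ A, px a) * px j = (px j * ∑ a ∈ A, px a : Op V) := by
    rw [Finset.sum_mul, Finset.mul_sum]
    exact Finset.sum_congr rfl fun a _ => px_comm a j
  rw [root_ad_z A j hj, map_smul, ad_mul_of_comm A _ _ hc, root_ad_z A j hj, Matrix.mul_smul,
    ← mul_assoc, px_sq, one_mul, smul_smul]
  norm_num

theorem root_qA_z (A : Finset V) (j : V) (hj : j ∈ A) : qA A (pz j) = (pz j : Op V) := by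
  rw [qA, root_ad2_z A j hj, map_smul, map_smul, root_ad2_z A j hj, smul_smul, smul_smul,
    smul_smul, ← sub_smul]
  norm_num

theorem root_qA_add (A : Finset V) (M N : Op V) : qA A (M + N) = qA A M + qA A N := by
  have hlin : ∀ M : Op V, qA A M = ((1 / 3 : ℂ) • (ad A ∘ₗ ad A) - (1 / 48 : ℂ) • (ad A ∘ₗ ad A ∘ₗ ad A ∘ₗ ad A)) M := by
    intro M
    rfl
  rw [hlin, hlin, hlin, map_add]

theorem root_qA_sum {ι : Type*} (A : Finset V) (s : Finset ι) (M : ι → Op V) :
    qA A (∑ i ∈ s, M i) = ∑ i ∈ s, qA A (M i) := by
  have hlin : ∀ M : Op V, qA A M = ((1 / 3 : ℂ) • (ad A ∘ₗ ad A) - (1 / 48 : ℂ) • (ad A ∘ₗ ad A ∘ₗ ad A ∘ₗ ad A)) M := by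
    intro M
    rfl
  simp only [hlin]
  rw [map_sum]

theorem root_qA_univ_Hw (w : V → V → ℝ) (hdiag : ∀ j, w j j = 0) :
    qA Finset.univ (Hw w) = 0 := by
  rw [qA_Hw _ w hdiag]
  unfold Hw
  simp

end linear

section finest

variable {U : Type*} [Fintype U] [DecidableEq U]

/-- a partition with the largest number of classes: no class can be split -/
theorem root_exists_finest (P : Finset U → Prop) (h0 : P ∅) (h1 : P Finset.univ)
    (hsd : ∀ A B, P A → P B → B ⊆ A → P (A \ B)) :
    ∃ c : U → U, (∀ t, P (Finset.univ.filter (fun x => c x = t))) ∧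
      ∀ t, ∀ A1 ⊆ Finset.univ.filter (fun x => c x = t),
      P A1 → A1 = ∅ ∨ A1 = Finset.univ.filter (fun x => c x = t) := by
  classical
  rcases isEmpty_or_nonempty U with hV | ⟨⟨v0⟩⟩
  · refine ⟨id, fun t => hV.elim t, fun t => hV.elim t⟩
  · have hne : (Finset.univ.filter (fun c : U → U =>
        ∀ t, P (Finset.univ.filter (fun x => c x = t)))).Nonempty := by
      refine ⟨fun _ => v0, Finset.mem_filter.2 ⟨Finset.mem_univ _, fun t => ?_⟩⟩
      by_cases h : v0 = t
      · have : Finset.univ.filter (fun _ : U => v0 = t) = Finset.univ := by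
          ext x; simp [h]
        rw [this]
        exact h1
      · have : Finset.univ.filter (fun _ : U => v0 = t) = ∅ := by
          ext x; simp [h]
        rw [this]
        exact h0
    obtain ⟨c, hc, hmax⟩ := Finset.exists_max_image _
      (fun c : U → U => (Finset.univ.image c).card) hne
    have hcg : ∀ t, P (Finset.univ.filter (fun x => c x = t)) := (Finset.mem_filter.1 hc).2
    refine ⟨c, hcg, ?_⟩
    intro t A1 hA1 hcl
    by_contra hcon
    push Not at hcon
    obtain ⟨hne1, hneA⟩ := hcon
    obtain ⟨a, ha⟩ := hne1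
    have hcA1 : ∀ x ∈ A1, c x = t := fun x hx => (Finset.mem_filter.1 (hA1 hx)).2
    obtain ⟨b, hb, hbA1⟩ : ∃ b, c b = t ∧ b ∉ A1 := by
      by_contra hcon
      push Not at hcon
      apply hneA
      refine Finset.Subset.antisymm hA1 fun x hx => hcon x (Finset.mem_filter.1 hx).2
    have hab : a ≠ b := fun h => hbA1 (h ▸ ha)
    have hninj : ¬ Function.Injective c := fun h => hab (h ((hcA1 a ha).trans hb.symm))
    have hnsurj : ¬ Function.Surjective c := fun h => hninj (Finite.injective_iff_surjective.2 h)
    obtain ⟨t', ht'⟩ : ∃ t', ∀ x, c x ≠ t' := by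
      by_contra hcon
      push Not at hcon
      exact hnsurj hcon
    let c' : U → U := fun x => if x ∈ A1 then t' else c x
    have hc'1 : ∀ x, x ∈ A1 → c' x = t' := fun x hx => if_pos hx
    have hc'2 : ∀ x, x ∉ A1 → c' x = c x := fun x hx => if_neg hx
    have hg : ∀ s, P (Finset.univ.filter (fun x => c' x = s)) := by
      intro s
      by_cases hs : s = t'
      · have : Finset.univ.filter (fun x => c' x = s) = A1 := by
          ext x
          simp only [Finset.mem_filter, Finset.mem_univ, true_and]
          constructor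
          · intro h
            by_contra hx
            rw [hc'2 x hx, hs] at h
            exact ht' x h
          · intro h
            rw [hc'1 x h, hs]
        rw [this]
        exact hcl
      · by_cases hst : s = t
        · have : Finset.univ.filter (fun x => c' x = s) =
              Finset.univ.filter (fun x => c x = t) \ A1 := by
            ext x
            simp only [Finset.mem_filter, Finset.mem_univ, true_and, Finset.mem_sdiff]
            constructor
            · intro h
              have hx : x ∉ A1 := by
                intro hx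
                rw [hc'1 x hx] at h
                exact hs h.symm
              rw [hc'2 x hx] at h
              exact ⟨h.trans hst, hx⟩
            · rintro ⟨h, hx⟩
              rw [hc'2 x hx, h, hst]
          rw [this]
          exact hsd _ _ (hcg t) hcl hA1
        · have : Finset.univ.filter (fun x => c' x = s) =
              Finset.univ.filter (fun x => c x = s) := by
            ext x
            simp only [Finset.mem_filter, Finset.mem_univ, true_and]
            by_cases hx : x ∈ A1
            · rw [hc'1 x hx, hcA1 x hx]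
              exact ⟨fun h => absurd h.symm hs, fun h => absurd h.symm hst⟩
            · rw [hc'2 x hx]
          rw [this]
          exact hcg s
    have hle := hmax c' (Finset.mem_filter.2 ⟨Finset.mem_univ _, hg⟩)
    have himg : insert t' (Finset.univ.image c) ⊆ Finset.univ.image c' := by
      intro y hy
      rcases Finset.mem_insert.1 hy with rfl | hy
      · exact Finset.mem_image.2 ⟨a, Finset.mem_univ _, hc'1 a ha⟩
      · obtain ⟨x, _, rfl⟩ := Finset.mem_image.1 hy
        by_cases hx : x ∈ A1
        · refine Finset.mem_image.2 ⟨b, Finset.mem_univ _, ?_⟩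
          rw [hc'2 b hbA1, hb, hcA1 x hx]
        · exact Finset.mem_image.2 ⟨x, Finset.mem_univ _, hc'2 x hx⟩
    have hnot : t' ∉ Finset.univ.image c := by
      intro h
      obtain ⟨x, _, hx⟩ := Finset.mem_image.1 h
      exact ht' x hx
    have := Finset.card_le_card himg
    rw [Finset.card_insert_of_notMem hnot] at this
    omega

open Classical in
/-- the finest partition is equitable modulo 2 -/
theorem root_equi_finest (K : SimpleGraph U) (P : Finset U → Prop)
    (hdeg : ∀ A, P A → P (A.filter (fun a => (Finset.univ.filter (fun x => K.Adj a x)).card % 2 = 1)))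
    (hnbr : ∀ A B, P A → P B → Disjoint A B →
      P (A.filter (fun a => (B.filter (fun x => K.Adj a x)).card % 2 = 1)))
    (c : U → U) (hg : ∀ t, P (Finset.univ.filter (fun x => c x = t)))
    (hfin : ∀ t, ∀ A1 ⊆ Finset.univ.filter (fun x => c x = t),
      P A1 → A1 = ∅ ∨ A1 = Finset.univ.filter (fun x => c x = t)) :
    ∀ u w, c u = c w → ∀ t,
        (Finset.univ.filter (fun x => K.Adj u x ∧ c x = t)).card % 2 =
          (Finset.univ.filter (fun x => K.Adj w x ∧ c x = t)).card % 2 := by
  have hoth : ∀ u w, c u = c w → ∀ t, t ≠ c u →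
      (Finset.univ.filter (fun x => K.Adj u x ∧ c x = t)).card % 2 =
        (Finset.univ.filter (fun x => K.Adj w x ∧ c x = t)).card % 2 := by
    intro u w huw t ht
    have hdis : Disjoint (Finset.univ.filter (fun x => c x = c u))
        (Finset.univ.filter (fun x => c x = t)) := by
      rw [Finset.disjoint_left]
      intro x hx hx'
      exact ht ((Finset.mem_filter.1 hx').2.symm.trans (Finset.mem_filter.1 hx).2)
    have hcl := hnbr _ _ (hg (c u)) (hg t) hdis
    have hcard : ∀ a, ((Finset.univ.filter (fun x => c x = t)).filter (fun x => K.Adj a x)).card =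
        (Finset.univ.filter (fun x => K.Adj a x ∧ c x = t)).card := by
      intro a
      congr 1
      ext x
      simp only [Finset.mem_filter, Finset.mem_univ, true_and]
      tauto
    have hor := hfin (c u) _ (Finset.filter_subset _ _) hcl
    have hmem : ∀ a, c a = c u → (a ∈ (Finset.univ.filter (fun x => c x = c u)).filter
        (fun a => ((Finset.univ.filter (fun x => c x = t)).filter
          (fun x => K.Adj a x)).card % 2 = 1) ↔
        (Finset.univ.filter (fun x => K.Adj a x ∧ c x = t)).card % 2 = 1) := by
      intro a ha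
      rw [Finset.mem_filter, hcard a]
      exact ⟨fun h => h.2, fun h => ⟨Finset.mem_filter.2 ⟨Finset.mem_univ _, ha⟩, h⟩⟩
    have hu := hmem u rfl
    have hw := hmem w huw.symm
    rcases hor with h | h
    · rw [h] at hu hw
      have hu' := mt hu.2 (Finset.notMem_empty _)
      have hw' := mt hw.2 (Finset.notMem_empty _)
      omega
    · rw [h] at hu hw
      have hu' := hu.1 (Finset.mem_filter.2 ⟨Finset.mem_univ _, rfl⟩)
      have hw' := hw.1 (Finset.mem_filter.2 ⟨Finset.mem_univ _, huw.symm⟩)
      omega
  have hdeg' : ∀ u w, c u = c w → (Finset.univ.filter (fun x => K.Adj u x)).card % 2 =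
      (Finset.univ.filter (fun x => K.Adj w x)).card % 2 := by
    intro u w huw
    have hcl := hdeg _ (hg (c u))
    have hor := hfin (c u) _ (Finset.filter_subset _ _) hcl
    have hmem : ∀ a, c a = c u → (a ∈ (Finset.univ.filter (fun x => c x = c u)).filter
        (fun a => (Finset.univ.filter (fun x => K.Adj a x)).card % 2 = 1) ↔
        (Finset.univ.filter (fun x => K.Adj a x)).card % 2 = 1) := by
      intro a ha
      rw [Finset.mem_filter]
      exact ⟨fun h => h.2, fun h => ⟨Finset.mem_filter.2 ⟨Finset.mem_univ _, ha⟩, h⟩⟩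
    have hu := hmem u rfl
    have hw := hmem w huw.symm
    rcases hor with h | h
    · rw [h] at hu hw
      have hu' := mt hu.2 (Finset.notMem_empty _)
      have hw' := mt hw.2 (Finset.notMem_empty _)
      omega
    · rw [h] at hu hw
      have hu' := hu.1 (Finset.mem_filter.2 ⟨Finset.mem_univ _, rfl⟩)
      have hw' := hw.1 (Finset.mem_filter.2 ⟨Finset.mem_univ _, huw.symm⟩)
      omega
  intro u w huw t
  by_cases ht : t = c u
  · -- the degree is the sum over all classes
    have hsum : ∀ a, (Finset.univ.filter (fun x => K.Adj a x)).card =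
        (Finset.univ.filter (fun x => K.Adj a x ∧ c x = t)).card +
          ∑ s ∈ Finset.univ.erase t, (Finset.univ.filter (fun x => K.Adj a x ∧ c x = s)).card := by
      intro a
      rw [Finset.add_sum_erase Finset.univ
        (fun s => (Finset.univ.filter (fun x => K.Adj a x ∧ c x = s)).card) (Finset.mem_univ t)]
      rw [Finset.card_eq_sum_card_fiberwise (f := c) (t := Finset.univ)
        (fun x _ => Finset.mem_coe.2 (Finset.mem_univ _))]
      refine Finset.sum_congr rfl fun s _ => ?_
      rw [Finset.filter_filter]
    have hS : (∑ s ∈ Finset.univ.erase t,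
          (Finset.univ.filter (fun x => K.Adj u x ∧ c x = s)).card) % 2 =
        (∑ s ∈ Finset.univ.erase t,
          (Finset.univ.filter (fun x => K.Adj w x ∧ c x = s)).card) % 2 := by
      rw [Finset.sum_nat_mod, Finset.sum_nat_mod (Finset.univ.erase t) 2
        (fun s => (Finset.univ.filter (fun x => K.Adj w x ∧ c x = s)).card)]
      congr 1
      refine Finset.sum_congr rfl fun s hs => ?_
      exact hoth u w huw s (fun h => (Finset.mem_erase.1 hs).1 (h.trans ht.symm))
    have h1 := hsum u
    have h2 := hsum w
    have h3 := hdeg' u w huw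
    omega
  · exact hoth u w huw t ht

end finest

section closure

variable {U : Type*} [Fintype U] [DecidableEq U]

/-- the class sum of `A` is in `S` -/
def RIn (S : Submodule ℝ (Op U)) (A : Finset U) : Prop := Complex.I • ∑ a ∈ A, px a ∈ S

open Classical in
theorem root_deg (S : Submodule ℝ (Op U)) (hS : ∀ M ∈ S, ∀ N ∈ S, M * N - N * M ∈ S)
    (K : SimpleGraph U) (hK : Complex.I • HP K ∈ S) (A : Finset U) (hA : RIn S A) :
    RIn S (A.filter (fun a => (Finset.univ.filter (fun x => K.Adj a x)).card % 2 = 1)) := by
  refine parity_step S hS (hw (fun j k => if K.Adj j k then 1 else 0)) ?_ A hA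
    (fun a => Finset.univ.filter (fun x => K.Adj a x)) ?_
  · rw [← Hw_eq, ← HP_eq]
    exact hK
  · intro a _ x
    rw [hw_flip]
    · congr 1
      rw [Finset.sum_filter]
      refine Finset.sum_congr rfl fun k _ => ?_
      split_ifs <;> simp
    · intro j k
      simp [K.adj_comm]
    · intro j
      simp

open Classical in
theorem root_nbr (S : Submodule ℝ (Op U)) (hS : ∀ M ∈ S, ∀ N ∈ S, M * N - N * M ∈ S)
    (K : SimpleGraph U) (hK : Complex.I • HP K ∈ S) (A B : Finset U) (hA : RIn S A)
    (hB : RIn S B) (h : Disjoint A B) :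
    RIn S (A.filter (fun a => (B.filter (fun x => K.Adj a x)).card % 2 = 1)) := by
  set w0 : U → U → ℝ := fun j k => if K.Adj j k then 1 else 0 with hw0
  set w1 : U → U → ℝ := fun j k => if (j ∈ A ∧ k ∉ A) ∨ (j ∉ A ∧ k ∈ A) then w0 j k else 0 with hw1
  set w2 : U → U → ℝ := fun j k => if (j ∈ B ∧ k ∉ B) ∨ (j ∉ B ∧ k ∈ B) then w1 j k else 0 with hw2
  have m0 : Complex.I • Hw w0 ∈ S := by
    rw [← HP_eq]
    exact hK
  have m1 : Complex.I • Hw w1 ∈ S := by
    have := qA_mem S hS A hA _ m0
    rwa [qA_Hw A w0 (by intro j; simp [hw0])] at this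
  have m2 : Complex.I • Hw w2 ∈ S := by
    have := qA_mem S hS B hB _ m1
    rwa [qA_Hw B w1 (by intro j; simp [hw1, hw0])] at this
  refine parity_step S hS (hw w2) ?_ A hA (fun a => B.filter (fun x => K.Adj a x)) ?_
  · rw [← Hw_eq]
    exact m2
  · intro a ha x
    rw [hw_flip]
    · congr 1
      rw [Finset.sum_filter, ← Finset.sum_filter_add_sum_filter_not Finset.univ (fun k => k ∈ B)]
      have e1 : ∑ k ∈ Finset.univ.filter (fun k => ¬ k ∈ B), w2 a k * (si (x k) : ℝ) = 0 := by
        refine Finset.sum_eq_zero fun k hk => ?_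
        have hk' : k ∉ B := (Finset.mem_filter.1 hk).2
        have ha' : a ∉ B := Finset.disjoint_left.1 h ha
        simp [hw2, hk', ha']
      rw [e1, add_zero]
      have e2 : Finset.univ.filter (fun k => k ∈ B) = B := by ext k; simp
      rw [e2]
      refine Finset.sum_congr rfl fun k hk => ?_
      have ha' : a ∉ B := Finset.disjoint_left.1 h ha
      have hk' : k ∉ A := Finset.disjoint_right.1 h hk
      simp only [hw2, hw1, hw0]
      rw [if_pos (Or.inr ⟨ha', hk⟩), if_pos (Or.inl ⟨ha, hk'⟩)]
      split_ifs <;> simp
    · intro j k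
      simp only [hw2, hw1, hw0, K.adj_comm j k]
      congr 1
      · apply propext; tauto
      · congr 1
        apply propext; tauto
    · intro j
      simp [hw2, hw1, hw0]

open Classical in
/-- double commutator with a sum of `Z`'s -/
theorem root_lin (S : Submodule ℝ (Op U)) (hS : ∀ M ∈ S, ∀ N ∈ S, M * N - N * M ∈ S)
    (p : U → Prop) (hN : Complex.I • (∑ w : U, if p w then pz w else 0 : Op U) ∈ S)
    (A : Finset U) (hA : RIn S A) : RIn S (A.filter p) := by
  set h : (U → Bool) → ℝ := fun x => ∑ w, if p w then (si (x w) : ℝ) else 0 with hh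
  have hD : (∑ w : U, if p w then pz w else 0 : Op U) = Matrix.diagonal (fun x => (h x : ℂ)) := by
    ext x y
    rw [Matrix.sum_apply]
    by_cases hxy : x = y
    · subst hxy
      rw [Matrix.diagonal_apply_eq, hh]
      push_cast
      refine Finset.sum_congr rfl fun w _ => ?_
      by_cases hp : p w
      · rw [if_pos hp, if_pos hp, pz, Matrix.diagonal_apply_eq, sg_eq]
        simp
      · rw [if_neg hp, if_neg hp]
        simp
    · rw [Matrix.diagonal_apply_ne _ hxy]
      refine Finset.sum_eq_zero fun w _ => ?_
      by_cases hp : p w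
      · rw [if_pos hp, pz, Matrix.diagonal_apply_ne _ hxy]
      · rw [if_neg hp]
        rfl
  rw [hD] at hN
  have key := poly_mem S hS h hN _ hA (Polynomial.C (1 / 4 : ℝ) * Polynomial.X)
  unfold RIn
  convert key using 1
  ext x y
  simp only [Matrix.of_apply, Matrix.smul_apply, smul_eq_mul, sum_px_apply]
  rw [Finset.sum_filter, Finset.mul_sum, Finset.mul_sum, Finset.mul_sum]
  refine Finset.sum_congr rfl fun a _ => ?_
  by_cases hy : y = flip x a
  · have e0 : h x - h (flip x a) = if p a then 2 * (si (x a) : ℝ) else 0 := by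
      simp only [hh]
      rw [← Finset.sum_sub_distrib, Finset.sum_eq_single a]
      · rw [si_flip, if_pos rfl]
        split_ifs
        · push_cast; ring
        · simp
      · intro b _ hb
        rw [si_flip, if_neg hb, sub_self]
      · simp
    have h6 : (si (x a) : ℝ) ^ 2 = 1 := by
      cases x a <;> simp [si]
    rw [if_pos hy, hy, e0]
    simp only [Polynomial.eval_mul, Polynomial.eval_C, Polynomial.eval_X]
    by_cases hp : p a
    · rw [if_pos hp, if_pos hp]
      have : (1 / 4 : ℝ) * (2 * (si (x a) : ℝ)) ^ 2 = 1 := by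
        rw [mul_pow, h6]; norm_num
      rw [this]
      simp
    · rw [if_neg hp, if_neg hp]
      simp
  · rw [if_neg hy]
    split_ifs <;> simp

end closure

open Classical in
theorem exists_equi_red {V : Type*} [Fintype V] [DecidableEq V] (G : SimpleGraph V) (v : V) :
    ∃ c : V → V, Equi G c ∧ ∀ t, (Complex.I • ∑ x : {x : V // x ≠ v}, if c x.1 = t then px x else 0) ∈ gRed G v := by
  set S := gRed G v with hSdef
  have hS : ∀ M ∈ S, ∀ N ∈ S, M * N - N * M ∈ S := fun M hM N hN => gen_comm _ _ M N hM hN
  set K : SimpleGraph {x : V // x ≠ v} := G.comap (Subtype.val : {x : V // x ≠ v} → V) with hKdef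
  have hHM : RIn S Finset.univ := gen_right _ _
  have hHPr : Complex.I • HPr G v ∈ S := gen_left _ _
  -- the linear part
  have hN : Complex.I • (∑ w : {x : V // x ≠ v}, if G.Adj v w then pz w else 0 :
      Op {x : V // x ≠ v}) ∈ S := by
    have h1 := qA_mem S hS Finset.univ hHM _ hHPr
    have h2 : qA Finset.univ (HPr G v) =
        (∑ w : {x : V // x ≠ v}, if G.Adj v w then pz w else 0 : Op {x : V // x ≠ v}) := by
      rw [HPr, root_qA_add, root_qA_sum, HP_eq, root_qA_univ_Hw _ (by intro j; simp), zero_add]
      refine Finset.sum_congr rfl fun w _ => ?_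
      split_ifs
      · exact root_qA_z _ _ (Finset.mem_univ _)
      · have := root_qA_add (Finset.univ : Finset {x : V // x ≠ v}) 0 0
        simpa using this
    rwa [h2] at h1
  have hK : Complex.I • HP K ∈ S := by
    have h1 := S.sub_mem hHPr hN
    rw [← smul_sub, HPr, add_sub_cancel_right] at h1
    exact h1
  obtain ⟨c', hg, hfin⟩ := root_exists_finest (RIn S)
    (by unfold RIn; rw [Finset.sum_empty, smul_zero]; exact Submodule.zero_mem _) hHM
    (by
      intro A B hA hB h
      unfold RIn at *
      have h1 := S.sub_mem hA hB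
      convert h1 using 1
      rw [← smul_sub, ← Finset.sum_sdiff h]
      simp)
  have heq := root_equi_finest K (RIn S) (fun A hA => root_deg S hS K hK A hA)
    (fun A B hA hB h => root_nbr S hS K hK A B hA hB h) c' hg hfin
  -- neighbours of `v`
  have hadj : ∀ u w : {x : V // x ≠ v}, c' u = c' w → (G.Adj v u ↔ G.Adj v w) := by
    have key : ∀ u w : {x : V // x ≠ v}, c' u = c' w → G.Adj v u → G.Adj v w := by
      intro u w huw hu
      have h1 := root_lin S hS (fun w : {x : V // x ≠ v} => G.Adj v w) hN _ (hg (c' u))
      rcases hfin (c' u) _ (Finset.filter_subset _ _) h1 with h2 | h2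
      · have : u ∈ (Finset.univ.filter (fun x => c' x = c' u)).filter
            (fun w : {x : V // x ≠ v} => G.Adj v w) :=
          Finset.mem_filter.2 ⟨Finset.mem_filter.2 ⟨Finset.mem_univ _, rfl⟩, hu⟩
        rw [h2] at this
        exact absurd this (Finset.notMem_empty _)
      · have : w ∈ Finset.univ.filter (fun x => c' x = c' u) :=
          Finset.mem_filter.2 ⟨Finset.mem_univ _, huw.symm⟩
        rw [← h2] at this
        exact (Finset.mem_filter.1 this).2
    exact fun u w h => ⟨key u w h, key w u h.symm⟩
  let c : V → V := fun x => if h : x = v then v else (c' ⟨x, h⟩).1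
  have hcv : c v = v := dif_pos rfl
  have hcx : ∀ x : {x : V // x ≠ v}, c x.1 = (c' x).1 := fun x => dif_neg x.2
  have hcne : ∀ x : {x : V // x ≠ v}, c x.1 ≠ v := fun x => by rw [hcx]; exact (c' x).2
  refine ⟨c, ?_, ?_⟩
  · have hmain : ∀ u w : {x : V // x ≠ v}, c' u = c' w → ∀ t,
        (Finset.univ.filter (fun x => G.Adj u x ∧ c x = t)).card % 2 =
          (Finset.univ.filter (fun x => G.Adj w x ∧ c x = t)).card % 2 := by
      intro u w huw t
      by_cases ht : t = v
      · have h1 : ∀ a : {x : V // x ≠ v}, Finset.univ.filter (fun x => G.Adj a x ∧ c x = t) =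
            if G.Adj v a then {v} else ∅ := by
          intro a
          ext x
          simp only [Finset.mem_filter, Finset.mem_univ, true_and]
          constructor
          · rintro ⟨h2, h3⟩
            have hxv : x = v := by
              by_contra hx
              exact hcne ⟨x, hx⟩ (h3.trans ht)
            subst hxv
            rw [if_pos h2.symm]
            exact Finset.mem_singleton_self _
          · intro hx
            split_ifs at hx with h2
            · rw [Finset.mem_singleton] at hx
              subst hx
              exact ⟨h2.symm, hcv.trans ht.symm⟩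
            · exact absurd hx (Finset.notMem_empty _)
        rw [h1 u, h1 w]
        simp only [hadj u w huw]
      · have h1 : ∀ a : {x : V // x ≠ v}, (Finset.univ.filter (fun x => G.Adj a x ∧ c x = t)).card =
            (Finset.univ.filter (fun x => K.Adj a x ∧ c' x = ⟨t, ht⟩)).card := by
          intro a
          rw [← Finset.card_map (Function.Embedding.subtype (fun x : V => x ≠ v))]
          congr 1
          ext x
          simp only [Finset.mem_filter, Finset.mem_univ, true_and, Finset.mem_map,
            Function.Embedding.coe_subtype]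
          constructor
          · rintro ⟨h2, h3⟩
            have hx : x ≠ v := by
              rintro rfl
              exact ht (h3.symm.trans hcv)
            refine ⟨⟨x, hx⟩, ⟨h2, ?_⟩, rfl⟩
            apply Subtype.ext
            rw [← hcx]
            exact h3
          · rintro ⟨y, ⟨h2, h3⟩, rfl⟩
            refine ⟨h2, ?_⟩
            rw [hcx, h3]
        rw [h1 u, h1 w]
        exact heq u w huw ⟨t, ht⟩
    intro u w huw t
    by_cases hu : u = v
    · have hw : w = v := by
        by_contra hw
        apply hcne ⟨w, hw⟩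
        change c w = v
        rw [← huw, hu, hcv]
      rw [hu, hw]
    · have hw : w ≠ v := by
        intro hw
        apply hcne ⟨u, hu⟩
        change c u = v
        rw [huw, hw, hcv]
      have h1 : c' ⟨u, hu⟩ = c' ⟨w, hw⟩ := by
        apply Subtype.ext
        rw [← hcx, ← hcx]
        exact huw
      refine Eq.trans ?_ ((hmain ⟨u, hu⟩ ⟨w, hw⟩ h1 t).trans ?_) <;> congr
  · intro t
    by_cases ht : t = v
    · have : (∑ x : {x : V // x ≠ v}, if c x.1 = t then px x else 0 : Op {x : V // x ≠ v}) = 0 := by
        refine Finset.sum_eq_zero fun x _ => if_neg fun h => hcne x (h.trans ht)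
      rw [this, smul_zero]
      exact Submodule.zero_mem _
    · have h1 := hg ⟨t, ht⟩
      unfold RIn at h1
      rw [Finset.sum_filter] at h1
      convert h1 using 2
      refine Finset.sum_congr rfl fun x _ => ?_
      have : c x.1 = t ↔ c' x = ⟨t, ht⟩ := by
        rw [hcx]
        exact ⟨fun h => Subtype.ext h, fun h => by rw [h]⟩
      by_cases h2 : c x.1 = t
      · rw [if_pos h2, if_pos (this.1 h2)]
      · rw [if_neg h2, if_neg (mt this.2 h2)]

end Pool.Agent.QAOA.CX
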