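import Pool.Agent.Lib_MP_debdb1_cx.Ub1

/-!
# Piece UB: the part of the Lie algebra which kills all hidden states is small
-/

set_option autoImplicit false

namespace Pool.Agent.QAOA.CX

open Matrix Pool.Agent.QAOA

theorem upper (m : ℕ) [NeZero m] (A : Finset (ZMod m)) (K : Submodule ℂ (Op (VA m A)))
    (hK : K ≤ genC (HP (compG m A)) (HM (VA m A))) (hk : ∀ p, ∀ z ∈ K, z * hid m A p = 0) :
    Module.finrank ℂ K ≤ (Module.finrank ℂ SS - 1) ^ A.card * 4 ^ m + 1 :=
  upper' m A K hK hk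

end Pool.Agent.QAOA.CX
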