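import Pool.Agent.Lib_MP_debdb1_cx.Odd
import Pool.Agent.Lib_MP_debdb1_cx.Root
import Pool.Agent.Lib_MP_debdb1_cx.Asy
import Pool.Agent.Lib_MP_debdb1_cx.Hid
import Pool.Agent.Lib_MP_debdb1_cx.Ub
import Pool.Agent.Lib_MP_debdb1_cx.LbDim

/-!
# Assembly of the counterexample
-/

set_option autoImplicit false

namespace Pool.Agent.QAOA.CX

open Matrix Pool.Agent.QAOA

section genC
variable {R : Type*} [Ring R] [Module ℂ R]

theorem genC_left (A B : R) : A ∈ genC A B := by
  unfold genC
  rw [Submodule.mem_sInf]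
  exact fun S hS => hS.1

theorem genC_right (A B : R) : B ∈ genC A B := by
  unfold genC
  rw [Submodule.mem_sInf]
  exact fun S hS => hS.2.1

theorem genC_comm {A B M N : R} (hM : M ∈ genC A B) (hN : N ∈ genC A B) : M * N - N * M ∈ genC A B := by
  unfold genC at *
  rw [Submodule.mem_sInf] at *
  exact fun S hS => hS.2.2 M (hM S hS) N (hN S hS)

theorem genC_le {A B : R} {S : Submodule ℂ R} (hA : A ∈ S) (hB : B ∈ S) (hS : ∀ M ∈ S, ∀ N ∈ S, M * N - N * M ∈ S) :
    genC A B ≤ S := by
  unfold genC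
  exact sInf_le ⟨hA, hB, hS⟩

end genC

section exK
variable {R₁ R₂ : Type*} [Ring R₁] [Algebra ℂ R₁] [Ring R₂] [Algebra ℂ R₂]

theorem mem_exK {A0 B0 : R₁} {A1 B1 : R₂} {z : R₁} :
    z ∈ exK A0 B0 A1 B1 ↔ ((z, 0) : R₁ × R₂) ∈ genC (R := R₁ × R₂) (A0, A1) (B0, B1) := Iff.rfl

/-- bracket of an element of the exclusive part with the first component of an element of the Lie algebra -/
theorem exK_bracket {A0 B0 : R₁} {A1 B1 : R₂} {z x : R₁} {w : R₂} (hz : z ∈ exK A0 B0 A1 B1)
    (hx : ((x, w) : R₁ × R₂) ∈ genC (R := R₁ × R₂) (A0, A1) (B0, B1)) : x * z - z * x ∈ exK A0 B0 A1 B1 := by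
  rw [mem_exK] at *
  have h := genC_comm hx hz
  have e : ((x, w) : R₁ × R₂) * (z, 0) - (z, 0) * (x, w) = (x * z - z * x, 0) := by
    ext <;> simp
  rwa [e] at h

end exK

/-- all the core vertices number `u` -/
theorem core_sum_mem (k : ℕ) (y0 : Option (Fin k)) (v0 : VA (mm k) (fam k y0)) (u : ZMod (mm k)) :
    (Complex.I • ∑ x : {x : VT k // x ≠ ⟨y0, v0⟩}, if x.1.2 = Sum.inl u then px x else 0) ∈
      gRed (totG k) ⟨y0, v0⟩ := by
  classical
  obtain ⟨c, hc, hm⟩ := exists_equi_red (totG k) ⟨y0, v0⟩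
  have key : (∑ x : {x : VT k // x ≠ ⟨y0, v0⟩}, if x.1.2 = Sum.inl u then px x else 0) =
      ∑ t ∈ (Finset.univ.filter fun x : VT k => x.2 = Sum.inl u).image c,
        ∑ x : {x : VT k // x ≠ ⟨y0, v0⟩}, if c x.1 = t then px x else 0 := by
    rw [Finset.sum_comm]
    refine Finset.sum_congr rfl fun x _ => ?_
    rw [Finset.sum_ite_eq]
    refine if_congr ?_ rfl rfl
    rw [Finset.mem_image]
    constructor
    · intro h
      exact ⟨x.1, Finset.mem_filter.2 ⟨Finset.mem_univ _, h⟩, rfl⟩
    · rintro ⟨y, hy, hyx⟩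
      exact equi_core k c hc u y x.1 hyx (Finset.mem_filter.1 hy).2
  rw [key, Finset.smul_sum]
  refine Submodule.sum_mem _ fun t _ => ?_
  convert hm t

/-- the exclusive part of the frozen Lie algebra -/
noncomputable def KF (k : ℕ) (y0 : Option (Fin k)) (v0 : VA (mm k) (fam k y0)) :
    Submodule ℂ (Op {w : VA (mm k) (fam k y0) // w ≠ v0}) :=
  exK (HPr (compG (mm k) (fam k y0)) v0) (HM {w : VA (mm k) (fam k y0) // w ≠ v0})
    (fun y : {y : Option (Fin k) // y ≠ y0} => HP (compG (mm k) (fam k y.1))) (fun y => HM (VA (mm k) (fam k y.1)))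

theorem KF_idH (k : ℕ) (y0 : Option (Fin k)) (v0 : VA (mm k) (fam k y0)) :
    IdH (compG (mm k) (fam k y0)) v0 (fun w => ∃ u : ZMod (mm k), w.1 = Sum.inl u) (KF k y0 v0) := by
  classical
  refine ⟨?_, ?_, ?_, ?_, ?_⟩
  · intro M hM N hN
    exact exK_bracket hN hM
  · intro M hM
    exact exK_bracket hM (genC_left _ _)
  · intro M hM
    exact exK_bracket hM (genC_right _ _)
  · rintro u ⟨u0, hu0⟩ M hM
    have h1 := red_mem (fun y => compG (mm k) (fam k y)) y0 v0 (fun x => x.2 = Sum.inl u0) (by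
      convert core_sum_mem k y0 v0 u0
      rfl)
    have h2 := exK_bracket hM h1
    beta_reduce at h2
    have e : (∑ w : {w : VA (mm k) (fam k y0) // w ≠ v0},
        @ite _ ((⟨y0, w.1⟩ : VT k).2 = Sum.inl u0) (Classical.propDecidable _) (px w) 0) = px u := by
      rw [Finset.sum_eq_single u]
      · exact if_pos hu0
      · intro w _ hw
        refine if_neg fun h => hw (Subtype.ext ?_)
        exact Eq.trans h hu0.symm
      · intro h
        exact absurd (Finset.mem_univ _) h
    rw [e] at h2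
    exact h2
  · have h := odd_mem (fun y => compG (mm k) (fam k y)) y0 v0
    rw [KF, mem_exK]
    exact h

theorem lower (k : ℕ) (y0 : Option (Fin k)) (v0 : VA (mm k) (fam k y0)) :
    4 ^ (mm k - 3) * Module.finrank ℂ SS ^ ((fam k y0).card - 1) ≤ Module.finrank ℂ (KF k y0 v0) := by
  have hpos : ∀ n : ℕ, n ≤ 2 → (n : ZMod (mm k)) ∉ fam k y0 := by
    intro n hn hmem
    have h1 : (n : ZMod (mm k)) ∈ Finset.univ.image (pos k) := by
      cases y0 with
      | none => exact hmem
      | some i => exact Finset.mem_of_mem_erase hmem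
    obtain ⟨i, _, hi⟩ := Finset.mem_image.1 h1
    unfold pos at hi
    rw [ZMod.natCast_eq_natCast_iff', Nat.mod_eq_of_lt (by have := i.2; unfold mm; omega),
      Nat.mod_eq_of_lt (by unfold mm; omega)] at hi
    omega
  obtain ⟨a, b, ha, hab, hq⟩ := lower1 (mm k) (by unfold mm; omega) (fam k y0) (by simpa using hpos 0 (by norm_num))
    (by simpa using hpos 1 (by norm_num)) (by simpa using hpos 2 le_rfl) v0 (KF k y0 v0) (KF_idH k y0 v0)
  exact lower2 (mm k) (fam k y0) v0 (KF k y0 v0) a b ha hab hq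

/-- the exclusive part of the full Lie algebra -/
noncomputable def KN (k : ℕ) (y0 : Option (Fin k)) : Submodule ℂ (Op (VA (mm k) (fam k y0))) :=
  exK (HP (compG (mm k) (fam k y0))) (HM (VA (mm k) (fam k y0)))
    (fun y : {y : Option (Fin k) // y ≠ y0} => HP (compG (mm k) (fam k y.1))) (fun y => HM (VA (mm k) (fam k y.1)))

theorem card_fam (k : ℕ) : (fam k none).card = k := by
  unfold fam
  rw [Finset.card_image_of_injective _ (pos_injective k), Finset.card_univ, Fintype.card_fin]

theorem pos_mem (k : ℕ) (i : Fin k) : pos k i ∈ fam k none := Finset.mem_image_of_mem _ (Finset.mem_univ _)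

/-- the intertwiner from the component `some i` to the largest component -/
noncomputable def hidI (k : ℕ) (i : Fin k) :
    Matrix (VA (mm k) (fam k none) → Bool) (VA (mm k) (fam k (some i)) → Bool) ℂ :=
  hid (mm k) (fam k none) ⟨pos k i, pos_mem k i⟩

theorem hidI_HP (k : ℕ) (i : Fin k) : HP (compG (mm k) (fam k none)) * hidI k i =
    hidI k i * HP (compG (mm k) (fam k (some i))) := hid_HP (mm k) (fam k none) ⟨pos k i, pos_mem k i⟩

theorem hidI_HM (k : ℕ) (i : Fin k) : HM (VA (mm k) (fam k none)) * hidI k i =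
    hidI k i * HM (VA (mm k) (fam k (some i))) := hid_HM (mm k) (fam k none) ⟨pos k i, pos_mem k i⟩

theorem hidI_cancel (k : ℕ) (i : Fin k) (M : Op (VA (mm k) (fam k (some i)))) (h : hidI k i * M = 0) : M = 0 :=
  hid_cancel (mm k) (fam k none) ⟨pos k i, pos_mem k i⟩ M h

/-- a smaller component owns nothing -/
theorem KN_some (k : ℕ) (i : Fin k) : KN k (some i) = ⊥ := by
  rw [eq_bot_iff]
  intro z hz
  have hne : (none : Option (Fin k)) ≠ some i := by simp
  rw [KN, mem_exK] at hz
  have hle := genC_le (A := ((HP (compG (mm k) (fam k (some i))),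
      fun y : {y : Option (Fin k) // y ≠ some i} => HP (compG (mm k) (fam k y.1))) :
        Op (VA (mm k) (fam k (some i))) × (∀ y : {y : Option (Fin k) // y ≠ some i}, Op (VA (mm k) (fam k y.1)))))
    (B := (HM (VA (mm k) (fam k (some i))), fun y => HM (VA (mm k) (fam k y.1))))
    (S := { carrier := {z | z.2 ⟨none, hne⟩ * hidI k i =
              hidI k i * z.1}
            add_mem' := by
              intro a b ha hb
              simp only [Set.mem_setOf_eq] at *
              show (a.2 ⟨none, hne⟩ + b.2 ⟨none, hne⟩) * _ = _ * (a.1 + b.1)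
              rw [Matrix.add_mul, ha, hb, Matrix.mul_add]
            zero_mem' := by
              simp only [Set.mem_setOf_eq]
              show (0 : Op _) * _ = _ * (0 : Op _)
              rw [Matrix.zero_mul, Matrix.mul_zero]
            smul_mem' := by
              intro c a ha
              simp only [Set.mem_setOf_eq] at *
              show (c • a.2 ⟨none, hne⟩) * _ = _ * (c • a.1)
              rw [Matrix.smul_mul, ha, Matrix.mul_smul] })
    (hidI_HP k i) (hidI_HM k i) (by
      intro a ha b hb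
      change a.2 ⟨none, hne⟩ * _ = _ * a.1 at ha
      change b.2 ⟨none, hne⟩ * _ = _ * b.1 at hb
      show (a.2 ⟨none, hne⟩ * b.2 ⟨none, hne⟩ - b.2 ⟨none, hne⟩ * a.2 ⟨none, hne⟩) * _ = _ * (a.1 * b.1 - b.1 * a.1)
      rw [Matrix.sub_mul, Matrix.mul_assoc, hb, ← Matrix.mul_assoc, ha, Matrix.mul_assoc, Matrix.mul_assoc, ha,
        ← Matrix.mul_assoc (b.2 ⟨none, hne⟩), hb, Matrix.mul_assoc, Matrix.mul_sub])
  have h := hle hz
  change (0 : Op _) * _ = hidI k i * z at h
  rw [Matrix.zero_mul] at h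
  exact (Submodule.mem_bot ℂ).2 (hidI_cancel k i z h.symm)

/-- what the largest component owns kills all hidden states -/
theorem KN_none (k : ℕ) : Module.finrank ℂ (KN k none) ≤ (Module.finrank ℂ SS - 1) ^ k * 4 ^ mm k + 1 := by
  have hup := upper (mm k) (fam k none) (KN k none) ?_ ?_
  · rwa [card_fam k] at hup
  · intro z hz
    rw [KN, mem_exK] at hz
    have hle := genC_le (A := ((HP (compG (mm k) (fam k none)),
        fun y : {y : Option (Fin k) // y ≠ none} => HP (compG (mm k) (fam k y.1))) :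
          Op (VA (mm k) (fam k none)) × (∀ y : {y : Option (Fin k) // y ≠ none}, Op (VA (mm k) (fam k y.1)))))
      (B := (HM (VA (mm k) (fam k none)), fun y => HM (VA (mm k) (fam k y.1))))
      (S := (genC (HP (compG (mm k) (fam k none))) (HM (VA (mm k) (fam k none)))).comap (LinearMap.fst ℂ _ _))
      (genC_left _ _) (genC_right _ _) (by
        intro a ha b hb
        exact genC_comm ha hb)
    exact hle hz
  · rintro ⟨p, hp⟩ z hz
    obtain ⟨i, _, rfl⟩ := Finset.mem_image.1 hp
    have hne : (some i : Option (Fin k)) ≠ none := by simp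
    rw [KN, mem_exK] at hz
    have hle := genC_le (A := ((HP (compG (mm k) (fam k none)),
        fun y : {y : Option (Fin k) // y ≠ none} => HP (compG (mm k) (fam k y.1))) :
          Op (VA (mm k) (fam k none)) × (∀ y : {y : Option (Fin k) // y ≠ none}, Op (VA (mm k) (fam k y.1)))))
      (B := (HM (VA (mm k) (fam k none)), fun y => HM (VA (mm k) (fam k y.1))))
      (S := { carrier := {z | z.1 * hidI k i =
                hidI k i * z.2 ⟨some i, hne⟩}
              add_mem' := by
                intro a b ha hb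
                simp only [Set.mem_setOf_eq] at *
                show (a.1 + b.1) * _ = _ * (a.2 ⟨some i, hne⟩ + b.2 ⟨some i, hne⟩)
                rw [Matrix.add_mul, ha, hb, Matrix.mul_add]
              zero_mem' := by
                simp only [Set.mem_setOf_eq]
                show (0 : Op _) * _ = _ * (0 : Op _)
                rw [Matrix.zero_mul, Matrix.mul_zero]
              smul_mem' := by
                intro c a ha
                simp only [Set.mem_setOf_eq] at *
                show (c • a.1) * _ = _ * (c • a.2 ⟨some i, hne⟩)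
                rw [Matrix.smul_mul, ha, Matrix.mul_smul] })
      (hidI_HP k i) (hidI_HM k i) (by
        intro a ha b hb
        change a.1 * _ = _ * a.2 ⟨some i, hne⟩ at ha
        change b.1 * _ = _ * b.2 ⟨some i, hne⟩ at hb
        show (a.1 * b.1 - b.1 * a.1) * _ =
          _ * (a.2 ⟨some i, hne⟩ * b.2 ⟨some i, hne⟩ - b.2 ⟨some i, hne⟩ * a.2 ⟨some i, hne⟩)
        rw [Matrix.sub_mul, Matrix.mul_assoc, hb, ← Matrix.mul_assoc, ha, Matrix.mul_assoc, Matrix.mul_assoc, ha,
          ← Matrix.mul_assoc b.1, hb, Matrix.mul_assoc, Matrix.mul_sub])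
    have h := hle hz
    change z * hidI k i = hidI k i * (0 : Op _) at h
    rw [Matrix.mul_zero] at h
    exact h

/-- the numerical inequality -/
theorem num (n : ℕ) (hn : 1 ≤ n) (k : ℕ) (hk : 128 * (n + 1) * n ≤ k) :
    n ^ k * 4 ^ mm k + 1 < 4 ^ (mm k - 3) * (n + 1) ^ (k - 1) := by
  have hk1 : 1 ≤ k := le_trans (Nat.mul_pos (by omega) (by omega)) hk
  have hk2 : 128 * (n + 1) * n ^ k ≤ (n + 1) ^ k := by
    -- Bernoulli: (1 + 1 / n) ^ k ≥ 1 + k / n ≥ 1 + 128 (n + 1)
    have hb : (1 : ℝ) + (k : ℝ) * (1 / n) ≤ (1 + 1 / (n : ℝ)) ^ k :=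
      one_add_mul_le_pow (by have : (0 : ℝ) ≤ 1 / (n : ℝ) := by positivity
                             linarith) k
    have hn0 : (0 : ℝ) < n := by exact_mod_cast hn
    have h1 : (1 : ℝ) + 1 / n = (n + 1) / n := by field_simp
    have h2 : (128 : ℝ) * (n + 1) ≤ (k : ℝ) * (1 / n) := by
      rw [mul_one_div, le_div_iff₀ hn0]
      exact_mod_cast hk
    rw [h1, div_pow] at hb
    have h3 : (128 * ((n : ℝ) + 1)) * n ^ k ≤ (n + 1) ^ k := by
      rw [le_div_iff₀ (by positivity)] at hb
      have : (0 : ℝ) ≤ (n : ℝ) ^ k := by positivity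
      nlinarith
    exact_mod_cast h3
  have e1 : mm k = (mm k - 3) + 3 := by unfold mm; omega
  have e2 : k = (k - 1) + 1 := by omega
  have h4 : (4 : ℕ) ^ mm k = 64 * 4 ^ (mm k - 3) := by
    conv_lhs => rw [e1, pow_add]
    ring
  have h5 : (n + 1) ^ k = (n + 1) * (n + 1) ^ (k - 1) := by
    conv_lhs => rw [e2, pow_succ]
    ring
  rw [h5] at hk2
  have h6 : 128 * n ^ k ≤ (n + 1) ^ (k - 1) := by
    have : (n + 1) * (128 * n ^ k) ≤ (n + 1) * (n + 1) ^ (k - 1) := by nlinarith
    exact Nat.le_of_mul_le_mul_left this (by omega)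
  have h7 : 1 ≤ 4 ^ (mm k - 3) := Nat.one_le_pow _ _ (by norm_num)
  have h8 : 1 ≤ n ^ k := Nat.one_le_pow _ _ hn
  rw [h4]
  have h9 : 4 ^ (mm k - 3) * (128 * n ^ k) ≤ 4 ^ (mm k - 3) * (n + 1) ^ (k - 1) := Nat.mul_le_mul_left _ h6
  have h10 : 1 ≤ 4 ^ (mm k - 3) * n ^ k := Nat.mul_pos h7 h8
  nlinarith

/-- for every vertex the reduced Lie algebra is larger than the full one -/
theorem final (k : ℕ) (hk : (Module.finrank ℂ SS - 1) ^ k * 4 ^ mm k + 1 < 4 ^ (mm k - 3) * Module.finrank ℂ SS ^ (k - 1))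
    (h1 : 1 ≤ Module.finrank ℂ SS)
    (v : VT k) : Module.finrank ℝ (gStd (totG k)) < Module.finrank ℝ (gRed (totG k) v) := by
  obtain ⟨y0, v0⟩ := v
  have h1 := full_dim (fun y => compG (mm k) (fam k y)) y0
  have h2 := red_dim (fun y => compG (mm k) (fam k y)) y0 v0
  have h3 := finrank_genC_prod (HP (compG (mm k) (fam k y0))) (HM (VA (mm k) (fam k y0)))
    (fun y : {y : Option (Fin k) // y ≠ y0} => HP (compG (mm k) (fam k y.1))) (fun y => HM (VA (mm k) (fam k y.1)))
  have h4 := finrank_genC_prod (HPr (compG (mm k) (fam k y0)) v0) (HM {w : VA (mm k) (fam k y0) // w ≠ v0})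
    (fun y : {y : Option (Fin k) // y ≠ y0} => HP (compG (mm k) (fam k y.1))) (fun y => HM (VA (mm k) (fam k y.1)))
  have h5 : Module.finrank ℂ (KN k y0) < Module.finrank ℂ (KF k y0 v0) := by
    cases y0 with
    | none =>
      have := lower k none v0
      rw [card_fam k] at this
      exact lt_of_le_of_lt (KN_none k) (lt_of_lt_of_le hk this)
    | some i =>
      rw [KN_some k i, finrank_bot]
      exact lt_of_lt_of_le (Nat.mul_pos (Nat.pow_pos (by norm_num)) (Nat.pow_pos (by omega))) (lower k (some i) v0)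
  unfold gFull at h1
  unfold gFroz at h2
  have e1 : Module.finrank ℝ (gStd (totG k)) = _ := h1.trans h3
  have e2 : Module.finrank ℝ (gRed (totG k) ⟨y0, v0⟩) = _ := h2.trans h4
  rw [e1, e2]
  exact Nat.add_lt_add_left h5 _

/-- Q1 is false, with strict inequalities and graphs of arbitrarily large order -/
theorem main (N : ℕ) : ∃ (V : Type) (_ : Fintype V) (_ : DecidableEq V) (Γ : SimpleGraph V), N ≤ Fintype.card V ∧
    Asymmetric Γ ∧ ∀ v, Module.finrank ℝ (gStd Γ) < Module.finrank ℝ (gRed Γ v) := by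
  obtain ⟨n, e, hn, hfin, _⟩ := SS_basis
  have hk := num n hn (128 * (n + 1) * n + N) (Nat.le_add_right _ _)
  refine ⟨VT _, inferInstance, inferInstance, totG (128 * (n + 1) * n + N), ?_, totG_asymmetric _,
    fun v => final _ ?_ (by omega) v⟩
  · have h := Fintype.card_le_of_injective
      (fun u : ZMod (mm (128 * (n + 1) * n + N)) => (⟨none, Sum.inl u⟩ : VT (128 * (n + 1) * n + N)))
      (fun u w h => by
        have h1 := (Sigma.mk.injEq _ _ _ _).mp h
        exact Sum.inl.inj (eq_of_heq h1.2))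
    rw [ZMod.card] at h
    refine le_trans ?_ h
    unfold mm
    omega
  · rw [hfin]
    exact hk

end Pool.Agent.QAOA.CX
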