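import Pool.Agent.Lib_MP_debdb1_cx.Sum

/-!
# Piece ODD: the linear part is exclusive; dimension of a subspace of a product
-/

set_option autoImplicit false

namespace Pool.Agent.QAOA.CX

open Matrix Pool.Agent.QAOA

theorem odd_genC_left {R : Type*} [Ring R] [Module ℂ R] (A B : R) : A ∈ genC A B := by
  unfold genC
  rw [Submodule.mem_sInf]
  exact fun S hS => hS.1

theorem odd_genC_right {R : Type*} [Ring R] [Module ℂ R] (A B : R) : B ∈ genC A B := by
  unfold genC
  rw [Submodule.mem_sInf]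
  exact fun S hS => hS.2.1

theorem odd_genC_comm {R : Type*} [Ring R] [Module ℂ R] (A B : R) {M N : R} (hM : M ∈ genC A B)
    (hN : N ∈ genC A B) : M * N - N * M ∈ genC A B := by
  unfold genC at hM hN ⊢
  rw [Submodule.mem_sInf] at hM hN ⊢
  exact fun S hS => hS.2.2 M (hM S hS) N (hN S hS)

theorem finrank_genC_prod {R₁ R₂ : Type*} [Ring R₁] [Algebra ℂ R₁] [Ring R₂] [Algebra ℂ R₂] [FiniteDimensional ℂ R₁]
    [FiniteDimensional ℂ R₂] (A0 B0 : R₁) (A1 B1 : R₂) :
    Module.finrank ℂ (genC (R := R₁ × R₂) (A0, A1) (B0, B1)) =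
      Module.finrank ℂ (genC A1 B1) + Module.finrank ℂ (exK A0 B0 A1 B1) := by
  set N := genC (R := R₁ × R₂) (A0, A1) (B0, B1) with hN
  let f : N →ₗ[ℂ] R₂ := (LinearMap.snd ℂ R₁ R₂).comp N.subtype
  have hrange : LinearMap.range f = genC A1 B1 := by
    apply le_antisymm
    · have h1 : N ≤ (genC A1 B1).comap (LinearMap.snd ℂ R₁ R₂) := by
        refine sInf_le ⟨?_, ?_, ?_⟩
        · exact odd_genC_left A1 B1
        · exact odd_genC_right A1 B1
        · intro M hM M' hM'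
          exact odd_genC_comm A1 B1 hM hM'
      rintro _ ⟨x, rfl⟩
      exact h1 x.2
    · refine sInf_le ⟨⟨⟨_, odd_genC_left _ _⟩, rfl⟩, ⟨⟨_, odd_genC_right _ _⟩, rfl⟩, ?_⟩
      rintro _ ⟨x, rfl⟩ _ ⟨y, rfl⟩
      exact ⟨⟨x.1 * y.1 - y.1 * x.1, odd_genC_comm _ _ x.2 y.2⟩, rfl⟩
  have hker : (LinearMap.ker f).map N.subtype = (exK A0 B0 A1 B1).map (LinearMap.inl ℂ R₁ R₂) := by
    ext z
    constructor
    · rintro ⟨x, hx, rfl⟩
      have hx' : (x : R₁ × R₂).2 = 0 := hx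
      refine ⟨(x : R₁ × R₂).1, ?_, ?_⟩
      · change ((x : R₁ × R₂).1, (0 : R₂)) ∈ N
        rw [← hx']
        exact x.2
      · change ((x : R₁ × R₂).1, (0 : R₂)) = (x : R₁ × R₂)
        rw [← hx']
    · rintro ⟨x, hx, rfl⟩
      exact ⟨⟨(x, 0), hx⟩, rfl, rfl⟩
  have h1 := LinearMap.finrank_range_add_finrank_ker f
  rw [hrange] at h1
  have h2 := (Submodule.equivMapOfInjective N.subtype N.injective_subtype (LinearMap.ker f)).finrank_eq
  have h3 := (Submodule.equivMapOfInjective (LinearMap.inl ℂ R₁ R₂) LinearMap.inl_injective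
    (exK A0 B0 A1 B1)).finrank_eq
  rw [h2, hker, ← h3] at h1
  exact h1.symm

section
variable {W : Type} [Fintype W] [DecidableEq W]

theorem odd_px_pz_self (w : W) : (px w * pz w : Op W) = - (pz w * px w) := by
  have h1 : (pz w : Op W) = Matrix.diagonal (fun x => sg (x w)) := rfl
  rw [h1, px_diag, ← neg_mul]
  congr 1
  rw [Matrix.diagonal_neg]
  congr 1
  funext x
  simp [sg_flip]

theorem odd_px_pz_ne (a w : W) (h : a ≠ w) : (px a * pz w : Op W) = pz w * px a := by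
  have h1 : (pz w : Op W) = Matrix.diagonal (fun x => sg (x w)) := rfl
  rw [h1, px_diag]
  congr 1
  congr 1
  funext x
  simp [sg_flip, h.symm]

theorem odd_ad_pz (w : W) : ad Finset.univ (pz w : Op W) = (2 : ℂ) • (px w * pz w) := by
  rw [ad_apply, Finset.sum_mul, Finset.mul_sum, ← Finset.sum_sub_distrib]
  rw [Finset.sum_eq_single w]
  · rw [odd_px_pz_self, two_smul]
    abel
  · intro a _ ha
    rw [odd_px_pz_ne a w ha, sub_self]
  · intro h
    exact absurd (Finset.mem_univ w) h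

theorem odd_ad2_pz (w : W) : ad Finset.univ (ad Finset.univ (pz w : Op W)) = (4 : ℂ) • (pz w : Op W) := by
  rw [odd_ad_pz, map_smul, ad_mul_of_comm, odd_ad_pz, Matrix.mul_smul, ← mul_assoc, px_sq, one_mul, smul_smul]
  · norm_num
  · rw [Finset.sum_mul, Finset.mul_sum]
    exact Finset.sum_congr rfl fun a _ => px_comm a w

theorem odd_qA_pz (w : W) : qA Finset.univ (pz w : Op W) = pz w := by
  rw [qA, odd_ad2_pz, map_smul, map_smul, odd_ad2_pz, smul_smul, smul_smul, smul_smul, ← sub_smul]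
  norm_num

theorem odd_qA_lin (M : Op W) : qA Finset.univ M = ((1 / 3 : ℂ) • (ad Finset.univ ∘ₗ ad Finset.univ) -
    (1 / 48 : ℂ) • (ad Finset.univ ∘ₗ ad Finset.univ ∘ₗ ad Finset.univ ∘ₗ ad Finset.univ) :
      Op W →ₗ[ℂ] Op W) M := rfl

theorem odd_qA_HP (G : SimpleGraph W) : qA Finset.univ (HP G) = 0 := by
  rw [HP_eq, qA_Hw _ _ (fun j => by simp)]
  simp [Hw]

open Classical in
theorem odd_qA_sum (P : W → Prop) : qA Finset.univ (∑ w : W, if P w then (pz w : Op W) else 0) =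
    ∑ w : W, if P w then (pz w : Op W) else 0 := by
  rw [odd_qA_lin, map_sum]
  refine Finset.sum_congr rfl fun w _ => ?_
  rw [← odd_qA_lin]
  split_ifs
  · exact odd_qA_pz w
  · rw [odd_qA_lin, map_zero]

end

section
variable {Y : Type} [Fintype Y] [DecidableEq Y] {V : Y → Type} [∀ y, Fintype (V y)] [∀ y, DecidableEq (V y)]

open Classical in
/-- the linear part of the frozen cost operator lies in the Lie algebra, with all other components zero -/
theorem odd_mem (G : ∀ y, SimpleGraph (V y)) (y0 : Y) (v0 : V y0) :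
    ((∑ w : {w : V y0 // w ≠ v0}, if (G y0).Adj v0 w then pz w else 0), (0 : ∀ y : {y : Y // y ≠ y0}, Op (V y.1))) ∈
      gFroz G y0 v0 := by
  set B : Op {w : V y0 // w ≠ v0} × (∀ y : {y : Y // y ≠ y0}, Op (V y.1)) :=
    (HM {w : V y0 // w ≠ v0}, fun y => HM (V y.1)) with hB
  set A : Op {w : V y0 // w ≠ v0} × (∀ y : {y : Y // y ≠ y0}, Op (V y.1)) :=
    (HPr (G y0) v0, fun y => HP (G y.1)) with hA
  have hBm : B ∈ gFroz G y0 v0 := odd_genC_right _ _
  have hAm : A ∈ gFroz G y0 v0 := odd_genC_left _ _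
  have hc : ∀ M ∈ gFroz G y0 v0, B * M - M * B ∈ gFroz G y0 v0 := fun M hM => odd_genC_comm _ _ hBm hM
  have h2 := hc _ (hc _ hAm)
  have h4 := hc _ (hc _ h2)
  have h5 := (gFroz G y0 v0).sub_mem ((gFroz G y0 v0).smul_mem (1 / 3 : ℂ) h2)
    ((gFroz G y0 v0).smul_mem (1 / 48 : ℂ) h4)
  convert h5 using 1
  refine Prod.ext ?_ ?_
  · change _ = qA Finset.univ (HPr (G y0) v0)
    unfold HPr
    rw [odd_qA_lin, map_add, ← odd_qA_lin, ← odd_qA_lin, odd_qA_HP, zero_add, odd_qA_sum (fun w : {w : V y0 // w ≠ v0} => (G y0).Adj v0 w)]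
  · funext y
    change (0 : Op (V y.1)) = qA Finset.univ (HP (G y.1))
    rw [odd_qA_HP]

end

end Pool.Agent.QAOA.CX
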