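import Pool.Agent.Lib_MP_debdb1_cx.SumPhi

/-!
# Piece SUM: the Lie algebras of a disjoint union of graphs
-/

set_option autoImplicit false

namespace Pool.Agent.QAOA.CX.SumP

open Matrix Pool.Agent.QAOA Pool.Agent.QAOA.CX

/-! ## traces -/

section
variable {V : Type*} [Fintype V] [DecidableEq V]

theorem trace_zero_of_anti (X M : Op V) (hX : X * X = 1) (h : X * M = -(M * X)) : M.trace = 0 := by
  have h1 : M = -(X * M * X) := by
    calc M = M * (X * X) := by rw [hX, mul_one]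
      _ = M * X * X := by rw [mul_assoc]
      _ = -(X * M) * X := by rw [h, neg_neg]
      _ = -(X * M * X) := by rw [neg_mul]
  have h2 : (X * M * X).trace = M.trace := by
    rw [Matrix.trace_mul_comm, ← mul_assoc, hX, one_mul]
  have h3 : M.trace = -M.trace := by
    conv_lhs => rw [h1]
    rw [Matrix.trace_neg, h2]
  linear_combination (1 / 2 : ℂ) * h3

theorem trace_px (j : V) : (px j).trace = 0 := by
  rw [Matrix.trace]
  refine Finset.sum_eq_zero fun x _ => ?_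
  rw [Matrix.diag_apply, px, Matrix.of_apply, if_neg]
  intro h
  have := congrFun h j
  rw [Function.update_self] at this
  cases hx : x j <;> rw [hx] at this <;> exact absurd this (by decide)

theorem px_pz_anti (j : V) : (px j * pz j : Op V) = -(pz j * px j) := by
  have e : (pz j : Op V) = Matrix.diagonal (fun x => sg (x j)) := rfl
  rw [e, px_diag, ← Matrix.neg_mul]
  congr 1
  ext x y
  rw [Matrix.neg_apply, Matrix.diagonal_apply, Matrix.diagonal_apply]
  by_cases hxy : x = y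
  · rw [if_pos hxy, if_pos hxy, sg_flip, if_pos rfl]
  · rw [if_neg hxy, if_neg hxy, neg_zero]

theorem trace_pz (j : V) : (pz j : Op V).trace = 0 :=
  trace_zero_of_anti (px j) _ (px_sq j) (px_pz_anti j)

theorem trace_zz (j k : V) (h : j ≠ k) : (pz j * pz k : Op V).trace = 0 :=
  trace_zero_of_anti (px j) _ (px_sq j) (px_zz_in_left j k h)

theorem trace_HM : (HM V).trace = 0 := by
  rw [HM, Matrix.trace_sum]
  exact Finset.sum_eq_zero fun j _ => trace_px j

theorem trace_HP (G : SimpleGraph V) : (HP G).trace = 0 := by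
  classical
  rw [HP, Matrix.trace_smul, Matrix.trace_sum, Finset.sum_eq_zero, smul_zero]
  intro j _
  rw [Matrix.trace_sum]
  refine Finset.sum_eq_zero fun k _ => ?_
  split_ifs with h
  · exact trace_zz j k h.ne
  · exact Matrix.trace_zero _ _

theorem trace_HPr (G : SimpleGraph V) (v : V) : (HPr G v).trace = 0 := by
  classical
  rw [HPr, Matrix.trace_add, trace_HP, zero_add, Matrix.trace_sum]
  refine Finset.sum_eq_zero fun w _ => ?_
  split_ifs
  · exact trace_pz w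
  · exact Matrix.trace_zero _ _

end

/-! ## the operators of a union -/

section
variable {U W I : Type*} [Fintype U] [DecidableEq U] [Fintype W] [DecidableEq W] [Fintype I] [DecidableEq I]
  {V : I → Type*} [∀ i, Fintype (V i)] [∀ i, DecidableEq (V i)]

theorem emb_HM (f : U ↪ W) : emb f (HM U) = ∑ u, px (f u) := by
  rw [HM, emb_sum]
  exact Finset.sum_congr rfl fun u _ => emb_px f u

open Classical in
theorem emb_HP (f : U ↪ W) (G : SimpleGraph U) :
    emb f (HP G) = (1 / 2 : ℂ) • ∑ u, ∑ u', if G.Adj u u' then pz (f u) * pz (f u') else 0 := by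
  rw [HP, emb_smul, emb_sum]
  congr 1
  refine Finset.sum_congr rfl fun u _ => ?_
  rw [emb_sum]
  refine Finset.sum_congr rfl fun u' _ => ?_
  split_ifs
  · rw [emb_mul, emb_pz, emb_pz]
  · exact emb_zero f

theorem Parts.HM_eq {f : U ↪ W} {g : ∀ i, V i ↪ W} (h : Parts f g) :
    HM W = phi f g (HM U, fun i => HM (V i)) := by
  rw [phi_apply, HM, h.sum_eq]
  congr 1
  · exact (emb_HM f).symm
  · exact Finset.sum_congr rfl fun i _ => (emb_HM (g i)).symm

theorem Parts.HP_eq {f : U ↪ W} {g : ∀ i, V i ↪ W} (h : Parts f g) (G : SimpleGraph W) (G0 : SimpleGraph U)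
    (Gi : ∀ i, SimpleGraph (V i)) (h0 : ∀ u u', G.Adj (f u) (f u') ↔ G0.Adj u u')
    (h1 : ∀ i a b, G.Adj (g i a) (g i b) ↔ (Gi i).Adj a b) (h2 : ∀ u i a, ¬ G.Adj (f u) (g i a))
    (h3 : ∀ i j a b, i ≠ j → ¬ G.Adj (g i a) (g j b)) :
    HP G = phi f g (HP G0, fun i => HP (Gi i)) := by
  classical
  rw [phi_apply]
  have e0 : ∀ u, (∑ w, if G.Adj (f u) w then pz (f u) * pz w else 0) =
      ∑ u', if G0.Adj u u' then (pz (f u) * pz (f u') : Op W) else 0 := by
    intro u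
    rw [h.sum_eq]
    have z : (∑ i, ∑ a, if G.Adj (f u) (g i a) then (pz (f u) * pz (g i a) : Op W) else 0) = 0 :=
      Finset.sum_eq_zero fun i _ => Finset.sum_eq_zero fun a _ => if_neg (h2 u i a)
    rw [z, add_zero]
    refine Finset.sum_congr rfl fun u' _ => ?_
    by_cases hu : G0.Adj u u'
    · rw [if_pos hu, if_pos ((h0 u u').2 hu)]
    · rw [if_neg hu, if_neg (fun h' => hu ((h0 u u').1 h'))]
  have e1 : ∀ i a, (∑ w, if G.Adj (g i a) w then pz (g i a) * pz w else 0) =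
      ∑ b, if (Gi i).Adj a b then (pz (g i a) * pz (g i b) : Op W) else 0 := by
    intro i a
    rw [h.sum_eq]
    have z : (∑ u, if G.Adj (g i a) (f u) then (pz (g i a) * pz (f u) : Op W) else 0) = 0 :=
      Finset.sum_eq_zero fun u _ => if_neg fun h' => h2 u i a h'.symm
    rw [z, zero_add, Finset.sum_eq_single i]
    · refine Finset.sum_congr rfl fun b _ => ?_
      by_cases hb : (Gi i).Adj a b
      · rw [if_pos hb, if_pos ((h1 i a b).2 hb)]
      · rw [if_neg hb, if_neg (fun h' => hb ((h1 i a b).1 h'))]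
    · intro j _ hj
      exact Finset.sum_eq_zero fun b _ => if_neg (h3 i j a b hj.symm)
    · intro hi
      exact absurd (Finset.mem_univ i) hi
  have e2 : HP G = (1 / 2 : ℂ) • ∑ w, ∑ w', if G.Adj w w' then (pz w * pz w' : Op W) else 0 := by
    rw [HP]
  rw [e2, h.sum_eq, smul_add, emb_HP]
  congr 1
  · congr 1
    exact Finset.sum_congr rfl fun u _ => e0 u
  · rw [Finset.smul_sum]
    refine Finset.sum_congr rfl fun i _ => ?_
    rw [emb_HP]
    congr 1
    exact Finset.sum_congr rfl fun a _ => e1 i a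

end

end Pool.Agent.QAOA.CX.SumP

namespace Pool.Agent.QAOA.CX

open Matrix Pool.Agent.QAOA SumP

section
variable {Y : Type} [Fintype Y] [DecidableEq Y] {V : Y → Type} [∀ y, Fintype (V y)] [∀ y, DecidableEq (V y)]

omit [Fintype Y] [DecidableEq Y] [∀ y, Fintype (V y)] [∀ y, DecidableEq (V y)] in
theorem SumP.sigG_same (G : ∀ y, SimpleGraph (V y)) (y : Y) (a b : V y) :
    (sigG G).Adj ⟨y, a⟩ ⟨y, b⟩ ↔ (G y).Adj a b := by
  constructor
  · rintro ⟨z, c, d, h1, h2, h3⟩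
    rw [Sigma.mk.injEq] at h1 h2
    obtain ⟨rfl, h1⟩ := h1
    rw [eq_of_heq h1, eq_of_heq h2.2]
    exact h3
  · intro h
    exact ⟨y, a, b, rfl, rfl, h⟩

omit [Fintype Y] [DecidableEq Y] [∀ y, Fintype (V y)] [∀ y, DecidableEq (V y)] in
theorem SumP.sigG_diff (G : ∀ y, SimpleGraph (V y)) {y z : Y} (hyz : y ≠ z) (a : V y) (b : V z) :
    ¬ (sigG G).Adj ⟨y, a⟩ ⟨z, b⟩ := by
  rintro ⟨w, c, d, h1, h2, h3⟩
  rw [Sigma.mk.injEq] at h1 h2
  exact hyz (h1.1.trans h2.1.symm)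

/-- the complex Lie algebra (in a direct product) of the disjoint union -/
noncomputable def gFull (G : ∀ y, SimpleGraph (V y)) (y0 : Y) :
    Submodule ℂ (Op (V y0) × (∀ y : {y : Y // y ≠ y0}, Op (V y.1))) :=
  genC (HP (G y0), fun y => HP (G y.1)) (HM (V y0), fun y => HM (V y.1))

/-- the same after freezing the vertex `v0` of the component `y0` -/
noncomputable def gFroz (G : ∀ y, SimpleGraph (V y)) (y0 : Y) (v0 : V y0) :
    Submodule ℂ (Op {w : V y0 // w ≠ v0} × (∀ y : {y : Y // y ≠ y0}, Op (V y.1))) :=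
  genC (HPr (G y0) v0, fun y => HP (G y.1)) (HM {w : V y0 // w ≠ v0}, fun y => HM (V y.1))

/-- the part `y` of the union -/
def SumP.fA (y : Y) : V y ↪ Σ y, V y := ⟨fun a => ⟨y, a⟩, fun a b h => by
  rw [Sigma.mk.injEq] at h
  exact eq_of_heq h.2⟩

omit [Fintype Y] [DecidableEq Y] [∀ y, Fintype (V y)] [∀ y, DecidableEq (V y)] in
theorem SumP.partsA (y0 : Y) : Parts (V := fun i : {y : Y // y ≠ y0} => V i.1) (fA (V := V) y0) (fun i => fA i.1) := by
  classical
  refine ⟨?_, ?_, ?_⟩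
  · intro u i a h
    have h' : (⟨y0, u⟩ : Σ y, V y) = ⟨i.1, a⟩ := h
    rw [Sigma.mk.injEq] at h'
    exact i.2 h'.1.symm
  · intro i j a b h
    have h' : (⟨i.1, a⟩ : Σ y, V y) = ⟨j.1, b⟩ := h
    rw [Sigma.mk.injEq] at h'
    exact Subtype.ext h'.1
  · rintro ⟨y, a⟩
    by_cases hy : y = y0
    · subst hy
      exact Or.inl ⟨a, rfl⟩
    · exact Or.inr ⟨⟨y, hy⟩, a, rfl⟩

/-- the parts after removing `⟨y0, v0⟩` -/
def SumP.fB (y0 : Y) (v0 : V y0) : {w : V y0 // w ≠ v0} ↪ {x : Σ y, V y // x ≠ ⟨y0, v0⟩} :=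
  ⟨fun w => ⟨⟨y0, w.1⟩, fun h => w.2 (by rw [Sigma.mk.injEq] at h; exact eq_of_heq h.2)⟩, fun a b h => by
    have h' : (⟨y0, a.1⟩ : Σ y, V y) = ⟨y0, b.1⟩ := congrArg Subtype.val h
    rw [Sigma.mk.injEq] at h'
    exact Subtype.ext (eq_of_heq h'.2)⟩

/-- the other parts -/
def SumP.gB (y0 : Y) (v0 : V y0) (i : {y : Y // y ≠ y0}) : V i.1 ↪ {x : Σ y, V y // x ≠ ⟨y0, v0⟩} :=
  ⟨fun a => ⟨⟨i.1, a⟩, fun h => i.2 (by rw [Sigma.mk.injEq] at h; exact h.1)⟩, fun a b h => by
    have h' : (⟨i.1, a⟩ : Σ y, V y) = ⟨i.1, b⟩ := congrArg Subtype.val h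
    rw [Sigma.mk.injEq] at h'
    exact eq_of_heq h'.2⟩

omit [Fintype Y] [DecidableEq Y] [∀ y, Fintype (V y)] [∀ y, DecidableEq (V y)] in
theorem SumP.partsB (y0 : Y) (v0 : V y0) :
    Parts (V := fun i : {y : Y // y ≠ y0} => V i.1) (fB (V := V) y0 v0) (gB y0 v0) := by
  classical
  refine ⟨?_, ?_, ?_⟩
  · intro u i a h
    have h' : (⟨y0, u.1⟩ : Σ y, V y) = ⟨i.1, a⟩ := congrArg Subtype.val h
    rw [Sigma.mk.injEq] at h'
    exact i.2 h'.1.symm
  · intro i j a b h
    have h' : (⟨i.1, a⟩ : Σ y, V y) = ⟨j.1, b⟩ := congrArg Subtype.val h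
    rw [Sigma.mk.injEq] at h'
    exact Subtype.ext h'.1
  · rintro ⟨⟨y, a⟩, hx⟩
    by_cases hy : y = y0
    · subst hy
      exact Or.inl ⟨⟨a, fun h => hx (by rw [h])⟩, rfl⟩
    · exact Or.inr ⟨⟨y, hy⟩, a, rfl⟩

theorem SumP.HP_sig (G : ∀ y, SimpleGraph (V y)) (y0 : Y) :
    HP (sigG G) = phi (V := fun i : {y : Y // y ≠ y0} => V i.1) (fA (V := V) y0) (fun i => fA i.1)
      (HP (G y0), fun y => HP (G y.1)) := by
  refine (partsA y0).HP_eq (sigG G) (G y0) (fun i => G i.1) ?_ ?_ ?_ ?_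
  · intro u u'
    exact sigG_same G y0 u u'
  · intro i a b
    exact sigG_same G i.1 a b
  · intro u i a
    exact sigG_diff G i.2.symm u a
  · intro i j a b hij
    exact sigG_diff G (fun h => hij (Subtype.ext h)) a b

theorem SumP.HPr_sig (G : ∀ y, SimpleGraph (V y)) (y0 : Y) (v0 : V y0) :
    HPr (sigG G) ⟨y0, v0⟩ = phi (V := fun i : {y : Y // y ≠ y0} => V i.1) (fB (V := V) y0 v0) (gB y0 v0)
      (HPr (G y0) v0, fun y => HP (G y.1)) := by
  classical
  have e1 := (partsB y0 v0).HP_eq ((sigG G).comap (Subtype.val : {x : Σ y, V y // x ≠ ⟨y0, v0⟩} → _))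
    ((G y0).comap (Subtype.val : {w : V y0 // w ≠ v0} → V y0)) (fun i => G i.1)
    (fun u u' => sigG_same G y0 u.1 u'.1) (fun i a b => sigG_same G i.1 a b)
    (fun u i a => sigG_diff G i.2.symm u.1 a) (fun i j a b hij => sigG_diff G (fun h => hij (Subtype.ext h)) a b)
  have e2 : (∑ w : {x : Σ y, V y // x ≠ ⟨y0, v0⟩}, if (sigG G).Adj ⟨y0, v0⟩ w then pz w else 0) =
      emb (fB (V := V) y0 v0) (∑ w : {w : V y0 // w ≠ v0}, if (G y0).Adj v0 w then pz w else 0) := by
    rw [(partsB (V := V) y0 v0).sum_eq, emb_sum]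
    have z : (∑ i : {y : Y // y ≠ y0}, ∑ a : V i.1,
        if (sigG G).Adj ⟨y0, v0⟩ (gB (V := V) y0 v0 i a) then (pz (gB (V := V) y0 v0 i a) : Op _) else 0) = 0 :=
      Finset.sum_eq_zero fun i _ => Finset.sum_eq_zero fun a _ => if_neg (sigG_diff G i.2.symm v0 a)
    rw [z, add_zero]
    refine Finset.sum_congr rfl fun w _ => ?_
    by_cases hw : (G y0).Adj v0 w.1
    · rw [if_pos hw, emb_pz]
      exact if_pos ((sigG_same G y0 v0 w.1).2 hw)
    · rw [if_neg hw, emb_zero]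
      exact if_neg (fun h => hw ((sigG_same G y0 v0 w.1).1 h))
  rw [phi_apply] at e1 ⊢
  rw [HPr, e1, HPr, emb_add]
  have e3 := e2
  rw [add_right_comm]
  congr 1
  congr 1

theorem full_dim (G : ∀ y, SimpleGraph (V y)) (y0 : Y) :
    Module.finrank ℝ (gStd (sigG G)) = Module.finrank ℂ (gFull G y0) := by
  rw [finrank_gStd, HP_sig G y0, (partsA (V := V) y0).HM_eq]
  exact (partsA (V := V) y0).finrank_eq _ _ ⟨trace_HP _, fun _ => trace_HP _⟩ ⟨trace_HM, fun _ => trace_HM⟩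

theorem red_dim (G : ∀ y, SimpleGraph (V y)) (y0 : Y) (v0 : V y0) :
    Module.finrank ℝ (gRed (sigG G) ⟨y0, v0⟩) = Module.finrank ℂ (gFroz G y0 v0) := by
  rw [finrank_gRed, HPr_sig G y0 v0, (partsB (V := V) y0 v0).HM_eq]
  exact (partsB (V := V) y0 v0).finrank_eq _ _ ⟨trace_HPr _ _, fun _ => trace_HP _⟩ ⟨trace_HM, fun _ => trace_HM⟩

open Classical in
theorem red_mem (G : ∀ y, SimpleGraph (V y)) (y0 : Y) (v0 : V y0) (D : (Σ y, V y) → Prop)
    (h : (Complex.I • ∑ x : {x : Σ y, V y // x ≠ ⟨y0, v0⟩}, if D x.1 then px x else 0) ∈ gRed (sigG G) ⟨y0, v0⟩) :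
    ((∑ w : {w : V y0 // w ≠ v0}, if D ⟨y0, w.1⟩ then px w else 0),
      fun y : {y : Y // y ≠ y0} => ∑ w : V y.1, if D ⟨y.1, w⟩ then px w else 0) ∈ gFroz G y0 v0 := by
  have h1 := genC_of_gen _ _ h
  rw [HPr_sig G y0 v0, (partsB (V := V) y0 v0).HM_eq] at h1
  have tr : ∀ {X : Type} [Fintype X] [DecidableEq X] (E : X → Prop), (∑ w : X, if E w then (px w : Op X) else 0).trace = 0 := by
    intro X _ _ E
    rw [Matrix.trace_sum]
    refine Finset.sum_eq_zero fun w _ => ?_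
    split_ifs
    · exact trace_px w
    · exact Matrix.trace_zero _ _
  refine (partsB (V := V) y0 v0).mem_of_phi _ _ ⟨trace_HPr _ _, fun _ => trace_HP _⟩ ⟨trace_HM, fun _ => trace_HM⟩
    ⟨tr _, fun _ => tr _⟩ ?_
  have e : phi (V := fun i : {y : Y // y ≠ y0} => V i.1) (fB (V := V) y0 v0) (gB y0 v0)
      ((∑ w : {w : V y0 // w ≠ v0}, if D ⟨y0, w.1⟩ then px w else 0),
        fun y : {y : Y // y ≠ y0} => ∑ w : V y.1, if D ⟨y.1, w⟩ then px w else 0) =
      ∑ x : {x : Σ y, V y // x ≠ ⟨y0, v0⟩}, if D x.1 then px x else 0 := by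
    rw [phi_apply, (partsB (V := V) y0 v0).sum_eq]
    congr 1
    · rw [emb_sum]
      refine Finset.sum_congr rfl fun w _ => ?_
      by_cases hw : D ⟨y0, w.1⟩
      · rw [if_pos hw, emb_px]
        exact (if_pos hw).symm
      · rw [if_neg hw, emb_zero]
        exact (if_neg hw).symm
    · refine Finset.sum_congr rfl fun i _ => ?_
      rw [emb_sum]
      refine Finset.sum_congr rfl fun a _ => ?_
      by_cases ha : D ⟨i.1, a⟩
      · rw [if_pos ha, emb_px]
        exact (if_pos ha).symm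
      · rw [if_neg ha, emb_zero]
        exact (if_neg ha).symm
  rw [e]
  exact h1

end

end Pool.Agent.QAOA.CX
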