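import Pool.Agent.Lib_MP_debdb1_cx.Base

/-!
# Piece SUM, complexification: the real Lie algebra generated by `i A`, `i B` and the complex one
-/

set_option autoImplicit false

namespace Pool.Agent.QAOA.CX.SumP

open Matrix Pool.Agent.QAOA Pool.Agent.QAOA.CX

section
variable {R : Type*} [Ring R] [Algebra ℂ R]

theorem genC_left (A B : R) : A ∈ genC A B := by
  rw [genC, Submodule.mem_sInf]
  exact fun S hS => hS.1

theorem genC_right (A B : R) : B ∈ genC A B := by
  rw [genC, Submodule.mem_sInf]
  exact fun S hS => hS.2.1

theorem genC_br (A B : R) {M N : R} (hM : M ∈ genC A B) (hN : N ∈ genC A B) : M * N - N * M ∈ genC A B := by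
  rw [genC, Submodule.mem_sInf] at *
  exact fun S hS => hS.2.2 _ (hM S hS) _ (hN S hS)

theorem genC_le {A B : R} {S : Submodule ℂ R} (hA : A ∈ S) (hB : B ∈ S)
    (h : ∀ M ∈ S, ∀ N ∈ S, M * N - N * M ∈ S) : genC A B ≤ S :=
  sInf_le ⟨hA, hB, h⟩

end

section
variable {W : Type*} [Fintype W] [DecidableEq W]

omit [Fintype W] [DecidableEq W] in
theorem I_negI_smul (M : Op W) : (-Complex.I) • (Complex.I • M) = M := by
  rw [smul_smul, neg_mul, Complex.I_mul_I, neg_neg, one_smul]

/-- the real algebra is contained in the complex one -/
theorem gen_le_genC (A B : Op W) {M : Op W} (h : M ∈ gen (Complex.I • A) (Complex.I • B)) : M ∈ genC A B := by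
  rw [gen, Submodule.mem_sInf] at h
  exact h ((genC A B).restrictScalars ℝ)
    ⟨(genC A B).smul_mem _ (genC_left A B), (genC A B).smul_mem _ (genC_right A B), fun M hM N hN => genC_br A B hM hN⟩

theorem genC_of_gen (A B : Op W) {M : Op W} (h : Complex.I • M ∈ gen (Complex.I • A) (Complex.I • B)) : M ∈ genC A B := by
  have h1 := (genC A B).smul_mem (-Complex.I) (gen_le_genC A B h)
  rwa [I_negI_smul] at h1

theorem span_gen (A B : Op W) :
    Submodule.span ℂ (gen (Complex.I • A) (Complex.I • B) : Set (Op W)) = genC A B := by
  apply le_antisymm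
  · exact Submodule.span_le.2 fun M hM => gen_le_genC A B hM
  · refine genC_le ?_ ?_ ?_
    · have h1 := (Submodule.span ℂ (gen (Complex.I • A) (Complex.I • B) : Set (Op W))).smul_mem (-Complex.I)
        (Submodule.subset_span (gen_left (Complex.I • A) (Complex.I • B)))
      rwa [I_negI_smul] at h1
    · have h1 := (Submodule.span ℂ (gen (Complex.I • A) (Complex.I • B) : Set (Op W))).smul_mem (-Complex.I)
        (Submodule.subset_span (gen_right (Complex.I • A) (Complex.I • B)))
      rwa [I_negI_smul] at h1
    · intro M hM N hN
      induction hM using Submodule.span_induction with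
      | mem x hx =>
        induction hN using Submodule.span_induction with
        | mem y hy => exact Submodule.subset_span (gen_comm _ _ x y hx hy)
        | zero => rw [mul_zero, zero_mul, sub_zero]; exact Submodule.zero_mem _
        | add y z _ _ h1 h2 =>
          have e : x * (y + z) - (y + z) * x = (x * y - y * x) + (x * z - z * x) := by noncomm_ring
          rw [e]; exact Submodule.add_mem _ h1 h2
        | smul c y _ h1 =>
          rw [mul_smul_comm, smul_mul_assoc, ← smul_sub]; exact Submodule.smul_mem _ _ h1
      | zero => rw [mul_zero, zero_mul, sub_zero]; exact Submodule.zero_mem _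
      | add y z _ _ h1 h2 =>
        have e : (y + z) * N - N * (y + z) = (y * N - N * y) + (z * N - N * z) := by noncomm_ring
        rw [e]; exact Submodule.add_mem _ h1 h2
      | smul c y _ h1 =>
        rw [mul_smul_comm, smul_mul_assoc, ← smul_sub]; exact Submodule.smul_mem _ _ h1

/-- skew-Hermitian operators -/
def skewH (W : Type*) [Fintype W] [DecidableEq W] : Submodule ℝ (Op W) where
  carrier := {M | M.conjTranspose = -M}
  add_mem' := by
    intro a b ha hb
    change (a + b).conjTranspose = -(a + b)
    rw [Matrix.conjTranspose_add, show a.conjTranspose = -a from ha, show b.conjTranspose = -b from hb, neg_add]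
  zero_mem' := by
    change (0 : Op W).conjTranspose = -0
    rw [Matrix.conjTranspose_zero, neg_zero]
  smul_mem' := by
    intro c a ha
    change (c • a).conjTranspose = -(c • a)
    rw [Matrix.conjTranspose_smul, show a.conjTranspose = -a from ha, star_trivial, smul_neg]

theorem gen_skew {A B : Op W} (hA : A.conjTranspose = A) (hB : B.conjTranspose = B) :
    gen (Complex.I • A) (Complex.I • B) ≤ skewH W := by
  have key : ∀ A : Op W, A.conjTranspose = A → Complex.I • A ∈ skewH W := by
    intro A hA
    change (Complex.I • A).conjTranspose = -(Complex.I • A)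
    rw [Matrix.conjTranspose_smul, hA, Complex.star_def, Complex.conj_I, neg_smul]
  refine sInf_le ⟨key A hA, key B hB, fun M hM N hN => ?_⟩
  change (M * N - N * M).conjTranspose = -(M * N - N * M)
  rw [Matrix.conjTranspose_sub, Matrix.conjTranspose_mul, Matrix.conjTranspose_mul,
    show M.conjTranspose = -M from hM, show N.conjTranspose = -N from hN]
  noncomm_ring

/-- real independent skew-Hermitian operators are complex independent -/
theorem linearIndependent_skew {ι : Type*} (b : ι → Op W) (hb : ∀ i, b i ∈ skewH W) (h : LinearIndependent ℝ b) :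
    LinearIndependent ℂ b := by
  rw [linearIndependent_iff'] at h ⊢
  intro s g hg
  set X : Op W := ∑ i ∈ s, (g i).re • b i with hX
  set Y : Op W := ∑ i ∈ s, (g i).im • b i with hY
  have hXs : X.conjTranspose = -X := (skewH W).sum_mem fun i _ => (skewH W).smul_mem _ (hb i)
  have hYs : Y.conjTranspose = -Y := (skewH W).sum_mem fun i _ => (skewH W).smul_mem _ (hb i)
  have e : ∑ i ∈ s, g i • b i = X + Complex.I • Y := by
    rw [hX, hY, Finset.smul_sum, ← Finset.sum_add_distrib]
    refine Finset.sum_congr rfl fun i _ => ?_
    ext x y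
    simp only [Matrix.smul_apply, Matrix.add_apply, smul_eq_mul, Complex.real_smul]
    have := Complex.re_add_im (g i)
    rw [← this]
    simp only [Complex.add_re, Complex.add_im, Complex.mul_re, Complex.mul_im, Complex.ofReal_re, Complex.ofReal_im,
      Complex.I_re, Complex.I_im]
    ring_nf
  rw [e] at hg
  have hg2 : -X + Complex.I • Y = 0 := by
    have h1 := congrArg Matrix.conjTranspose hg
    rw [Matrix.conjTranspose_add, Matrix.conjTranspose_smul, hXs, hYs, Matrix.conjTranspose_zero, Complex.star_def,
      Complex.conj_I, smul_neg, neg_smul, neg_neg] at h1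
    exact h1
  have hX0 : X = 0 := by
    have h2 : (2 : ℝ) • X = 0 := by
      have h3 : (2 : ℝ) • X = (X + Complex.I • Y) - (-X + Complex.I • Y) := by
        rw [two_smul]; abel
      rw [h3, hg, hg2, sub_zero]
    exact (smul_eq_zero.1 h2).resolve_left (by norm_num)
  have hY0 : Y = 0 := by
    rw [hX0, zero_add] at hg
    exact (smul_eq_zero.1 hg).resolve_left Complex.I_ne_zero
  intro i hi
  apply Complex.ext
  · exact h s (fun i => (g i).re) hX0 i hi
  · exact h s (fun i => (g i).im) hY0 i hi

/-- **complexification** -/
theorem finrank_gen_eq {A B : Op W} (hA : A.conjTranspose = A) (hB : B.conjTranspose = B) :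
    Module.finrank ℝ (gen (Complex.I • A) (Complex.I • B)) = Module.finrank ℂ (genC A B) := by
  set G := gen (Complex.I • A) (Complex.I • B) with hG
  have hfin : FiniteDimensional ℝ (Op W) := FiniteDimensional.trans ℝ ℂ (Op W)
  let b := Module.finBasis ℝ G
  have hli : LinearIndependent ℝ (fun i => ((b i : G) : Op W)) :=
    b.linearIndependent.map' G.subtype (Submodule.ker_subtype G)
  have hliC : LinearIndependent ℂ (fun i => ((b i : G) : Op W)) :=
    linearIndependent_skew _ (fun i => gen_skew hA hB (b i).2) hli
  have hspan : Submodule.span ℂ (Set.range fun i => ((b i : G) : Op W)) = genC A B := by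
    rw [← span_gen A B]
    apply le_antisymm
    · exact Submodule.span_mono (by rintro _ ⟨i, rfl⟩; exact (b i).2)
    · rw [Submodule.span_le]
      intro M hM
      have h1 : (⟨M, hM⟩ : G) = ∑ i, b.repr ⟨M, hM⟩ i • b i := (b.sum_repr _).symm
      have h2 : M = ∑ i, b.repr ⟨M, hM⟩ i • ((b i : G) : Op W) := by
        have h3 := congrArg G.subtype h1
        rw [map_sum] at h3
        exact h3
      rw [SetLike.mem_coe, h2]
      refine Submodule.sum_mem _ fun i _ => ?_
      have h4 : (b.repr ⟨M, hM⟩ i) • ((b i : G) : Op W) = ((b.repr ⟨M, hM⟩ i : ℝ) : ℂ) • ((b i : G) : Op W) := by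
        ext x y
        simp only [Matrix.smul_apply, smul_eq_mul, Complex.real_smul]
      rw [h4]
      exact Submodule.smul_mem _ _ (Submodule.subset_span ⟨i, rfl⟩)
  rw [← hspan, finrank_span_eq_card hliC, Fintype.card_fin]

end

/-! ## the operators are Hermitian -/

section
variable {V : Type*} [Fintype V] [DecidableEq V]

omit [DecidableEq V] in
theorem pz_herm (j : V) : (pz j).conjTranspose = pz j := by
  rw [pz, Matrix.diagonal_conjTranspose]
  congr 1
  funext x
  simp only [Pi.star_apply, sg]
  split_ifs <;> simp

theorem px_herm (j : V) : (px j).conjTranspose = px j := by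
  ext x y
  simp only [px, Matrix.conjTranspose_apply, Matrix.of_apply]
  have e : (x = Function.update y j (!(y j))) ↔ (y = Function.update x j (!(x j))) := by
    constructor
    · intro h
      subst h
      simp
    · intro h
      subst h
      simp
  by_cases h : y = Function.update x j (!(x j))
  · rw [if_pos h, if_pos (e.2 h), star_one]
  · rw [if_neg h, if_neg (fun h' => h (e.1 h')), star_zero]

theorem HM_herm : (HM V).conjTranspose = HM V := by
  rw [HM, Matrix.conjTranspose_sum]
  exact Finset.sum_congr rfl fun j _ => px_herm j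

theorem pz_mul_pz_comm (j k : V) : pz j * pz k = pz k * pz j := by
  rw [pz, pz, Matrix.diagonal_mul_diagonal, Matrix.diagonal_mul_diagonal]
  congr 1
  funext x
  exact mul_comm _ _

theorem HP_herm (G : SimpleGraph V) : (HP G).conjTranspose = HP G := by
  classical
  rw [HP, Matrix.conjTranspose_smul, Matrix.conjTranspose_sum]
  have h2 : star (1 / 2 : ℂ) = 1 / 2 := by
    rw [Complex.star_def]
    have : (1 / 2 : ℂ) = ((1 / 2 : ℝ) : ℂ) := by push_cast; rfl
    rw [this, Complex.conj_ofReal]
  rw [h2]
  congr 1
  refine Finset.sum_congr rfl fun j _ => ?_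
  rw [Matrix.conjTranspose_sum]
  refine Finset.sum_congr rfl fun k _ => ?_
  split_ifs
  · rw [Matrix.conjTranspose_mul, pz_herm, pz_herm, pz_mul_pz_comm]
  · exact Matrix.conjTranspose_zero

theorem HPr_herm (G : SimpleGraph V) (v : V) : (HPr G v).conjTranspose = HPr G v := by
  classical
  rw [HPr, Matrix.conjTranspose_add, HP_herm, Matrix.conjTranspose_sum]
  congr 1
  refine Finset.sum_congr rfl fun w _ => ?_
  split_ifs
  · exact pz_herm w
  · exact Matrix.conjTranspose_zero

/-- dimension of the full algebra -/
theorem finrank_gStd (G : SimpleGraph V) :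
    Module.finrank ℝ (gStd G) = Module.finrank ℂ (genC (HP G) (HM V)) :=
  finrank_gen_eq (HP_herm G) HM_herm

/-- dimension of the reduced algebra -/
theorem finrank_gRed (G : SimpleGraph V) (v : V) :
    Module.finrank ℝ (gRed G v) = Module.finrank ℂ (genC (HPr G v) (HM {w : V // w ≠ v})) :=
  finrank_gen_eq (HPr_herm G v) HM_herm

end

end Pool.Agent.QAOA.CX.SumP
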