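import Pool.Agent.Lib_MP_debdb1_cx.Ten1
import Pool.Agent.Lib_MP_debdb1_cx.SumC

/-!
# Piece SUM: the algebra of a direct product inside the algebra of the union
-/

set_option autoImplicit false

namespace Pool.Agent.QAOA.CX.SumP

open Matrix Pool.Agent.QAOA Pool.Agent.QAOA.CX

/-! ## linear maps which preserve commutators -/

section
variable {R S : Type*} [Ring R] [Algebra ℂ R] [Ring S] [Algebra ℂ S]

theorem genC_map (Φ : R →ₗ[ℂ] S) (hΦ : ∀ a b, Φ (a * b - b * a) = Φ a * Φ b - Φ b * Φ a) (A B : R) :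
    (genC A B).map Φ = genC (Φ A) (Φ B) := by
  apply le_antisymm
  · rw [Submodule.map_le_iff_le_comap]
    refine genC_le (genC_left _ _) (genC_right _ _) ?_
    intro M hM N hN
    rw [Submodule.mem_comap] at *
    rw [hΦ]
    exact genC_br _ _ hM hN
  · refine genC_le (Submodule.mem_map_of_mem (genC_left A B)) (Submodule.mem_map_of_mem (genC_right A B)) ?_
    rintro _ ⟨M, hM, rfl⟩ _ ⟨N, hN, rfl⟩
    rw [← hΦ]
    exact Submodule.mem_map_of_mem (genC_br A B hM hN)

theorem finrank_genC_map (Φ : R →ₗ[ℂ] S) (hΦ : ∀ a b, Φ (a * b - b * a) = Φ a * Φ b - Φ b * Φ a) (A B : R)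
    (T : Submodule ℂ R) (hT : ∀ x ∈ T, Φ x = 0 → x = 0) (hA : A ∈ T) (hB : B ∈ T)
    (hbr : ∀ M ∈ T, ∀ N ∈ T, M * N - N * M ∈ T) :
    Module.finrank ℂ (genC (Φ A) (Φ B)) = Module.finrank ℂ (genC A B) := by
  rw [← genC_map Φ hΦ A B]
  have hle : genC A B ≤ T := genC_le hA hB hbr
  have hinj : Function.Injective (Φ.domRestrict (genC A B)) := by
    rw [← LinearMap.ker_eq_bot, LinearMap.ker_eq_bot']
    intro x hx
    apply Subtype.ext
    exact hT x.1 (hle x.2) hx
  have e := LinearMap.finrank_range_of_inj hinj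
  rw [LinearMap.range_domRestrict] at e
  exact e

theorem mem_genC_of_map (Φ : R →ₗ[ℂ] S) (hΦ : ∀ a b, Φ (a * b - b * a) = Φ a * Φ b - Φ b * Φ a) (A B : R)
    (T : Submodule ℂ R) (hT : ∀ x ∈ T, Φ x = 0 → x = 0) (hA : A ∈ T) (hB : B ∈ T)
    (hbr : ∀ M ∈ T, ∀ N ∈ T, M * N - N * M ∈ T) {x : R} (hx : x ∈ T) (h : Φ x ∈ genC (Φ A) (Φ B)) : x ∈ genC A B := by
  rw [← genC_map Φ hΦ A B] at h
  obtain ⟨y, hy, hyx⟩ := h
  have hle : genC A B ≤ T := genC_le hA hB hbr
  have h1 : y - x = 0 := hT _ (T.sub_mem (hle hy) hx) (by rw [map_sub, hyx, sub_self])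
  rw [← sub_eq_zero.1 h1]
  exact hy

end

/-! ## the parts -/

section
variable {U W I : Type*} [Fintype U] [DecidableEq U] [Fintype W] [DecidableEq W] [Fintype I] [DecidableEq I]
  {V : I → Type*} [∀ i, Fintype (V i)] [∀ i, DecidableEq (V i)]

/-- the qubits of `W` are the disjoint union of the parts `U` and `V i` -/
structure Parts (f : U ↪ W) (g : ∀ i, V i ↪ W) : Prop where
  fg : ∀ u i a, f u ≠ g i a
  gg : ∀ i j a b, g i a = g j b → i = j
  cover : ∀ w, (∃ u, f u = w) ∨ ∃ i a, g i a = w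

theorem Parts.sum_eq {M : Type*} [AddCommMonoid M] {f : U ↪ W} {g : ∀ i, V i ↪ W} (h : Parts f g) (F : W → M) :
    ∑ w, F w = ∑ u, F (f u) + ∑ i, ∑ a, F (g i a) := by
  let e : U ⊕ (Σ i, V i) → W := Sum.elim f (fun p => g p.1 p.2)
  have he : Function.Bijective e := by
    constructor
    · rintro (u | ⟨i, a⟩) (u' | ⟨j, b⟩) hx
      · exact congrArg Sum.inl (f.injective hx)
      · exact absurd hx (h.fg u j b)
      · exact absurd hx.symm (h.fg u' i a)
      · have hij : i = j := h.gg i j a b hx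
        subst hij
        have hab : a = b := (g i).injective hx
        rw [hab]
    · intro w
      rcases h.cover w with ⟨u, hu⟩ | ⟨i, a, ha⟩
      · exact ⟨Sum.inl u, hu⟩
      · exact ⟨Sum.inr ⟨i, a⟩, ha⟩
  rw [← (Equiv.ofBijective e he).sum_comp F, Fintype.sum_sum_type, Fintype.sum_sigma]
  rfl

/-- `Φ (z₀, z) = z₀ + ∑ z_i` on the union -/
noncomputable def phi (f : U ↪ W) (g : ∀ i, V i ↪ W) : (Op U × (∀ i, Op (V i))) →ₗ[ℂ] Op W where
  toFun z := emb f z.1 + ∑ i, emb (g i) (z.2 i)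
  map_add' := by
    intro x y
    have e : ∀ i, emb (g i) ((x + y).2 i) = emb (g i) (x.2 i) + emb (g i) (y.2 i) := fun i => emb_add _ _ _
    rw [Finset.sum_congr rfl fun i _ => e i, Finset.sum_add_distrib, Prod.fst_add, emb_add]
    abel
  map_smul' := by
    intro c x
    have e : ∀ i, emb (g i) ((c • x).2 i) = c • emb (g i) (x.2 i) := fun i => emb_smul _ _ _
    rw [Finset.sum_congr rfl fun i _ => e i, ← Finset.smul_sum, Prod.smul_fst, emb_smul, RingHom.id_apply, smul_add]

theorem phi_apply (f : U ↪ W) (g : ∀ i, V i ↪ W) (z : Op U × (∀ i, Op (V i))) :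
    phi f g z = emb f z.1 + ∑ i, emb (g i) (z.2 i) := rfl

theorem emb_sub (f : U ↪ W) (a b : Op U) : emb f (a - b) = emb f a - emb f b := by
  have h : a - b = a + (-1 : ℂ) • b := by rw [neg_one_smul, sub_eq_add_neg]
  rw [h, emb_add, emb_smul, neg_one_smul, sub_eq_add_neg]

theorem Parts.phi_br {f : U ↪ W} {g : ∀ i, V i ↪ W} (h : Parts f g) (x y : Op U × (∀ i, Op (V i))) :
    phi f g (x * y - y * x) = phi f g x * phi f g y - phi f g y * phi f g x := by
  rw [phi_apply, phi_apply, phi_apply]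
  have e1 : emb f (x * y - y * x).1 = emb f x.1 * emb f y.1 - emb f y.1 * emb f x.1 := by
    rw [← emb_mul, ← emb_mul, ← emb_sub]
    rfl
  have e2 : ∀ i, emb (g i) ((x * y - y * x).2 i) =
      emb (g i) (x.2 i) * emb (g i) (y.2 i) - emb (g i) (y.2 i) * emb (g i) (x.2 i) := by
    intro i
    rw [← emb_mul, ← emb_mul, ← emb_sub]
    rfl
  rw [e1, Finset.sum_congr rfl fun i _ => e2 i]
  have c1 : ∀ (a : Op U) (z : ∀ i, Op (V i)), emb f a * ∑ i, emb (g i) (z i) = (∑ i, emb (g i) (z i)) * emb f a := by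
    intro a z
    rw [Finset.mul_sum, Finset.sum_mul]
    exact Finset.sum_congr rfl fun i _ => emb_commute f (g i) (fun u a => h.fg u i a) _ _
  have c2 : (∑ i, emb (g i) (x.2 i)) * (∑ i, emb (g i) (y.2 i)) - (∑ i, emb (g i) (y.2 i)) * (∑ i, emb (g i) (x.2 i)) =
      ∑ i, (emb (g i) (x.2 i) * emb (g i) (y.2 i) - emb (g i) (y.2 i) * emb (g i) (x.2 i)) := by
    rw [Finset.sum_mul_sum, Finset.sum_mul_sum, Finset.sum_comm (f := fun i j => emb (g i) (y.2 i) * emb (g j) (x.2 j)),
      ← Finset.sum_sub_distrib]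
    refine Finset.sum_congr rfl fun i _ => ?_
    rw [← Finset.sum_sub_distrib]
    rw [Finset.sum_eq_single i]
    · intro j _ hj
      rw [emb_commute (g i) (g j) (fun a b hab => hj (h.gg i j a b hab).symm), sub_self]
    · intro hi
      exact absurd (Finset.mem_univ i) hi
  have c3 := c1 x.1 y.2
  have c4 := c1 y.1 x.2
  generalize emb f x.1 = X at *
  generalize emb f y.1 = Y at *
  generalize (∑ i, emb (g i) (x.2 i)) = X' at *
  generalize (∑ i, emb (g i) (y.2 i)) = Y' at *
  rw [← c2]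
  rw [add_mul, mul_add, mul_add, add_mul, mul_add, mul_add, c3, c4]
  abel

/-- operators without component on the range of `f` -/
structure Off (f : U ↪ W) (N : Op W) : Prop where
  off : ∀ x y, x ≠ y → (∀ w, w ∉ Set.range f → x w = y w) → N x y = 0
  dia : ∀ x y, (∀ w, w ∉ Set.range f → x w = y w) → N x x = N y y

theorem off_add {f : U ↪ W} {N N' : Op W} (h : Off f N) (h' : Off f N') : Off f (N + N') := by
  refine ⟨fun x y hxy hw => ?_, fun x y hw => ?_⟩
  · rw [Matrix.add_apply, h.off x y hxy hw, h'.off x y hxy hw, add_zero]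
  · rw [Matrix.add_apply, Matrix.add_apply, h.dia x y hw, h'.dia x y hw]

theorem off_sum {κ : Type*} {f : U ↪ W} (s : Finset κ) (N : κ → Op W) (h : ∀ i ∈ s, Off f (N i)) :
    Off f (∑ i ∈ s, N i) := by
  refine ⟨fun x y hxy hw => ?_, fun x y hw => ?_⟩
  · rw [Matrix.sum_apply]
    exact Finset.sum_eq_zero fun i hi => (h i hi).off x y hxy hw
  · rw [Matrix.sum_apply, Matrix.sum_apply]
    exact Finset.sum_congr rfl fun i hi => (h i hi).dia x y hw

theorem off_emb {U' : Type*} [Fintype U'] [DecidableEq U'] (f : U ↪ W) (g : U' ↪ W) (h : ∀ u u', f u ≠ g u')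
    (b : Op U') : Off f (emb g b) := by
  classical
  refine ⟨fun x y hxy hw => ?_, fun x y hw => ?_⟩
  · have : ∃ w, x w ≠ y w := by
      by_contra hc
      push Not at hc
      exact hxy (funext hc)
    obtain ⟨w, hwne⟩ := this
    have hwf : w ∈ Set.range f := by
      by_contra hc
      exact hwne (hw w hc)
    have hwg : w ∉ Set.range g := by
      rintro ⟨u', hu'⟩
      obtain ⟨u, hu⟩ := hwf
      exact h u u' (hu.trans hu'.symm)
    rw [emb, Matrix.of_apply, if_neg]
    intro hall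
    exact hwne (hall w hwg)
  · have e : (fun u => x (g u)) = fun u => y (g u) := by
      funext u
      exact hw _ (by rintro ⟨v, hv⟩; exact h v u hv)
    rw [emb, Matrix.of_apply, Matrix.of_apply, if_pos (fun _ _ => rfl), if_pos (fun _ _ => rfl), e]

theorem eq_zero_of_off (f : U ↪ W) (a : Op U) (N : Op W) (hN : Off f N) (h : emb f a + N = 0) (ht : a.trace = 0) :
    a = 0 := by
  classical
  let ex : (U → Bool) → W → Bool := fun p => Function.extend f p (fun _ => false)
  have ex1 : ∀ p u, ex p (f u) = p u := fun p u => f.injective.extend_apply p _ u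
  have ex2 : ∀ p w, w ∉ Set.range f → ex p w = false := fun p w hw => Function.extend_apply' _ _ _ hw
  have ex3 : ∀ p, (fun u => ex p (f u)) = p := fun p => funext (ex1 p)
  have hag : ∀ p q w, w ∉ Set.range f → ex p w = ex q w := fun p q w hw => by rw [ex2 p w hw, ex2 q w hw]
  have hemb : ∀ p q, emb f a (ex p) (ex q) = a p q := by
    intro p q
    rw [emb, Matrix.of_apply, if_pos (hag p q), ex3 p, ex3 q]
  have hent : ∀ p q, a p q + N (ex p) (ex q) = 0 := by
    intro p q
    have h1 := congrFun (congrFun h (ex p)) (ex q)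
    rw [Matrix.add_apply, hemb] at h1
    exact h1
  have hoff : ∀ p q, p ≠ q → a p q = 0 := by
    intro p q hpq
    have h1 := hent p q
    have hne : ex p ≠ ex q := by
      intro hc
      exact hpq (by rw [← ex3 p, ← ex3 q, hc])
    rwa [hN.off _ _ hne (hag p q), add_zero] at h1
  have hdia : ∀ p q, a p p = a q q := by
    intro p q
    have h1 := hent p p
    have h2 := hent q q
    rw [hN.dia _ _ (hag p q)] at h1
    linear_combination h1 - h2
  have hz : ∀ p, a p p = 0 := by
    intro p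
    have h1 : a.trace = (Fintype.card (U → Bool) : ℂ) * a p p := by
      rw [Matrix.trace, Finset.sum_congr rfl fun q _ => show a.diag q = a p p from hdia q p, Finset.sum_const,
        Finset.card_univ, nsmul_eq_mul]
    rw [ht] at h1
    have hcard : (Fintype.card (U → Bool) : ℂ) ≠ 0 := Nat.cast_ne_zero.2 Fintype.card_ne_zero
    exact (mul_eq_zero.1 h1.symm).resolve_left hcard
  ext p q
  by_cases hpq : p = q
  · subst hpq
    exact hz p
  · exact hoff p q hpq

/-- tuples of operators of trace zero -/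
def traceless (U I : Type*) [Fintype U] [DecidableEq U] [Fintype I] [DecidableEq I] (V : I → Type*)
    [∀ i, Fintype (V i)] [∀ i, DecidableEq (V i)] : Submodule ℂ (Op U × (∀ i, Op (V i))) where
  carrier := {z | z.1.trace = 0 ∧ ∀ i, (z.2 i).trace = 0}
  add_mem' := by
    rintro x y ⟨h1, h2⟩ ⟨h3, h4⟩
    refine ⟨?_, fun i => ?_⟩
    · rw [Prod.fst_add, Matrix.trace_add, h1, h3, add_zero]
    · rw [Prod.snd_add, Pi.add_apply, Matrix.trace_add, h2 i, h4 i, add_zero]
  zero_mem' := ⟨Matrix.trace_zero _ _, fun _ => Matrix.trace_zero _ _⟩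
  smul_mem' := by
    rintro c x ⟨h1, h2⟩
    refine ⟨?_, fun i => ?_⟩
    · rw [Prod.smul_fst, Matrix.trace_smul, h1, smul_zero]
    · rw [Prod.smul_snd, Pi.smul_apply, Matrix.trace_smul, h2 i, smul_zero]

theorem traceless_br (x y : Op U × (∀ i, Op (V i))) : x * y - y * x ∈ traceless U I V := by
  refine ⟨?_, fun i => ?_⟩
  · change (x.1 * y.1 - y.1 * x.1).trace = 0
    rw [Matrix.trace_sub, Matrix.trace_mul_comm, sub_self]
  · change (x.2 i * y.2 i - y.2 i * x.2 i).trace = 0
    rw [Matrix.trace_sub, Matrix.trace_mul_comm, sub_self]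

theorem Parts.phi_inj {f : U ↪ W} {g : ∀ i, V i ↪ W} (h : Parts f g) (z : Op U × (∀ i, Op (V i)))
    (hz : z ∈ traceless U I V) (h0 : phi f g z = 0) : z = 0 := by
  rw [phi_apply] at h0
  apply Prod.ext
  · refine eq_zero_of_off f z.1 _ (off_sum _ _ fun i _ => ?_) h0 hz.1
    exact off_emb f (g i) (fun u a => h.fg u i a) _
  · funext i
    have h1 : emb (g i) (z.2 i) + (emb f z.1 + ∑ j ∈ Finset.univ.erase i, emb (g j) (z.2 j)) = 0 := by
      rw [← h0, ← Finset.add_sum_erase Finset.univ (fun j => emb (g j) (z.2 j)) (Finset.mem_univ i)]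
      abel
    refine eq_zero_of_off (g i) (z.2 i) _ (off_add ?_ (off_sum _ _ fun j hj => ?_)) h1 (hz.2 i)
    · exact off_emb (g i) f (fun a u hc => h.fg u i a hc.symm) _
    · exact off_emb (g i) (g j) (fun a b hc => (Finset.ne_of_mem_erase hj) (h.gg i j a b hc).symm) _

/-- the dimension of the algebra generated by sums over the parts -/
theorem Parts.finrank_eq {f : U ↪ W} {g : ∀ i, V i ↪ W} (h : Parts f g) (A B : Op U × (∀ i, Op (V i)))
    (hA : A ∈ traceless U I V) (hB : B ∈ traceless U I V) :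
    Module.finrank ℂ (genC (phi f g A) (phi f g B)) = Module.finrank ℂ (genC A B) :=
  finrank_genC_map (phi f g) h.phi_br A B (traceless U I V) h.phi_inj hA hB fun M _ N _ => traceless_br M N

theorem Parts.mem_of_phi {f : U ↪ W} {g : ∀ i, V i ↪ W} (h : Parts f g) (A B : Op U × (∀ i, Op (V i)))
    (hA : A ∈ traceless U I V) (hB : B ∈ traceless U I V) {x : Op U × (∀ i, Op (V i))} (hx : x ∈ traceless U I V)
    (hm : phi f g x ∈ genC (phi f g A) (phi f g B)) : x ∈ genC A B :=
  mem_genC_of_map (phi f g) h.phi_br A B (traceless U I V) h.phi_inj hA hB (fun M _ N _ => traceless_br M N) hx hm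

end

end Pool.Agent.QAOA.CX.SumP
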