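import Pool.Agent.Lib_MP_debdb1_cx.Ten1

/-!
# Piece TEN: operators on disjoint sets of qubits

The first half (`emb`) is in `Ten1.lean`.
-/

set_option autoImplicit false

namespace Pool.Agent.QAOA.CX

open Matrix Pool.Agent.QAOA

section
variable {U W I : Type*} [Fintype U] [DecidableEq U] [Fintype W] [DecidableEq W] [Fintype I] [DecidableEq I]

/-- the Pauli operators generate all operators -/
theorem emb_mem_adjoin (f : U ↪ W) (a : Op U) :
    emb f a ∈ Algebra.adjoin ℂ {q : Op W | ∃ u : U, q = px (f u) ∨ q = pz (f u)} := by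
  let B : Subalgebra ℂ (Op W) := Algebra.adjoin ℂ {q : Op W | ∃ u : U, q = px (f u) ∨ q = pz (f u)}
  let S : Subalgebra ℂ (Op U) :=
    { carrier := {b | emb f b ∈ B}
      mul_mem' := fun {b c} hb hc => by
        change emb f (b * c) ∈ B
        rw [emb_mul]
        exact B.mul_mem hb hc
      one_mem' := by
        change emb f 1 ∈ B
        rw [emb_one]
        exact B.one_mem
      add_mem' := fun {b c} hb hc => by
        change emb f (b + c) ∈ B
        rw [emb_add]
        exact B.add_mem hb hc
      zero_mem' := by
        change emb f 0 ∈ B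
        have h : emb f (0 : Op U) = 0 := by
          have := emb_smul f 0 (0 : Op U)
          rwa [zero_smul, zero_smul] at this
        rw [h]
        exact B.zero_mem
      algebraMap_mem' := fun c => by
        change emb f (algebraMap ℂ (Op U) c) ∈ B
        rw [Algebra.algebraMap_eq_smul_one, emb_smul, emb_one]
        exact B.smul_mem B.one_mem c }
  have hpx : ∀ u, (px u : Op U) ∈ S := fun u => by
    change emb f (px u) ∈ B
    rw [emb_px]
    exact Algebra.subset_adjoin ⟨u, Or.inl rfl⟩
  have hpz : ∀ u, (pz u : Op U) ∈ S := fun u => by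
    change emb f (pz u) ∈ B
    rw [emb_pz]
    exact Algebra.subset_adjoin ⟨u, Or.inr rfl⟩
  -- diagonal matrix units
  have hdiag : ∀ x : U → Bool, (Matrix.single x x 1 : Op U) ∈ S := by
    intro x
    let D : Subalgebra ℂ ((U → Bool) → ℂ) := S.comap (Matrix.diagonalAlgHom ℂ)
    have h1 : (∏ u : U, ((1 / 2 : ℂ) • (1 + sg (x u) • (fun z : U → Bool => sg (z u))))) ∈ D := by
      refine D.prod_mem fun u _ => D.smul_mem (D.add_mem D.one_mem (D.smul_mem ?_ _)) _
      exact hpz u
    have h2 : (∏ u : U, ((1 / 2 : ℂ) • (1 + sg (x u) • (fun z : U → Bool => sg (z u))))) =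
        Pi.single x 1 := by
      ext z
      rw [Finset.prod_apply]
      by_cases hz : z = x
      · subst hz
        rw [Pi.single_eq_same]
        refine Finset.prod_eq_one fun u _ => ?_
        simp only [Pi.smul_apply, Pi.add_apply, Pi.one_apply, smul_eq_mul]
        cases z u <;> simp [sg] <;> norm_num
      · rw [Pi.single_eq_of_ne hz]
        obtain ⟨u, hu⟩ := Function.ne_iff.1 hz
        refine Finset.prod_eq_zero (Finset.mem_univ u) ?_
        simp only [Pi.smul_apply, Pi.add_apply, Pi.one_apply, smul_eq_mul]
        revert hu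
        cases z u <;> cases x u <;> simp [sg]
    rw [h2] at h1
    have h3 : (Matrix.diagonal (Pi.single x 1) : Op U) ∈ S := h1
    rwa [Matrix.diagonal_single] at h3
  -- all matrix units
  have hall : ∀ (s : Finset U) (x y : U → Bool), (∀ u, u ∉ s → x u = y u) →
      (Matrix.single x y 1 : Op U) ∈ S := by
    intro s
    induction s using Finset.induction_on with
    | empty =>
      intro x y h
      obtain rfl : x = y := funext fun u => h u (Finset.notMem_empty u)
      exact hdiag x
    | insert u s hu ih =>
      intro x y h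
      by_cases hxy : x u = y u
      · apply ih
        intro w hw
        by_cases hwu : w = u
        · rw [hwu, hxy]
        · exact h w (by rw [Finset.mem_insert]; tauto)
      · have h1 : (Matrix.single x y 1 : Op U) =
            px u * Matrix.single (Function.update x u (!(x u))) y 1 := by
          ext a b
          rw [Matrix.mul_apply, Finset.sum_eq_single (Function.update x u (!(x u)))]
          · simp only [Matrix.single_apply, px, Matrix.of_apply, true_and]
            by_cases hab : x = a
            · subst hab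
              simp
            · have h2 : ¬ (Function.update x u (!(x u)) = Function.update a u (!(a u))) := by
                intro h3
                apply hab
                funext w
                have h4 := congrFun h3 w
                by_cases hw : w = u
                · subst hw
                  simpa using h4
                · simpa [hw] using h4
              simp [hab, h2]
          · intro c _ hc
            rw [Matrix.single_apply, if_neg (fun h => hc h.1.symm), mul_zero]
          · intro h
            exact absurd (Finset.mem_univ _) h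
        rw [h1]
        refine S.mul_mem (hpx u) (ih _ _ fun w hw => ?_)
        by_cases hwu : w = u
        · subst hwu
          rw [Function.update_self]
          revert hxy
          cases x w <;> cases y w <;> simp
        · rw [Function.update_of_ne hwu]
          exact h w (by rw [Finset.mem_insert]; tauto)
  have : a ∈ S := by
    rw [Matrix.matrix_eq_sum_single a]
    refine S.sum_mem fun x _ => S.sum_mem fun y _ => ?_
    have h1 : (Matrix.single x y (a x y) : Op U) = a x y • Matrix.single x y 1 := by
      rw [Matrix.smul_single, smul_eq_mul, mul_one]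
    rw [h1]
    exact S.smul_mem (hall Finset.univ x y fun u hu => absurd (Finset.mem_univ u) hu) _
  exact this

open Classical in
/-- `O ⊗ (⊗ a_i)` -/
noncomputable def TP (f : U ↪ W) (g : I → Fin 8 ↪ W) (O : Op U) (a : I → Op (Fin 8)) : Op W :=
  Matrix.of fun x y => if (∀ w, w ∉ Set.range f → (∀ i, w ∉ Set.range (g i)) → x w = y w)
    then O (fun u => x (f u)) (fun u => y (f u)) * ∏ i, a i (fun s => x (g i s)) (fun s => y (g i s)) else 0

/-- the sets of qubits are pairwise disjoint -/
structure Dj (f : U ↪ W) (g : I → Fin 8 ↪ W) : Prop where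
  fg : ∀ u i s, f u ≠ g i s
  gg : ∀ i j s t, g i s = g j t → i = j

/-- equality off the ranges -/
def Off (f : U ↪ W) (g : I → Fin 8 ↪ W) (x y : W → Bool) : Prop :=
  ∀ w, w ∉ Set.range f → (∀ i, w ∉ Set.range (g i)) → x w = y w

omit [DecidableEq U] [DecidableEq I] in
open Classical in
theorem TP_apply (f : U ↪ W) (g : I → Fin 8 ↪ W) (O : Op U) (a : I → Op (Fin 8)) (x y : W → Bool) :
    TP f g O a x y = if Off f g x y then O (fun u => x (f u)) (fun u => y (f u)) *
      ∏ i, a i (fun s => x (g i s)) (fun s => y (g i s)) else 0 := by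
  rw [TP, Matrix.of_apply]
  by_cases h : Off f g x y
  · rw [if_pos h]
    exact if_pos h
  · rw [if_neg h]
    exact if_neg h

/-- all gadget qubits -/
def gq (g : I → Fin 8 ↪ W) : I × Fin 8 → W := fun p => g p.1 p.2

omit [Fintype U] [DecidableEq U] [Fintype W] [DecidableEq W] [Fintype I] [DecidableEq I] in
theorem gq_inj {f : U ↪ W} {g : I → Fin 8 ↪ W} (hd : Dj f g) : Function.Injective (gq g) := by
  rintro ⟨i, s⟩ ⟨j, t⟩ h
  obtain rfl : i = j := hd.gg i j s t h
  exact Prod.ext rfl ((g i).injective h)

/-- the function with given values on the ranges, equal to `x` off the ranges -/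
noncomputable def glue (f : U ↪ W) (g : I → Fin 8 ↪ W) (x : W → Bool) (t : U → Bool)
    (s : I → Fin 8 → Bool) : W → Bool :=
  Function.extend f t (Function.extend (gq g) (fun p => s p.1 p.2) x)

omit [Fintype U] [DecidableEq U] [Fintype W] [DecidableEq W] [Fintype I] [DecidableEq I] in
theorem glue_f (f : U ↪ W) (g : I → Fin 8 ↪ W) (x : W → Bool) (t : U → Bool)
    (s : I → Fin 8 → Bool) (u : U) : glue f g x t s (f u) = t u :=
  f.injective.extend_apply _ _ _

omit [Fintype U] [DecidableEq U] [Fintype W] [DecidableEq W] [Fintype I] [DecidableEq I] in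
theorem glue_g {f : U ↪ W} {g : I → Fin 8 ↪ W} (hd : Dj f g) (x : W → Bool) (t : U → Bool)
    (s : I → Fin 8 → Bool) (i : I) (r : Fin 8) : glue f g x t s (g i r) = s i r := by
  unfold glue
  rw [Function.extend_apply']
  · exact (gq_inj hd).extend_apply _ _ (i, r)
  · rintro ⟨u, hu⟩
    exact hd.fg u i r hu

omit [Fintype U] [DecidableEq U] [Fintype W] [DecidableEq W] [Fintype I] [DecidableEq I] in
theorem glue_off (f : U ↪ W) (g : I → Fin 8 ↪ W) (x : W → Bool) (t : U → Bool)
    (s : I → Fin 8 → Bool) : Off f g x (glue f g x t s) := by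
  intro w h1 h2
  unfold glue
  rw [Function.extend_apply', Function.extend_apply']
  · rintro ⟨⟨i, r⟩, h⟩
    exact h2 i ⟨r, h⟩
  · rintro ⟨u, hu⟩
    exact h1 ⟨u, hu⟩

theorem glue_eq {f : U ↪ W} {g : I → Fin 8 ↪ W} (hd : Dj f g) {x z : W → Bool} (h : Off f g x z) :
    glue f g x (fun u => z (f u)) (fun i r => z (g i r)) = z := by
  funext w
  by_cases h1 : w ∈ Set.range f
  · obtain ⟨u, rfl⟩ := h1
    rw [glue_f]
  · by_cases h2 : ∀ i, w ∉ Set.range (g i)
    · rw [← glue_off f g x _ _ w h1 h2]
      exact h w h1 h2
    · push Not at h2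
      obtain ⟨i, r, rfl⟩ := h2
      rw [glue_g hd]

open Classical in
theorem sum_glue {f : U ↪ W} {g : I → Fin 8 ↪ W} (hd : Dj f g) (x : W → Bool)
    (F : (U → Bool) → (I → Fin 8 → Bool) → ℂ) :
    ∑ z : W → Bool, (if Off f g x z then F (fun u => z (f u)) (fun i r => z (g i r)) else 0) =
      ∑ t : U → Bool, ∑ s : I → Fin 8 → Bool, F t s := by
  rw [← Finset.sum_filter, ← Finset.sum_product', Finset.univ_product_univ]
  refine Finset.sum_bij' (fun z _ => ((fun u => z (f u)), (fun i r => z (g i r))))
    (fun p _ => glue f g x p.1 p.2) ?_ ?_ ?_ ?_ ?_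
  · intro z _
    exact Finset.mem_univ _
  · intro p _
    rw [Finset.mem_filter]
    exact ⟨Finset.mem_univ _, glue_off f g x _ _⟩
  · intro z hz
    rw [Finset.mem_filter] at hz
    exact glue_eq hd hz.2
  · rintro ⟨t, s⟩ _
    refine Prod.ext ?_ ?_
    · funext u
      exact glue_f f g x t s u
    · funext i r
      exact glue_g hd x t s i r
  · intro z _
    rfl

theorem TP_mul (f : U ↪ W) (g : I → Fin 8 ↪ W) (hd : Dj f g) (O O' : Op U) (a a' : I → Op (Fin 8)) :
    TP f g O a * TP f g O' a' = TP f g (O * O') (fun i => a i * a' i) := by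
  classical
  ext x y
  rw [Matrix.mul_apply]
  simp only [TP_apply]
  by_cases hxy : Off f g x y
  · rw [if_pos hxy]
    let F : (U → Bool) → (I → Fin 8 → Bool) → ℂ := fun t s =>
      (O (fun u => x (f u)) t * ∏ i, a i (fun s => x (g i s)) (s i)) *
        (O' t (fun u => y (f u)) * ∏ i, a' i (s i) (fun s => y (g i s)))
    have h1 : ∀ z, (if Off f g x z then O (fun u => x (f u)) (fun u => z (f u)) *
          ∏ i, a i (fun s => x (g i s)) (fun s => z (g i s)) else 0) *
        (if Off f g z y then O' (fun u => z (f u)) (fun u => y (f u)) *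
          ∏ i, a' i (fun s => z (g i s)) (fun s => y (g i s)) else 0) =
        if Off f g x z then F (fun u => z (f u)) (fun i r => z (g i r)) else 0 := by
      intro z
      by_cases hz : Off f g x z
      · have h2 : Off f g z y := fun w h1 h2 => (hz w h1 h2).symm.trans (hxy w h1 h2)
        rw [if_pos hz, if_pos h2, if_pos hz]
      · rw [if_neg hz, zero_mul, if_neg hz]
    refine (Finset.sum_congr rfl (fun z _ => h1 z)).trans ((sum_glue hd x F).trans ?_)
    simp only [F]
    simp only [Matrix.mul_apply]
    rw [Finset.prod_univ_sum, Fintype.piFinset_univ, Finset.sum_mul_sum]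
    refine Finset.sum_congr rfl fun t _ => Finset.sum_congr rfl fun s _ => ?_
    rw [Finset.prod_mul_distrib]
    ring
  · rw [if_neg hxy]
    refine Finset.sum_eq_zero fun z _ => ?_
    by_cases hz : Off f g x z
    · have h2 : ¬ Off f g z y := fun h => hxy fun w h1 h2 => (hz w h1 h2).trans (h w h1 h2)
      rw [if_neg h2, mul_zero]
    · rw [if_neg hz, zero_mul]

theorem TP_core (f : U ↪ W) (g : I → Fin 8 ↪ W) (hd : Dj f g) (O : Op U) : TP f g O (fun _ => 1) = emb f O := by
  classical
  ext x y
  rw [TP_apply, emb, Matrix.of_apply]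
  by_cases h : ∀ w, w ∉ Set.range f → x w = y w
  · have h1 : Off f g x y := fun w h1 _ => h w h1
    rw [if_pos h, if_pos h1, Finset.prod_eq_one, mul_one]
    intro i _
    have h2 : (fun s => x (g i s)) = fun s => y (g i s) := by
      funext s
      exact h _ (by rintro ⟨u, hu⟩; exact hd.fg u i s hu)
    rw [h2, Matrix.one_apply_eq]
  · rw [if_neg h]
    by_cases h1 : Off f g x y
    · rw [if_pos h1]
      push Not at h
      obtain ⟨w, hw, hne⟩ := h
      have h2 : ∃ i, w ∈ Set.range (g i) := by
        by_contra hc
        push Not at hc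
        exact hne (h1 w hw hc)
      obtain ⟨i, r, rfl⟩ := h2
      rw [Finset.prod_eq_zero (Finset.mem_univ i), mul_zero]
      rw [Matrix.one_apply_ne]
      intro h3
      exact hne (congrFun h3 r)
    · rw [if_neg h1]

theorem TP_gad (f : U ↪ W) (g : I → Fin 8 ↪ W) (hd : Dj f g) (i : I) (a : Op (Fin 8)) :
    TP f g 1 (fun j => if j = i then a else 1) = emb (g i) a := by
  classical
  ext x y
  rw [TP_apply, emb, Matrix.of_apply]
  by_cases h : ∀ w, w ∉ Set.range (g i) → x w = y w
  · have h1 : Off f g x y := fun w _ h2 => h w (h2 i)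
    have h2 : (fun u => x (f u)) = fun u => y (f u) := by
      funext u
      exact h _ (by rintro ⟨s, hs⟩; exact hd.fg u i s hs.symm)
    rw [if_pos h, if_pos h1, h2, Matrix.one_apply_eq, one_mul, Finset.prod_eq_single i]
    · rw [if_pos rfl]
    · intro j _ hj
      have h3 : (fun s => x (g j s)) = fun s => y (g j s) := by
        funext s
        exact h _ (by rintro ⟨t, ht⟩; exact hj (hd.gg i j t s ht).symm)
      rw [if_neg hj, h3, Matrix.one_apply_eq]
    · intro hi
      exact absurd (Finset.mem_univ i) hi
  · rw [if_neg h]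
    by_cases h1 : Off f g x y
    · rw [if_pos h1]
      push Not at h
      obtain ⟨w, hw, hne⟩ := h
      by_cases h2 : w ∈ Set.range f
      · obtain ⟨u, rfl⟩ := h2
        rw [Matrix.one_apply_ne (fun h3 => hne (congrFun h3 u)), zero_mul]
      · have h3 : ∃ j, w ∈ Set.range (g j) := by
          by_contra hc
          push Not at hc
          exact hne (h1 w h2 hc)
        obtain ⟨j, r, rfl⟩ := h3
        have hji : j ≠ i := by
          rintro rfl
          exact hw ⟨r, rfl⟩
        rw [Finset.prod_eq_zero (Finset.mem_univ j), mul_zero]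
        rw [if_neg hji, Matrix.one_apply_ne]
        intro h3
        exact hne (congrFun h3 r)
    · rw [if_neg h1]

/-- every `TP O a` lies in each subalgebra which contains its factors -/
theorem TP_mem (f : U ↪ W) (g : I → Fin 8 ↪ W) (hd : Dj f g) (O : Op U) (a : I → Op (Fin 8)) (B : Subalgebra ℂ (Op W))
    (hO : emb f O ∈ B) (ha : ∀ i, emb (g i) (a i) ∈ B) : TP f g O a ∈ B := by
  classical
  have key : ∀ s : Finset I, TP f g O (fun i => if i ∈ s then a i else 1) ∈ B := by
    intro s
    induction s using Finset.induction_on with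
    | empty =>
      have h1 : (fun i : I => if i ∈ (∅ : Finset I) then a i else 1) = fun _ => 1 := by
        funext i
        rw [if_neg (Finset.notMem_empty i)]
      rw [h1, TP_core f g hd]
      exact hO
    | insert j s hj ih =>
      have h1 : TP f g O (fun i => if i ∈ insert j s then a i else 1) =
          TP f g O (fun i => if i ∈ s then a i else 1) *
            TP f g 1 (fun i => if i = j then a j else 1) := by
        rw [TP_mul f g hd, mul_one]
        congr 1
        funext i
        by_cases hij : i = j
        · subst hij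
          rw [if_pos (Finset.mem_insert_self i s), if_neg hj, if_pos rfl, one_mul]
        · rw [if_neg hij, mul_one]
          by_cases his : i ∈ s
          · rw [if_pos his, if_pos (Finset.mem_insert_of_mem his)]
          · rw [if_neg his, if_neg]
            rw [Finset.mem_insert]
            tauto
      rw [h1, TP_gad f g hd]
      exact B.mul_mem ih (ha j)
  have h1 := key Finset.univ
  simpa using h1

/-- dual coefficients of linearly independent matrices -/
theorem exists_dual {ι κ : Type*} [Fintype κ] [DecidableEq κ] [DecidableEq ι] (e : ι → Matrix κ κ ℂ)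
    (he : LinearIndependent ℂ e) :
    ∃ d : ι → κ → κ → ℂ, ∀ i j, ∑ p : κ × κ, d j p.1 p.2 * e i p.1 p.2 = if i = j then 1 else 0 := by
  obtain ⟨φ, hφ⟩ := LinearMap.exists_leftInverse_of_injective (Finsupp.linearCombination ℂ e)
    (LinearMap.ker_eq_bot.2 he)
  refine ⟨fun j r r' => φ (Matrix.single r r' 1) j, fun i j => ?_⟩
  have h1 : φ (e i) = Finsupp.single i 1 := by
    have h2 := LinearMap.congr_fun hφ (Finsupp.single i 1)
    simpa using h2
  have h2 : φ (e i) j = if i = j then 1 else 0 := by
    rw [h1, Finsupp.single_apply]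
  rw [← h2]
  conv_rhs => rw [Matrix.matrix_eq_sum_single (e i)]
  rw [map_sum, Finsupp.finsetSum_apply, Fintype.sum_prod_type]
  refine Finset.sum_congr rfl fun r _ => ?_
  rw [map_sum, Finsupp.finsetSum_apply]
  refine Finset.sum_congr rfl fun r' _ => ?_
  have h3 : (Matrix.single r r' (e i r r') : Matrix κ κ ℂ) = e i r r' • Matrix.single r r' 1 := by
    rw [Matrix.smul_single, smul_eq_mul, mul_one]
  rw [h3, map_smul, Finsupp.smul_apply, smul_eq_mul, mul_comm]

/-- linear independence of tensor products -/
theorem TP_indep (f : U ↪ W) (g : I → Fin 8 ↪ W) (hd : Dj f g) {n : ℕ} (e : Fin n → Op (Fin 8)) (he : LinearIndependent ℂ e)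
    (O : (I → Fin n) → Op U) (h : ∑ α, TP f g (O α) (fun i => e (α i)) = 0) : ∀ α, O α = 0 := by
  classical
  intro β
  obtain ⟨d, hdual⟩ := exists_dual e he
  ext xc yc
  -- the entries
  have h1 : ∀ p : I → (Fin 8 → Bool) × (Fin 8 → Bool),
      ∑ α, O α xc yc * ∏ i, e (α i) (p i).1 (p i).2 = 0 := by
    intro p
    have h2 := congrFun (congrFun h (glue f g (fun _ => false) xc fun i => (p i).1))
      (glue f g (fun _ => false) yc fun i => (p i).2)
    rw [Matrix.sum_apply, Matrix.zero_apply] at h2
    rw [← h2]
    refine Finset.sum_congr rfl fun α _ => ?_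
    rw [TP_apply, if_pos]
    · simp only [glue_f, glue_g hd]
    · intro w hw1 hw2
      exact (glue_off f g (fun _ => false) xc (fun i => (p i).1) w hw1 hw2).symm.trans
        (glue_off f g (fun _ => false) yc (fun i => (p i).2) w hw1 hw2)
  have h2 : ∑ p : I → (Fin 8 → Bool) × (Fin 8 → Bool), (∏ i, d (β i) (p i).1 (p i).2) *
      ∑ α, O α xc yc * ∏ i, e (α i) (p i).1 (p i).2 = O β xc yc := by
    have h3 : ∀ p : I → (Fin 8 → Bool) × (Fin 8 → Bool), (∏ i, d (β i) (p i).1 (p i).2) *
        ∑ α, O α xc yc * ∏ i, e (α i) (p i).1 (p i).2 =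
        ∑ α, O α xc yc * ∏ i, (d (β i) (p i).1 (p i).2 * e (α i) (p i).1 (p i).2) := by
      intro p
      rw [Finset.mul_sum]
      refine Finset.sum_congr rfl fun α _ => ?_
      rw [Finset.prod_mul_distrib]
      ring
    rw [Finset.sum_congr rfl (fun p _ => h3 p), Finset.sum_comm]
    have h4 : ∀ α : I → Fin n, ∑ p : I → (Fin 8 → Bool) × (Fin 8 → Bool),
        O α xc yc * ∏ i, (d (β i) (p i).1 (p i).2 * e (α i) (p i).1 (p i).2) =
        if α = β then O β xc yc else 0 := by
      intro α
      rw [← Finset.mul_sum]
      have h5 := Finset.prod_univ_sum (fun _ : I => (Finset.univ : Finset ((Fin 8 → Bool) × (Fin 8 → Bool))))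
        (fun i p => d (β i) p.1 p.2 * e (α i) p.1 p.2)
      rw [Fintype.piFinset_univ] at h5
      rw [← h5]
      simp only [hdual]
      by_cases hα : α = β
      · subst hα
        simp
      · rw [if_neg hα]
        obtain ⟨i, hi⟩ := Function.ne_iff.1 hα
        rw [Finset.prod_eq_zero (Finset.mem_univ i) (if_neg hi), mul_zero]
    rw [Finset.sum_congr rfl (fun α _ => h4 α)]
    simp
  rw [← h2]
  simp [h1]

end

end Pool.Agent.QAOA.CX
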