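import Pool.Agent.Lib_MP_debdb1_cx.Base

/-!
# Piece TEN1: operators on a subset of the qubits
-/

set_option autoImplicit false

namespace Pool.Agent.QAOA.CX

open Matrix Pool.Agent.QAOA

section
variable {U W I : Type*} [Fintype U] [DecidableEq U] [Fintype W] [DecidableEq W] [Fintype I] [DecidableEq I]

omit [Fintype U] [DecidableEq U] [Fintype W] [DecidableEq W] in
theorem emb_of (f : U ↪ W) (a : Op U) {x y : W → Bool} (h : ∀ w, w ∉ Set.range f → x w = y w) :
    emb f a x y = a (fun u => x (f u)) (fun u => y (f u)) := by
  simp only [emb, Matrix.of_apply]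
  rw [if_pos h]

omit [Fintype U] [DecidableEq U] [Fintype W] [DecidableEq W] in
theorem emb_not (f : U ↪ W) (a : Op U) {x y : W → Bool} (h : ¬ ∀ w, w ∉ Set.range f → x w = y w) :
    emb f a x y = 0 := by
  simp only [emb, Matrix.of_apply]
  rw [if_neg h]

/-- `emb f` is multiplicative -/
theorem emb_mul (f : U ↪ W) (a b : Op U) : emb f (a * b) = emb f a * emb f b := by
  ext x y
  rw [Matrix.mul_apply]
  by_cases h : ∀ w, w ∉ Set.range f → x w = y w
  · rw [emb_of f _ h, Matrix.mul_apply]
    refine Fintype.sum_of_injective (fun t : U → Bool => Function.extend f t x) ?_ _ _ ?_ ?_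
    · intro t t' ht
      funext u
      have := congrFun ht (f u)
      simpa only [f.injective.extend_apply] using this
    · intro z hz
      rw [emb_not, zero_mul]
      intro h2
      apply hz
      refine ⟨fun u => z (f u), ?_⟩
      funext w
      by_cases hw : w ∈ Set.range f
      · obtain ⟨u, rfl⟩ := hw
        simp only [f.injective.extend_apply]
      · have hw' : ¬ ∃ u, f u = w := hw
        simp only [Function.extend_apply' _ _ _ hw']
        exact h2 w hw
    · intro t
      have h1 : ∀ w, w ∉ Set.range f → x w = Function.extend f t x w := by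
        intro w hw
        have hw' : ¬ ∃ u, f u = w := hw
        rw [Function.extend_apply' _ _ _ hw']
      have h2 : ∀ w, w ∉ Set.range f → Function.extend f t x w = y w := by
        intro w hw
        rw [← h1 w hw]
        exact h w hw
      rw [emb_of f a h1, emb_of f b h2]
      simp only [f.injective.extend_apply]
  · rw [emb_not f _ h]
    symm
    refine Finset.sum_eq_zero fun z _ => ?_
    by_cases h1 : ∀ w, w ∉ Set.range f → x w = z w
    · rw [emb_not f b, mul_zero]
      intro h2
      exact h fun w hw => (h1 w hw).trans (h2 w hw)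
    · rw [emb_not f a h1, zero_mul]

theorem emb_one (f : U ↪ W) : emb f (1 : Op U) = 1 := by
  ext x y
  by_cases hxy : x = y
  · subst hxy
    rw [emb_of f _ (fun w _ => rfl), Matrix.one_apply_eq, Matrix.one_apply_eq]
  · rw [Matrix.one_apply_ne hxy]
    by_cases h : ∀ w, w ∉ Set.range f → x w = y w
    · rw [emb_of f _ h, Matrix.one_apply_ne]
      intro h2
      apply hxy
      funext w
      by_cases hw : w ∈ Set.range f
      · obtain ⟨u, rfl⟩ := hw
        exact congrFun h2 u
      · exact h w hw
    · exact emb_not f _ h

theorem emb_add (f : U ↪ W) (a b : Op U) : emb f (a + b) = emb f a + emb f b := by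
  ext x y
  rw [Matrix.add_apply]
  by_cases h : ∀ w, w ∉ Set.range f → x w = y w
  · rw [emb_of f _ h, emb_of f _ h, emb_of f _ h, Matrix.add_apply]
  · rw [emb_not f _ h, emb_not f _ h, emb_not f _ h, add_zero]

theorem emb_smul (f : U ↪ W) (c : ℂ) (a : Op U) : emb f (c • a) = c • emb f a := by
  ext x y
  rw [Matrix.smul_apply]
  by_cases h : ∀ w, w ∉ Set.range f → x w = y w
  · rw [emb_of f _ h, emb_of f _ h, Matrix.smul_apply]
  · rw [emb_not f _ h, emb_not f _ h, smul_zero]

theorem emb_zero (f : U ↪ W) : emb f (0 : Op U) = 0 := by
  have := emb_smul f 0 (0 : Op U)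
  rwa [zero_smul, zero_smul] at this

theorem emb_sum {κ : Type*} (s : Finset κ) (f : U ↪ W) (a : κ → Op U) : emb f (∑ i ∈ s, a i) = ∑ i ∈ s, emb f (a i) := by
  classical
  induction s using Finset.induction_on with
  | empty => rw [Finset.sum_empty, Finset.sum_empty, emb_zero]
  | insert i s hi ih => rw [Finset.sum_insert hi, Finset.sum_insert hi, emb_add, ih]

theorem emb_injective (f : U ↪ W) : Function.Injective (emb f : Op U → Op W) := by
  intro a b hab
  ext s t
  have h1 : ∀ w, w ∉ Set.range f → Function.extend f s (fun _ => false) w = Function.extend f t (fun _ => false) w := by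
    intro w hw
    have hw' : ¬ ∃ u, f u = w := hw
    rw [Function.extend_apply' _ _ _ hw', Function.extend_apply' _ _ _ hw']
  have h2 := congrFun (congrFun hab (Function.extend f s (fun _ => false))) (Function.extend f t (fun _ => false))
  rw [emb_of f a h1, emb_of f b h1] at h2
  simpa only [f.injective.extend_apply] using h2

theorem emb_px (f : U ↪ W) (u : U) : emb f (px u) = px (f u) := by
  ext x y
  have hR : (px (f u) : Op W) x y = if y = Function.update x (f u) (!(x (f u))) then 1 else 0 := rfl
  rw [hR]
  by_cases h : ∀ w, w ∉ Set.range f → x w = y w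
  · rw [emb_of f _ h]
    have hL : (px u : Op U) (fun v => x (f v)) (fun v => y (f v)) =
      if (fun v => y (f v)) = Function.update (fun v => x (f v)) u (!(x (f u))) then 1 else 0 := rfl
    rw [hL]
    congr 1
    apply propext
    constructor
    · intro h2
      funext w
      by_cases hw : w ∈ Set.range f
      · obtain ⟨v, rfl⟩ := hw
        have h3 := congrFun h2 v
        by_cases hv : v = u
        · subst hv
          simpa only [Function.update_self] using h3
        · rw [Function.update_of_ne (fun h4 => hv (f.injective h4))]
          rwa [Function.update_of_ne hv] at h3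
      · rw [Function.update_of_ne (fun h4 => hw ⟨u, h4.symm⟩)]
        exact (h w hw).symm
    · intro h2
      funext v
      have h3 := congrFun h2 (f v)
      by_cases hv : v = u
      · subst hv
        simpa only [Function.update_self] using h3
      · rw [Function.update_of_ne (fun h4 => hv (f.injective h4))] at h3
        rw [Function.update_of_ne hv]
        exact h3
  · rw [emb_not f _ h, if_neg]
    intro h2
    apply h
    intro w hw
    rw [h2, Function.update_of_ne (fun h4 => hw ⟨u, h4.symm⟩)]

theorem emb_pz (f : U ↪ W) (u : U) : emb f (pz u) = pz (f u) := by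
  ext x y
  by_cases hxy : x = y
  · subst hxy
    rw [emb_of f _ (fun w _ => rfl)]
    simp only [pz, Matrix.diagonal_apply_eq]
  · have hR : (pz (f u) : Op W) x y = 0 := by
      simp only [pz, Matrix.diagonal_apply_ne _ hxy]
    rw [hR]
    by_cases h : ∀ w, w ∉ Set.range f → x w = y w
    · rw [emb_of f _ h, pz, Matrix.diagonal_apply_ne]
      intro h2
      apply hxy
      funext w
      by_cases hw : w ∈ Set.range f
      · obtain ⟨v, rfl⟩ := hw
        exact congrFun h2 v
      · exact h w hw
    · exact emb_not f _ h

/-- the entries of a product of two operators on disjoint sets of qubits -/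
theorem emb_mul_emb {U' : Type*} [Fintype U'] [DecidableEq U'] (f : U ↪ W) (g : U' ↪ W) (h : ∀ u u', f u ≠ g u')
    (a : Op U) (b : Op U') (x y : W → Bool) : (emb f a * emb g b) x y =
      (open Classical in if ∀ w, w ∉ Set.range f → w ∉ Set.range g → x w = y w
        then a (fun u => x (f u)) (fun u => y (f u)) * b (fun u => x (g u)) (fun u => y (g u)) else 0) := by
  classical
  set z0 : W → Bool := fun w => if w ∈ Set.range f then y w else x w with hz0
  have hz1 : ∀ w, w ∉ Set.range f → x w = z0 w := by
    intro w hw
    simp only [hz0, if_neg hw]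
  have hzf : (fun u => z0 (f u)) = fun u => y (f u) := by
    funext u
    simp only [hz0, if_pos (Set.mem_range_self u)]
  have hzg : (fun u => z0 (g u)) = fun u => x (g u) := by
    funext u
    have : g u ∉ Set.range f := by
      rintro ⟨v, hv⟩
      exact h v u hv
    simp only [hz0, if_neg this]
  rw [Matrix.mul_apply, Finset.sum_eq_single z0]
  · rw [emb_of f a hz1, hzf]
    by_cases h2 : ∀ w, w ∉ Set.range f → w ∉ Set.range g → x w = y w
    · rw [if_pos h2, emb_of g b, hzg]
      intro w hw
      by_cases hf : w ∈ Set.range f
      · simp only [hz0, if_pos hf]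
      · simp only [hz0, if_neg hf]
        exact h2 w hf hw
    · rw [if_neg h2, emb_not g b, mul_zero]
      intro h3
      apply h2
      intro w hf hg
      have := h3 w hg
      rwa [← hz1 w hf] at this
  · intro z _ hz
    by_cases h1 : ∀ w, w ∉ Set.range f → x w = z w
    · rw [emb_not g b, mul_zero]
      intro h2
      apply hz
      funext w
      by_cases hf : w ∈ Set.range f
      · simp only [hz0, if_pos hf]
        apply h2
        rintro ⟨u', hu'⟩
        obtain ⟨u, hu⟩ := hf
        exact h u u' (hu.trans hu'.symm)
      · simp only [hz0, if_neg hf]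
        exact (h1 w hf).symm
    · rw [emb_not f a h1, zero_mul]
  · intro h2
    exact absurd (Finset.mem_univ _) h2

/-- operators on disjoint sets of qubits commute -/
theorem emb_commute {U' : Type*} [Fintype U'] [DecidableEq U'] (f : U ↪ W) (g : U' ↪ W) (h : ∀ u u', f u ≠ g u')
    (a : Op U) (b : Op U') : emb f a * emb g b = emb g b * emb f a := by
  classical
  ext x y
  rw [emb_mul_emb f g h, emb_mul_emb g f (fun u' u => (h u u').symm)]
  by_cases h2 : ∀ w, w ∉ Set.range f → w ∉ Set.range g → x w = y w
  · rw [if_pos h2, if_pos (fun w hg hf => h2 w hf hg), mul_comm]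
  · rw [if_neg h2, if_neg (fun h3 => h2 fun w hf hg => h3 w hg hf)]

open Classical in
/-- the bits in the range of `f` and the others -/
noncomputable def bitEquiv (f : U ↪ W) : (W → Bool) ≃ (U → Bool) × ({w // w ∉ Set.range f} → Bool) where
  toFun x := (fun u => x (f u), fun w => x w.1)
  invFun p := fun w => if h : w ∈ Set.range f then p.1 h.choose else p.2 ⟨w, h⟩
  left_inv x := by
    funext w
    by_cases h : w ∈ Set.range f
    · simp only [dif_pos h]
      rw [h.choose_spec]
    · simp only [dif_neg h]
  right_inv p := by
    refine Prod.ext ?_ ?_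
    · funext u
      have h : f u ∈ Set.range f := Set.mem_range_self u
      simp only [dif_pos h]
      exact congrArg p.1 (f.injective h.choose_spec)
    · funext w
      simp only [dif_neg w.2]

theorem emb_trace_zero (f : U ↪ W) (a : Op U) (h : a.trace = 0) : (emb f a).trace = 0 := by
  classical
  have h1 : ∀ x : W → Bool, (emb f a).diag x = (fun p : (U → Bool) × ({w // w ∉ Set.range f} → Bool) => a p.1 p.1) (bitEquiv f x) := by
    intro x
    rw [Matrix.diag_apply, emb_of f a (fun w _ => rfl)]
    rfl
  have h2 : (emb f a).trace = ∑ p : (U → Bool) × ({w // w ∉ Set.range f} → Bool), a p.1 p.1 :=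
    Fintype.sum_equiv (bitEquiv f) _ _ h1
  rw [h2, Fintype.sum_prod_type_right]
  refine Finset.sum_eq_zero fun r _ => ?_
  exact h

end

end Pool.Agent.QAOA.CX
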