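import Pool.Agent.Lib_MP_debdb1_cx.Ub2
import Pool.Agent.Lib_MP_debdb1_cx.Gad
import Pool.Agent.Lib_MP_debdb1_cx.SumC

/-!
# Piece UB, part (1): the Lie algebra is contained in the tensors plus one operator
-/

set_option autoImplicit false

namespace Pool.Agent.QAOA.CX

open Matrix Pool.Agent.QAOA

section

theorem ub_Jz_mem : (∑ s : Fin 8, pz s : Op (Fin 8)) ∈ SS := by
  rw [SS, Algebra.mem_sInf]
  exact fun B hB => hB.2.1

theorem ub_br_mem {a : Op (Fin 8)} (ha : a ∈ SS) : HP GS * a - a * HP GS ∈ SS := by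
  rw [SS, Algebra.mem_sInf] at *
  exact fun B hB => hB.2.2 a (ha B hB)

theorem ub_emb_HM {U W : Type*} [Fintype U] [DecidableEq U] [Fintype W] [DecidableEq W] (f : U ↪ W) :
    emb f (HM U) = ∑ u, px (f u) := by
  rw [HM, emb_sum]
  exact Finset.sum_congr rfl fun u _ => emb_px f u

open Classical in
theorem ub_emb_HP {U W : Type*} [Fintype U] [DecidableEq U] [Fintype W] [DecidableEq W] (f : U ↪ W)
    (G : SimpleGraph U) :
    emb f (HP G) = (1 / 2 : ℂ) • ∑ j, ∑ k, if G.Adj j k then pz (f j) * pz (f k) else 0 := by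
  rw [HP, emb_smul, emb_sum]
  congr 1
  refine Finset.sum_congr rfl fun j _ => ?_
  rw [emb_sum]
  refine Finset.sum_congr rfl fun k _ => ?_
  split_ifs
  · rw [emb_mul, emb_pz, emb_pz]
  · exact emb_zero f

variable {m : ℕ} [NeZero m] {A : Finset (ZMod m)}

theorem ub_HM : HM (VA m A) = emb (cE m A) (HM (ZMod m)) + ∑ p, emb (pE m A p) (HM (Fin 8)) := by
  rw [HM, Fintype.sum_sum_type, Fintype.sum_prod_type, ub_emb_HM]
  congr 1
  refine Finset.sum_congr rfl fun p _ => ?_
  rw [ub_emb_HM]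
  rfl

/-- the gadget part of the Hamiltonian -/
noncomputable def ubH (m : ℕ) [NeZero m] (A : Finset (ZMod m)) : Op (VA m A) := ∑ p, emb (pE m A p) (HP GS)

open Classical in
theorem ub_HP : HP (compG m A) = emb (cE m A) (HP (coreG m)) +
    ∑ p : {p : ZMod m // p ∈ A}, pz (Sum.inl p.1 : VA m A) * emb (pE m A p) (∑ s : Fin 8, pz s) + ubH m A := by
  have e1 : ∀ p : {p : ZMod m // p ∈ A}, pz (Sum.inl p.1 : VA m A) * emb (pE m A p) (∑ s : Fin 8, pz s) =
      ∑ s : Fin 8, pz (Sum.inl p.1) * pz (Sum.inr (p, s) : VA m A) := by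
    intro p
    rw [emb_sum, Finset.mul_sum]
    exact Finset.sum_congr rfl fun s _ => by rw [emb_pz]; rfl
  have b2 : ∀ u : ZMod m, ∑ p : {p : ZMod m // p ∈ A}, ∑ s : Fin 8,
      (if (compG m A).Adj (Sum.inl u) (Sum.inr (p, s)) then pz (Sum.inl u) * pz (Sum.inr (p, s)) else 0 : Op (VA m A)) =
      ∑ p : {p : ZMod m // p ∈ A}, ∑ s : Fin 8,
        if u = p.1 then pz (Sum.inl p.1) * pz (Sum.inr (p, s)) else 0 := by
    intro u
    refine Finset.sum_congr rfl fun p _ => Finset.sum_congr rfl fun s _ => ?_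
    by_cases h : u = p.1
    · rw [if_pos h, if_pos (show (compG m A).Adj (Sum.inl u) (Sum.inr (p, s)) from h), h]
    · rw [if_neg h, if_neg (show ¬ (compG m A).Adj (Sum.inl u) (Sum.inr (p, s)) from h)]
  have b3 : ∀ (p : {p : ZMod m // p ∈ A}) (s : Fin 8), ∑ u : ZMod m,
      (if (compG m A).Adj (Sum.inr (p, s)) (Sum.inl u) then pz (Sum.inr (p, s)) * pz (Sum.inl u) else 0 : Op (VA m A)) =
      pz (Sum.inl p.1) * pz (Sum.inr (p, s)) := by
    intro p s
    rw [Finset.sum_eq_single p.1]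
    · rw [if_pos (show (compG m A).Adj (Sum.inr (p, s)) (Sum.inl p.1) from rfl)]
      exact SumP.pz_mul_pz_comm _ _
    · intro u _ hu
      rw [if_neg (show ¬ (compG m A).Adj (Sum.inr (p, s)) (Sum.inl u) from hu)]
    · intro h
      exact absurd (Finset.mem_univ _) h
  have b4 : ∀ (p : {p : ZMod m // p ∈ A}) (s : Fin 8), ∑ q : {p : ZMod m // p ∈ A}, ∑ t : Fin 8,
      (if (compG m A).Adj (Sum.inr (p, s)) (Sum.inr (q, t)) then pz (Sum.inr (p, s)) * pz (Sum.inr (q, t)) else 0 :
        Op (VA m A)) = ∑ t : Fin 8, if GS.Adj s t then pz (Sum.inr (p, s)) * pz (Sum.inr (p, t)) else 0 := by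
    intro p s
    rw [Finset.sum_eq_single p]
    · refine Finset.sum_congr rfl fun t _ => ?_
      by_cases h : GS.Adj s t
      · rw [if_pos h, if_pos (show (compG m A).Adj (Sum.inr (p, s)) (Sum.inr (p, t)) from ⟨rfl, h⟩)]
      · rw [if_neg h, if_neg (show ¬ (compG m A).Adj (Sum.inr (p, s)) (Sum.inr (p, t)) from fun h' => h h'.2)]
    · intro q _ hq
      refine Finset.sum_eq_zero fun t _ => ?_
      rw [if_neg (show ¬ (compG m A).Adj (Sum.inr (p, s)) (Sum.inr (q, t)) from fun h' => hq h'.1.symm)]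
    · intro h
      exact absurd (Finset.mem_univ _) h
  have b5 : ∑ u : ZMod m, ∑ p : {p : ZMod m // p ∈ A}, ∑ s : Fin 8,
      (if u = p.1 then pz (Sum.inl p.1) * pz (Sum.inr (p, s)) else 0 : Op (VA m A)) =
      ∑ p : {p : ZMod m // p ∈ A}, ∑ s : Fin 8, pz (Sum.inl p.1) * pz (Sum.inr (p, s)) := by
    rw [Finset.sum_comm]
    refine Finset.sum_congr rfl fun p _ => ?_
    rw [Finset.sum_comm]
    refine Finset.sum_congr rfl fun s _ => ?_
    rw [Finset.sum_ite_eq' Finset.univ p.1, if_pos (Finset.mem_univ _)]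
  have e2 : ubH m A = (1 / 2 : ℂ) • ∑ p : {p : ZMod m // p ∈ A}, ∑ s : Fin 8, ∑ t : Fin 8,
      (if GS.Adj s t then pz (Sum.inr (p, s)) * pz (Sum.inr (p, t)) else 0 : Op (VA m A)) := by
    rw [ubH, Finset.smul_sum]
    refine Finset.sum_congr rfl fun p _ => ?_
    rw [ub_emb_HP]
    congr 1
    refine Finset.sum_congr rfl fun s _ => Finset.sum_congr rfl fun t _ => ?_
    by_cases h : GS.Adj s t
    · rw [if_pos h, if_pos h]
      rfl
    · rw [if_neg h, if_neg h]
  rw [e2, ub_emb_HP, Finset.sum_congr rfl fun p _ => e1 p, HP]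
  simp only [Fintype.sum_sum_type, Fintype.sum_prod_type]
  rw [Finset.sum_add_distrib, Finset.sum_congr rfl fun u _ => b2 u, b5]
  simp only [Finset.sum_add_distrib, b3, b4]
  simp only [smul_add]
  set S1 : Op (VA m A) := ∑ p : {p : ZMod m // p ∈ A}, ∑ s : Fin 8, pz (Sum.inl p.1) * pz (Sum.inr (p, s)) with hS1
  have e3 : (1 / 2 : ℂ) • S1 + (1 / 2 : ℂ) • S1 = S1 := by
    rw [← add_smul]
    norm_num
  conv_rhs => rw [← e3]
  have e4 : ∀ a b c : Op (VA m A), a + b + (b + c) = a + (b + b) + c := by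
    intro a b c
    abel
  exact e4 _ _ _

/-- the span of the tensors with gadget factors in `SS` -/
noncomputable def ubT (m : ℕ) [NeZero m] (A : Finset (ZMod m)) : Submodule ℂ (Op (VA m A)) :=
  Submodule.span ℂ {z | ∃ (O : Op (ZMod m)) (a : {p : ZMod m // p ∈ A} → Op (Fin 8)),
    (∀ p, a p ∈ SS) ∧ z = TP (cE m A) (pE m A) O a}

theorem ubT_mul {z z' : Op (VA m A)} (hz : z ∈ ubT m A) (hz' : z' ∈ ubT m A) : z * z' ∈ ubT m A := by
  induction hz using Submodule.span_induction with
  | mem z h =>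
    obtain ⟨O, a, ha, rfl⟩ := h
    induction hz' using Submodule.span_induction with
    | mem z' h' =>
      obtain ⟨O', a', ha', rfl⟩ := h'
      refine Submodule.subset_span ⟨O * O', fun i => a i * a' i, fun p => SS.mul_mem (ha p) (ha' p), ?_⟩
      exact TP_mul _ _ (dj_cp m A) O O' a a'
    | zero => rw [mul_zero]; exact Submodule.zero_mem _
    | add x y _ _ hx hy => rw [mul_add]; exact Submodule.add_mem _ hx hy
    | smul c x _ hx => rw [mul_smul_comm]; exact Submodule.smul_mem _ c hx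
  | zero => rw [zero_mul]; exact Submodule.zero_mem _
  | add x y _ _ hx hy => rw [add_mul]; exact Submodule.add_mem _ hx hy
  | smul c x _ hx => rw [smul_mul_assoc]; exact Submodule.smul_mem _ c hx

theorem ubT_core (O : Op (ZMod m)) : emb (cE m A) O ∈ ubT m A :=
  Submodule.subset_span ⟨O, fun _ => 1, fun _ => SS.one_mem, (TP_core _ _ (dj_cp m A) O).symm⟩

theorem ubT_gad (p : {p : ZMod m // p ∈ A}) {a : Op (Fin 8)} (ha : a ∈ SS) : emb (pE m A p) a ∈ ubT m A := by
  refine Submodule.subset_span ⟨1, fun j => if j = p then a else 1, fun j => ?_, (TP_gad _ _ (dj_cp m A) p a).symm⟩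
  dsimp only
  split_ifs
  · exact ha
  · exact SS.one_mem

theorem TP_cp_slot (O : Op (ZMod m)) (a : {p : ZMod m // p ∈ A} → Op (Fin 8)) (p : {p : ZMod m // p ∈ A})
    (b c : Op (Fin 8)) :
    TP (cE m A) (pE m A) O (Function.update a p b) - TP (cE m A) (pE m A) O (Function.update a p c) =
      TP (cE m A) (pE m A) O (Function.update a p (b - c)) := by
  have e : ∀ (d : Op (Fin 8)) (x y : VA m A → Bool),
      ∏ i, Function.update a p d i (fun s => x (Sum.inr (i, s))) (fun s => y (Sum.inr (i, s))) =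
        d (fun s => x (Sum.inr (p, s))) (fun s => y (Sum.inr (p, s))) *
          ∏ i ∈ Finset.univ.erase p, a i (fun s => x (Sum.inr (i, s))) (fun s => y (Sum.inr (i, s))) := by
    intro d x y
    rw [← Finset.mul_prod_erase Finset.univ _ (Finset.mem_univ p), Function.update_self]
    congr 1
    refine Finset.prod_congr rfl fun i hi => ?_
    rw [Function.update_of_ne (Finset.mem_erase.1 hi).1]
  ext x y
  rw [Matrix.sub_apply, TP_cp, TP_cp, TP_cp, e, e, e, Matrix.sub_apply]
  ring

theorem ubT_br {z : Op (VA m A)} (hz : z ∈ ubT m A) : ubH m A * z - z * ubH m A ∈ ubT m A := by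
  induction hz using Submodule.span_induction with
  | mem z h =>
    obtain ⟨O, a, ha, rfl⟩ := h
    rw [ubH, Finset.sum_mul, Finset.mul_sum, ← Finset.sum_sub_distrib]
    refine Submodule.sum_mem _ fun p _ => ?_
    have h1 : emb (pE m A p) (HP GS) * TP (cE m A) (pE m A) O a =
        TP (cE m A) (pE m A) O (Function.update a p (HP GS * a p)) := by
      rw [← TP_gad (cE m A) (pE m A) (dj_cp m A) p (HP GS), TP_mul _ _ (dj_cp m A), one_mul]
      congr 1
      funext i
      by_cases hi : i = p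
      · subst hi
        rw [if_pos rfl, Function.update_self]
      · rw [if_neg hi, Function.update_of_ne hi, one_mul]
    have h2 : TP (cE m A) (pE m A) O a * emb (pE m A p) (HP GS) =
        TP (cE m A) (pE m A) O (Function.update a p (a p * HP GS)) := by
      rw [← TP_gad (cE m A) (pE m A) (dj_cp m A) p (HP GS), TP_mul _ _ (dj_cp m A), mul_one]
      congr 1
      funext i
      by_cases hi : i = p
      · subst hi
        rw [if_pos rfl, Function.update_self]
      · rw [if_neg hi, Function.update_of_ne hi, mul_one]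
    rw [h1, h2, TP_cp_slot]
    refine Submodule.subset_span ⟨O, _, fun q => ?_, rfl⟩
    by_cases hq : q = p
    · subst hq
      rw [Function.update_self]
      exact ub_br_mem (ha q)
    · rw [Function.update_of_ne hq]
      exact ha q
  | zero => rw [mul_zero, zero_mul, sub_zero]; exact Submodule.zero_mem _
  | add x y _ _ hx hy =>
    have : ubH m A * (x + y) - (x + y) * ubH m A = (ubH m A * x - x * ubH m A) + (ubH m A * y - y * ubH m A) := by
      rw [mul_add, add_mul]
      abel
    rw [this]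
    exact Submodule.add_mem _ hx hy
  | smul c x _ hx =>
    have : ubH m A * (c • x) - (c • x) * ubH m A = c • (ubH m A * x - x * ubH m A) := by
      rw [mul_smul_comm, smul_mul_assoc, smul_sub]
    rw [this]
    exact Submodule.smul_mem _ c hx

theorem ub_genC_le : genC (HP (compG m A)) (HM (VA m A)) ≤ ubT m A ⊔ Submodule.span ℂ {ubH m A} := by
  have hH1 : emb (cE m A) (HP (coreG m)) +
      ∑ p : {p : ZMod m // p ∈ A}, pz (Sum.inl p.1 : VA m A) * emb (pE m A p) (∑ s : Fin 8, pz s) ∈ ubT m A := by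
    refine Submodule.add_mem _ (ubT_core _) (Submodule.sum_mem _ fun p _ => ubT_mul ?_ (ubT_gad p ub_Jz_mem))
    have := ubT_core (A := A) (pz p.1)
    rwa [emb_pz] at this
  have hHM : HM (VA m A) ∈ ubT m A := by
    rw [ub_HM]
    exact Submodule.add_mem _ (ubT_core _) (Submodule.sum_mem _ fun p _ => ubT_gad p GadAux.HM_mem_SS)
  refine SumP.genC_le ?_ (Submodule.mem_sup_left hHM) ?_
  · rw [ub_HP]
    exact Submodule.add_mem _ (Submodule.mem_sup_left hH1)
      (Submodule.mem_sup_right (Submodule.mem_span_singleton_self _))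
  · intro M hM N hN
    obtain ⟨t, ht, x, hx, rfl⟩ := Submodule.mem_sup.1 hM
    obtain ⟨c, rfl⟩ := Submodule.mem_span_singleton.1 hx
    obtain ⟨t', ht', x', hx', rfl⟩ := Submodule.mem_sup.1 hN
    obtain ⟨c', rfl⟩ := Submodule.mem_span_singleton.1 hx'
    refine Submodule.mem_sup_left ?_
    have e : (t + c • ubH m A) * (t' + c' • ubH m A) - (t' + c' • ubH m A) * (t + c • ubH m A) =
        (t * t' - t' * t) + c • (ubH m A * t' - t' * ubH m A) - c' • (ubH m A * t - t * ubH m A) := by
      simp only [mul_add, add_mul, smul_mul_assoc, mul_smul_comm, smul_sub]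
      module
    rw [e]
    exact Submodule.sub_mem _ (Submodule.add_mem _ (Submodule.sub_mem _ (ubT_mul ht ht') (ubT_mul ht' ht))
      (Submodule.smul_mem _ c (ubT_br ht'))) (Submodule.smul_mem _ c' (ubT_br ht))

/-- every element of `ubT` is a sum of basis tensors -/
theorem ubT_expand (n : ℕ) (e : Fin (n + 1) → Op (Fin 8))
    (hspan : Submodule.span ℂ (Set.range e) = Subalgebra.toSubmodule SS) {z : Op (VA m A)} (hz : z ∈ ubT m A) :
    ∃ O : ({p : ZMod m // p ∈ A} → Fin (n + 1)) → Op (ZMod m),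
      z = ∑ α, TP (cE m A) (pE m A) (O α) (fun i => e (α i)) := by
  classical
  induction hz using Submodule.span_induction with
  | mem z h =>
    obtain ⟨O, a, ha, rfl⟩ := h
    have h1 : ∀ p, ∃ c : Fin (n + 1) → ℂ, ∑ j, c j • e j = a p := by
      intro p
      have h2 : a p ∈ Submodule.span ℂ (Set.range e) := by
        rw [hspan]
        exact ha p
      exact (Submodule.mem_span_range_iff_exists_fun ℂ).1 h2
    choose c hc using h1
    refine ⟨fun α => (∏ i, c i (α i)) • O, ?_⟩
    ext x y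
    rw [Matrix.sum_apply, TP_cp]
    have h2 : ∀ i, a i (fun s => x (Sum.inr (i, s))) (fun s => y (Sum.inr (i, s))) =
        ∑ j, c i j * e j (fun s => x (Sum.inr (i, s))) (fun s => y (Sum.inr (i, s))) := by
      intro i
      rw [← hc i, Matrix.sum_apply]
      rfl
    rw [Finset.prod_congr rfl fun i _ => h2 i, Finset.prod_univ_sum, Fintype.piFinset_univ, Finset.mul_sum]
    refine Finset.sum_congr rfl fun α _ => ?_
    rw [TP_cp, Finset.prod_mul_distrib]
    change _ = ((∏ i, c i (α i)) * O (fun u => x (Sum.inl u)) (fun u => y (Sum.inl u))) * _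
    ring
  | zero => exact ⟨fun _ => 0, by rw [Finset.sum_congr rfl fun α _ => TP_cp_zero _]; simp⟩
  | add x y _ _ hx hy =>
    obtain ⟨O, rfl⟩ := hx
    obtain ⟨O', rfl⟩ := hy
    refine ⟨fun α => O α + O' α, ?_⟩
    rw [← Finset.sum_add_distrib]
    exact Finset.sum_congr rfl fun α _ => (TP_cp_add _ _ _).symm
  | smul t x _ hx =>
    obtain ⟨O, rfl⟩ := hx
    refine ⟨fun α => t • O α, ?_⟩
    rw [Finset.smul_sum]
    exact Finset.sum_congr rfl fun α _ => (TP_cp_smul _ _ _).symm

end

theorem ub_finrank {E : Type*} [AddCommGroup E] [Module ℂ E] [FiniteDimensional ℂ E] (K T : Submodule ℂ E) (h : E)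
    (hK : K ≤ T ⊔ Submodule.span ℂ {h}) : Module.finrank ℂ K ≤ Module.finrank ℂ (K ⊓ T : Submodule ℂ E) + 1 := by
  have h1 := Submodule.finrank_sup_add_finrank_inf_eq K T
  have h2 : Module.finrank ℂ (K ⊔ T : Submodule ℂ E) ≤ Module.finrank ℂ (T ⊔ Submodule.span ℂ {h} : Submodule ℂ E) :=
    Submodule.finrank_mono (sup_le hK le_sup_left)
  have h3 := Submodule.finrank_add_le_finrank_add_finrank T (Submodule.span ℂ {h})
  have h4 : Module.finrank ℂ (Submodule.span ℂ {h}) ≤ 1 := by
    simpa using finrank_span_le_card (R := ℂ) ({h} : Set E)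
  omega

theorem upper' (m : ℕ) [NeZero m] (A : Finset (ZMod m)) (K : Submodule ℂ (Op (VA m A)))
    (hK : K ≤ genC (HP (compG m A)) (HM (VA m A))) (hk : ∀ p, ∀ z ∈ K, z * hid m A p = 0) :
    Module.finrank ℂ K ≤ (Module.finrank ℂ SS - 1) ^ A.card * 4 ^ m + 1 := by
  obtain ⟨n, e, _, hdim, he, hspan, h0, hs⟩ := SS_basis
  have h1 := ub_finrank K (ubT m A) (ubH m A) (hK.trans ub_genC_le)
  have h2 := upper_count n e he h0 hs psi_ne (K ⊓ ubT m A) (fun z hz => ubT_expand n e hspan hz.2)
    (fun p z hz => hk p z hz.1)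
  rw [hdim, Nat.add_sub_cancel]
  omega

end Pool.Agent.QAOA.CX
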