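import Pool.Agent.Lib_MP_debdb1_cx.Ub3

/-!
# Piece UB, part (2): the dimension count
-/

set_option autoImplicit false

namespace Pool.Agent.QAOA.CX

open Matrix Pool.Agent.QAOA

section
variable {m : ℕ} [NeZero m] {A : Finset (ZMod m)}

theorem TP_cp_add (O O' : Op (ZMod m)) (a : {p : ZMod m // p ∈ A} → Op (Fin 8)) :
    TP (cE m A) (pE m A) (O + O') a = TP (cE m A) (pE m A) O a + TP (cE m A) (pE m A) O' a := by
  ext x y
  rw [Matrix.add_apply, TP_cp, TP_cp, TP_cp, Matrix.add_apply, add_mul]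

theorem TP_cp_smul (c : ℂ) (O : Op (ZMod m)) (a : {p : ZMod m // p ∈ A} → Op (Fin 8)) :
    TP (cE m A) (pE m A) (c • O) a = c • TP (cE m A) (pE m A) O a := by
  ext x y
  rw [Matrix.smul_apply, TP_cp, TP_cp, Matrix.smul_apply, smul_eq_mul, smul_eq_mul, mul_assoc]

theorem TP_cp_zero (a : {p : ZMod m // p ∈ A} → Op (Fin 8)) :
    TP (cE m A) (pE m A) (0 : Op (ZMod m)) a = 0 := by
  ext x y
  rw [TP_cp, Matrix.zero_apply, Matrix.zero_apply, zero_mul]

/-- the sums of tensors, with multiindices without `0` -/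
noncomputable def Psi' (m : ℕ) [NeZero m] (A : Finset (ZMod m)) (n : ℕ) (e : Fin (n + 1) → Op (Fin 8)) :
    ({α : {p : ZMod m // p ∈ A} → Fin (n + 1) // ∀ p, α p ≠ 0} → Op (ZMod m)) →ₗ[ℂ] Op (VA m A) where
  toFun O := ∑ α, TP (cE m A) (pE m A) (O α) (fun i => e (α.1 i))
  map_add' O O' := by
    rw [← Finset.sum_add_distrib]
    exact Finset.sum_congr rfl fun α _ => TP_cp_add _ _ _
  map_smul' c O := by
    rw [RingHom.id_apply, Finset.smul_sum]
    exact Finset.sum_congr rfl fun α _ => TP_cp_smul _ _ _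

theorem card_multi (I : Type*) [Fintype I] [DecidableEq I] (n : ℕ) :
    Fintype.card {α : I → Fin (n + 1) // ∀ p, α p ≠ 0} = n ^ Fintype.card I := by
  have e1 : {α : I → Fin (n + 1) // ∀ p, α p ≠ 0} ≃ (I → {j : Fin (n + 1) // j ≠ 0}) :=
    Equiv.subtypePiEquivPi (p := fun _ j => j ≠ 0)
  rw [Fintype.card_congr e1, Fintype.card_fun, Fintype.card_subtype_compl, Fintype.card_fin,
    Fintype.card_unique, Nat.add_sub_cancel]

theorem finrank_op (m : ℕ) [NeZero m] : Module.finrank ℂ (Op (ZMod m)) = 4 ^ m := by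
  rw [Module.finrank_matrix, Module.finrank_self, mul_one, Fintype.card_fun, Fintype.card_bool, ZMod.card,
    ← mul_pow]
  norm_num

/-- part (2) and (3) -/
theorem upper_count (n : ℕ) (e : Fin (n + 1) → Op (Fin 8)) (he : LinearIndependent ℂ e) (h0 : e 0 = 1)
    (hs : ∀ i : Fin n, e i.succ *ᵥ psi = 0) (hpsi : ∃ x, psi x ≠ 0) (K : Submodule ℂ (Op (VA m A)))
    (hT : ∀ z ∈ K, ∃ O : ({p : ZMod m // p ∈ A} → Fin (n + 1)) → Op (ZMod m),
      z = ∑ α, TP (cE m A) (pE m A) (O α) (fun i => e (α i)))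
    (hk : ∀ p, ∀ z ∈ K, z * hid m A p = 0) : Module.finrank ℂ K ≤ n ^ A.card * 4 ^ m := by
  classical
  have hle : K ≤ LinearMap.range (Psi' m A n e) := by
    intro z hz
    obtain ⟨O, rfl⟩ := hT z hz
    refine ⟨fun α => O α.1, ?_⟩
    have h1 : ∀ α : {p : ZMod m // p ∈ A} → Fin (n + 1), ¬ (∀ p, α p ≠ 0) → O α = 0 := by
      intro α hα
      push Not at hα
      obtain ⟨p, hp⟩ := hα
      exact hid_kill n e he h0 hs hpsi O p (hk p _ hz) α hp
    change ∑ α : {α : {p : ZMod m // p ∈ A} → Fin (n + 1) // ∀ p, α p ≠ 0},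
      TP (cE m A) (pE m A) (O α.1) (fun i => e (α.1 i)) = _
    refine Fintype.sum_of_injective
      (fun α : {α : {p : ZMod m // p ∈ A} → Fin (n + 1) // ∀ p, α p ≠ 0} => α.1)
      Subtype.val_injective _ _ ?_ (fun _ => rfl)
    intro α hα
    rw [h1 α fun h => hα ⟨⟨α, h⟩, rfl⟩, TP_cp_zero]
  calc Module.finrank ℂ K ≤ Module.finrank ℂ (LinearMap.range (Psi' m A n e)) := Submodule.finrank_mono hle
    _ ≤ Module.finrank ℂ ({α : {p : ZMod m // p ∈ A} → Fin (n + 1) // ∀ p, α p ≠ 0} → Op (ZMod m)) :=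
      LinearMap.finrank_range_le _
    _ = n ^ A.card * 4 ^ m := by
      rw [Module.finrank_pi_fintype]
      simp only [finrank_op, Finset.sum_const, Finset.card_univ, card_multi, Fintype.card_coe, smul_eq_mul]

end

end Pool.Agent.QAOA.CX
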