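import Pool.Agent.Lib_MP_debdb1_cx.Ten

/-!
# Piece UB, part (3): the hidden states kill only the tensors without a factor `1`
-/

set_option autoImplicit false

namespace Pool.Agent.QAOA.CX

open Matrix Pool.Agent.QAOA

section
variable {m : ℕ} [NeZero m] {A : Finset (ZMod m)}

/-- the qubits of the core -/
def cE (m : ℕ) (A : Finset (ZMod m)) : ZMod m ↪ VA m A := ⟨Sum.inl, Sum.inl_injective⟩

/-- the qubits of the gadget `p` -/
def pE (m : ℕ) (A : Finset (ZMod m)) (p : {p : ZMod m // p ∈ A}) : Fin 8 ↪ VA m A :=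
  ⟨fun s => Sum.inr (p, s), fun _ _ h => congrArg Prod.snd (Sum.inr.inj h)⟩

theorem dj_cp (m : ℕ) (A : Finset (ZMod m)) : Dj (cE m A) (pE m A) where
  fg := by
    intro u i s h
    cases h
  gg := by
    intro i j s t h
    exact congrArg Prod.fst (Sum.inr.inj h)

/-- every qubit is a core qubit or a gadget qubit -/
theorem TP_cp (O : Op (ZMod m)) (a : {p : ZMod m // p ∈ A} → Op (Fin 8)) (x y : VA m A → Bool) :
    TP (cE m A) (pE m A) O a x y = O (fun u => x (Sum.inl u)) (fun u => y (Sum.inl u)) *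
      ∏ i, a i (fun s => x (Sum.inr (i, s))) (fun s => y (Sum.inr (i, s))) := by
  unfold TP
  rw [Matrix.of_apply, if_pos]
  · rfl
  · rintro (u | ⟨i, s⟩) h1 h2
    · exact absurd ⟨u, rfl⟩ h1
    · exact absurd ⟨s, rfl⟩ (h2 i)

/-- replace the bits of the gadget `p` -/
def upG (p : {p : ZMod m // p ∈ A}) (w : VA m A → Bool) (s : Fin 8 → Bool) : VA m A → Bool
  | Sum.inl u => w (Sum.inl u)
  | Sum.inr (q, t) => if q = p then s t else w (Sum.inr (q, t))

/-- forget the bits of the gadget `p` -/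
def resG (p : {p : ZMod m // p ∈ A}) (w : VA m A → Bool) : VA m (A.erase p.1) → Bool
  | Sum.inl u => w (Sum.inl u)
  | Sum.inr (q, t) => w (Sum.inr (⟨q.1, Finset.mem_of_mem_erase q.2⟩, t))

theorem mul_hid (p : {p : ZMod m // p ∈ A}) (M : Op (VA m A)) (x w : VA m A → Bool) :
    (M * hid m A p) x (resG p w) = ∑ s : Fin 8 → Bool, M x (upG p w s) * psi s := by
  rw [Matrix.mul_apply]
  symm
  refine Fintype.sum_of_injective (upG p w) ?_ _ _ ?_ ?_
  · intro s s' h
    funext t
    have := congrFun h (Sum.inr (p, t))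
    simpa [upG] using this
  · intro z hz
    rw [hid, Matrix.of_apply, if_neg, mul_zero]
    rintro ⟨h1, h2⟩
    apply hz
    refine ⟨fun t => z (Sum.inr (p, t)), ?_⟩
    funext v
    rcases v with u | ⟨q, t⟩
    · exact (h1 u).symm
    · simp only [upG]
      split_ifs with hq
      · rw [hq]
      · have hq' : q.1 ∈ A.erase p.1 := Finset.mem_erase.2 ⟨fun h => hq (Subtype.ext h), q.2⟩
        exact (h2 ⟨q.1, hq'⟩ t).symm
  · intro s
    rw [hid, Matrix.of_apply, if_pos]
    · congr 1
      congr 1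
      funext t
      simp [upG]
    · refine ⟨fun u => rfl, fun q t => ?_⟩
      have hq : (⟨q.1, Finset.mem_of_mem_erase q.2⟩ : {p : ZMod m // p ∈ A}) ≠ p := by
        intro h
        exact (Finset.mem_erase.1 q.2).1 (congrArg Subtype.val h)
      simp only [upG, resG]
      rw [if_neg hq]

theorem TP_hid (p : {p : ZMod m // p ∈ A}) (O : Op (ZMod m)) (a : {p : ZMod m // p ∈ A} → Op (Fin 8))
    (x w : VA m A → Bool) :
    (TP (cE m A) (pE m A) O a * hid m A p) x (resG p w) =
      O (fun u => x (Sum.inl u)) (fun u => w (Sum.inl u)) *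
        (∏ i ∈ Finset.univ.erase p, a i (fun s => x (Sum.inr (i, s))) (fun s => w (Sum.inr (i, s)))) *
          (a p *ᵥ psi) (fun s => x (Sum.inr (p, s))) := by
  rw [mul_hid, Matrix.mulVec, dotProduct, Finset.mul_sum]
  refine Finset.sum_congr rfl fun s _ => ?_
  rw [TP_cp, ← Finset.mul_prod_erase Finset.univ _ (Finset.mem_univ p)]
  have e1 : (fun t => upG p w s (Sum.inr (p, t))) = s := by
    funext t
    simp [upG]
  have e2 : ∏ i ∈ Finset.univ.erase p, a i (fun s => x (Sum.inr (i, s))) (fun t => upG p w s (Sum.inr (i, t))) =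
      ∏ i ∈ Finset.univ.erase p, a i (fun s => x (Sum.inr (i, s))) (fun s => w (Sum.inr (i, s))) := by
    refine Finset.prod_congr rfl fun i hi => ?_
    congr 1
    funext t
    simp only [upG]
    rw [if_neg (Finset.mem_erase.1 hi).1]
  rw [e1, e2]
  have e3 : (fun u => upG p w s (Sum.inl u)) = fun u => w (Sum.inl u) := rfl
  rw [e3]
  ring

/-- part (3): the coefficients with a factor `1` vanish -/
theorem hid_kill (n : ℕ) (e : Fin (n + 1) → Op (Fin 8)) (he : LinearIndependent ℂ e) (h0 : e 0 = 1)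
    (hs : ∀ i : Fin n, e i.succ *ᵥ psi = 0) (hpsi : ∃ x, psi x ≠ 0)
    (O : ({p : ZMod m // p ∈ A} → Fin (n + 1)) → Op (ZMod m)) (p : {p : ZMod m // p ∈ A})
    (hz : (∑ α, TP (cE m A) (pE m A) (O α) (fun i => e (α i))) * hid m A p = 0)
    (α : {p : ZMod m // p ∈ A} → Fin (n + 1)) (hα : α p = 0) : O α = 0 := by
  classical
  obtain ⟨s0, hs0⟩ := hpsi
  have key : ∑ α : {p : ZMod m // p ∈ A} → Fin (n + 1),
      TP (cE m A) (pE m A) (if α p = 0 then O α else 0) (fun i => e (α i)) = 0 := by
    ext x w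
    rw [Matrix.sum_apply]
    have h1 : ((∑ α, TP (cE m A) (pE m A) (O α) (fun i => e (α i))) * hid m A p) (upG p x s0) (resG p w) = 0 := by
      rw [hz]
      rfl
    rw [Matrix.sum_mul, Matrix.sum_apply] at h1
    have h2 : ∀ α : {p : ZMod m // p ∈ A} → Fin (n + 1),
        TP (cE m A) (pE m A) (if α p = 0 then O α else 0) (fun i => e (α i)) x w =
          (1 : Op (Fin 8)) (fun s => x (Sum.inr (p, s))) (fun s => w (Sum.inr (p, s))) * (psi s0)⁻¹ *
            (TP (cE m A) (pE m A) (O α) (fun i => e (α i)) * hid m A p) (upG p x s0) (resG p w) := by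
      intro α
      rw [TP_hid, TP_cp]
      have e1 : (fun t => upG p x s0 (Sum.inr (p, t))) = s0 := by
        funext t
        simp [upG]
      have e2 : ∏ i ∈ Finset.univ.erase p, e (α i) (fun s => upG p x s0 (Sum.inr (i, s))) (fun s => w (Sum.inr (i, s))) =
          ∏ i ∈ Finset.univ.erase p, e (α i) (fun s => x (Sum.inr (i, s))) (fun s => w (Sum.inr (i, s))) := by
        refine Finset.prod_congr rfl fun i hi => ?_
        congr 1
        funext t
        simp only [upG]
        rw [if_neg (Finset.mem_erase.1 hi).1]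
      have e3 : (fun u => upG p x s0 (Sum.inl u)) = fun u => x (Sum.inl u) := rfl
      rw [e1, e2, e3]
      by_cases h : α p = 0
      · rw [if_pos h, ← Finset.mul_prod_erase Finset.univ _ (Finset.mem_univ p), h, h0, Matrix.one_mulVec]
        field_simp
      · rw [if_neg h]
        obtain ⟨i, hi⟩ := Fin.exists_succ_eq.2 h
        rw [← hi, hs i]
        simp
    rw [Finset.sum_congr rfl fun α _ => h2 α, ← Finset.mul_sum, h1, mul_zero]
    rfl
  have h3 := TP_indep (cE m A) (pE m A) (dj_cp m A) e he _ key α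
  rwa [if_pos hα] at h3

end

end Pool.Agent.QAOA.CX
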